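import Pool.Agent.Lib.MP_2b1ae8_co.GH.Place
import Pool.Agent.Lib.MP_2b1ae8_co.AT.Late

/-! Bundles and fine blocks of the top vertices, shifts, embedding level by level. -/

set_option autoImplicit false
set_option linter.unusedSectionVars false

namespace Pool.Agent.Lib.MP_2b1ae8_co.GH

open Finset AT

section

variable {V I Lb Bn BB CC Sb : Type} [Fintype V] [DecidableEq V] [Fintype I] [DecidableEq I]
  [Fintype Lb] [DecidableEq Lb] [Fintype Bn] [DecidableEq Bn] [Fintype BB] [DecidableEq BB]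
  [DecidableEq CC] [Fintype Sb] [DecidableEq Sb] {K D g : ℕ} [NeZero K] {F : GF V I K D g}
  {X : LD Lb K} {m q q' n0 Mk : ℕ} (P : LS F X) (M : MS I Lb Bn BB CC Sb X P.nn m q q' n0 Mk)

theorem colour2 {H : Type} [DecidableEq H] [Nonempty Bn] (r Df : ℕ) [NeZero r] (φ : V → H)
    (co : H → BB) (U : ℕ) (hφ : ∀ z ∈ F.Z, ∃ j, co (φ z) = M.cb (M.cell (M.sc (F.tr z))) j)
    (hload : ∀ x B κ, ∑ t ∈ P.Tp with φ (P.hub t) = x ∧ X.kp (P.lab t) = κ, rho P M B t ≤ U)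
    (hq : U + Fintype.card Sb * r ≤ Df * r) (hq' : q' ≤ Df * r) :
    ∃ (bn : V → Bn) (sa : V → Fin r), (∀ t ∈ P.Tp, bn t ∈ M.bs (M.sc (F.tr t)) (P.lab t)) ∧
      (∀ i l b a, #{t ∈ P.Tp | F.tr t = i ∧ P.lab t = l ∧ bn t = b ∧ sa t = a} ≤ Df) ∧
      ∀ x B a, #{t ∈ P.Tp | φ (P.hub t) = x ∧ M.bl (M.sc (F.tr t)) (P.lab t) (bn t) 0 = B ∧
        sa t = a} ≤ Df := by
  have r0 : 0 < r := NeZero.pos r
  have r0' : (0 : ℝ) < r := by exact_mod_cast r0
  obtain ⟨c, b1, b2, b3⟩ := equitable P.Tp (fun t => (M.sc (F.tr t), P.lab t)) F.tr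
    (fun t => φ (P.hub t)) (fun k => M.bs k.1 k.2 ×ˢ (univ : Finset (Fin r)))
    (fun t _ => (M.bs_ne _ _).product univ_nonempty)
  simp only [card_product, card_univ, Fintype.card_fin] at b2 b3
  have c1 : ∀ t ∈ P.Tp, (c t).1 ∈ M.bs (M.sc (F.tr t)) (P.lab t) :=
    fun t ht => (mem_product.1 (b1 t ht)).1
  let rb : V → BB := fun t => M.bl (M.sc (F.tr t)) (P.lab t) (c t).1 0
  have same : ∀ t ∈ P.Tp, ∀ t' ∈ P.Tp, M.sc (F.tr t) = M.sc (F.tr t') → rb t = rb t' →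
      P.lab t = P.lab t' ∧ (c t).1 = (c t').1 := fun t ht t' ht' h h' => by
    have h1 := c1 t ht
    simp only [rb, h] at h1 h'
    have := M.bl_inj _ _ _ _ _ _ _ h1 (P.us0 ht) (c1 t' ht') (P.us0 ht') h'
    exact ⟨this.1, this.2.1⟩
  refine ⟨fun t => (c t).1, fun t => (c t).2, c1, fun i l b a => ?_, fun x B a => ?_⟩
  · refine le_trans (card_le_card fun e he => ?_) (b2 (M.sc i, l) i (b, a) Df
      (le_trans (card_le_card fun e he => ?_) ((M.size i l).trans ?_)))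
    · obtain ⟨he, h1, h2, h3, h4⟩ := mem_filter.1 he
      exact mem_filter.2 ⟨he, by rw [h1, h2], h1, Prod.ext h3 h4⟩
    · obtain ⟨he, h, h1⟩ := mem_filter.1 he
      exact mem_filter.2 ⟨he, h1, (Prod.mk.inj h).2⟩
    · rw [mul_comm _ r, ← mul_assoc]
      exact Nat.mul_le_mul_right _ hq'
  · rw [← Nat.cast_le (α := ℝ)]
    refine card_le_of_ne (by positivity) fun r0 hr0 => ?_
    have hκ : ∀ t ∈ P.Tp, φ (P.hub t) = x → rb t = B →
        M.kd (co x) B = if X.kp (P.lab t) then 2 else 3 := by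
      rintro t ht rfl rfl
      obtain ⟨j, hj⟩ := hφ (P.hub t) (P.hub_Z t ht).1
      rw [hj, (P.hub_Z t ht).2.1]
      exact (M.kd_root _ _ _ j (c1 t ht) (P.us0 ht)).1
    have hκ' : ∀ t ∈ P.Tp, φ (P.hub t) = x → rb t = B → X.kp (P.lab t) = X.kp (P.lab r0) :=
      fun t ht h h' => by
        have := (hκ t ht h h').symm.trans
          (hκ r0 (mem_filter.1 hr0).1 (mem_filter.1 hr0).2.1 (mem_filter.1 hr0).2.2.1)
        revert this
        cases X.kp (P.lab t) <;> cases X.kp (P.lab r0) <;> simp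
    have step : ∀ σ, (#{t ∈ {t ∈ P.Tp | φ (P.hub t) = x ∧ rb t = B ∧ (c t).2 = a} |
        M.sc (F.tr t) = σ} : ℝ) ≤
        (∑ t ∈ {t ∈ P.Tp | φ (P.hub t) = x ∧ X.kp (P.lab t) = X.kp (P.lab r0)} with
          M.sc (F.tr t) = σ, rho P M B t) / r + 1 := by
      intro σ
      refine card_le_of_ne (add_nonneg (div_nonneg (sum_nonneg fun _ _ => rho_nonneg P M _ _)
        r0'.le) zero_le_one) fun t ht => ?_
      obtain ⟨ht, rfl⟩ := mem_filter.1 ht
      obtain ⟨ht, h, h', h''⟩ := mem_filter.1 (mem_filter.1 ht).1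
      have hn := Nat.mul_pos (card_pos.2 (M.bs_ne (F.tr t) (P.lab t))) (NeZero.pos r)
      have e1 := b3 (M.sc (F.tr t), P.lab t) x (c t) _
        ((Nat.lt_mul_div_succ _ hn).le.trans (mul_comm _ _).le)
      refine le_trans (Nat.cast_le.2 (le_trans (card_le_card fun e he => ?_) e1)) ?_
      · obtain ⟨he, h1⟩ := mem_filter.1 he
        obtain ⟨he, h2, h5, h6⟩ := mem_filter.1 he
        obtain ⟨h3, h4⟩ := same e he t ht h1 (h5.trans h'.symm)
        exact mem_filter.2 ⟨he, by rw [h1, h3], h2, Prod.ext h4 (h6.trans h''.symm)⟩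
      · push_cast
        refine add_le_add_left (Nat.cast_div_le.trans ?_) _
        rw [Nat.cast_mul, ← div_div]
        refine div_le_div_of_nonneg_right (le_trans (le_of_eq ?_)
          (sum_le_sum_of_subset_of_nonneg (s := {e ∈ P.Tp | (M.sc (F.tr e), P.lab e) =
            (M.sc (F.tr t), P.lab t) ∧ φ (P.hub e) = x}) (fun e he => ?_)
            fun _ _ _ => rho_nonneg P M _ _)) r0'.le
        · rw [div_eq_mul_one_div, ← nsmul_eq_mul, ← sum_const]
          refine sum_congr rfl fun e he => ?_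
          obtain ⟨h1, h2⟩ := Prod.mk.inj (mem_filter.1 he).2.1
          unfold rho
          rw [h1, h2, if_pos ⟨(c t).1, c1 t ht, h'⟩]
        · obtain ⟨he, h1, h2⟩ := mem_filter.1 he
          obtain ⟨h3, h4⟩ := Prod.mk.inj h1
          exact mem_filter.2 ⟨mem_filter.2 ⟨he, h2, by rw [h4, hκ' t ht h h']⟩, h3⟩
    have e2 := sum_le_sum fun σ (_ : σ ∈ univ) => step σ
    rw [sum_add_distrib, ← sum_div, sum_fiberwise, ← Nat.cast_sum,
      ← card_eq_sum_card_fiberwise (fun _ _ => mem_univ _)] at e2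
    have e3 := hload x B (X.kp (P.lab r0))
    have e4 : (U + Fintype.card Sb * r : ℝ) ≤ Df * r := by exact_mod_cast hq
    simp only [sum_const, card_univ, nsmul_eq_mul, mul_one] at e2
    refine e2.trans ?_
    rw [div_add' _ _ _ r0'.ne', div_le_iff₀ r0']
    linarith

theorem shifts2 (r Df : ℕ) [NeZero r] (hq0 : 0 < q) (h : q + Df * (K * 2) ≤ Df * r) :
    ∃ (δ : I × Lb × Bn × Fin K → Fin r) (sh : I → Lb → Bn → Fin K → Fin r),
    (∀ x ∈ ME P M, ∀ y ∈ ME P M, mkey P M x = mkey P M y → δ x = δ y →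
      x.2.2.2 = y.2.2.2 ∧ X.od x.2.1 x.2.2.2 = X.od y.2.1 y.2.2.2) ∧
    (∀ k d, #{x ∈ ME P M | mkey P M x = k ∧ δ x = d} ≤ Df) ∧
    (∀ i l b, sh i l b 0 = 0) ∧
    ∀ i l b j, X.cp l j < j → sh i l b (X.oo l j) - sh i l b (X.ev l j) = δ (i, l, b, j) := by
  have : NeZero q := ⟨hq0.ne'⟩
  have D0 : 0 < Df := Nat.pos_of_ne_zero (by rintro rfl; omega)
  obtain ⟨δ0, -, h0⟩ := fib_inj (β := Fin q) (ME P M) (mkey P M) (fun _ => univ) (by
    rintro ⟨B, B'⟩
    rw [card_univ, Fintype.card_fin]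
    refine le_trans (card_le_card fun x hx => ?_) (M.cnt_pair B B')
    simpa [ME, mkey, and_assoc] using hx)
  choose cl a1 a2 a3 using fun k : BB × BB => exists_class
    (I := {x // x ∈ ME P M ∧ mkey P M x = k}) (fun x => (x.1.2.2.2, X.od x.1.2.1 x.1.2.2.2))
    (fun x => δ0 x.1) (fun x y e => Subtype.ext
      (h0 _ x.2.1 _ y.2.1 (x.2.2.trans y.2.2.symm) (Fin.ext e))) Df D0
  have a4 : ∀ k x, cl k x < r := fun k x => by
    have b1 := a3 k x
    have b2 := (δ0 x.1).2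
    simp only [Fintype.card_prod, Fintype.card_fin, Fintype.card_bool] at b1
    exact Nat.lt_of_mul_lt_mul_left (a := Df) (by omega)
  obtain ⟨δ, hδ⟩ : ∃ δ : I × Lb × Bn × Fin K → Fin r, ∀ x k (hx : x ∈ ME P M ∧ mkey P M x = k),
      (δ x : ℕ) = cl k ⟨x, hx⟩ :=
    ⟨fun x => if hx : x ∈ ME P M then ⟨cl _ ⟨x, hx, rfl⟩, a4 _ _⟩ else 0, by
      rintro x k ⟨hx, rfl⟩
      simp only [dif_pos hx]⟩
  choose t t0 t1 using fun i l b => exists_shift
    (fun j => if h : j < K then (X.cp l ⟨j, h⟩ : ℕ) else 0)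
    (fun j => if h : j < K then (if X.od l ⟨j, h⟩ then δ (i, l, b, ⟨j, h⟩) else -δ (i, l, b, ⟨j, h⟩))
      else 0)
  refine ⟨δ, fun i l b j => t i l b j, fun x hx y hy e e' => ?_, fun k d => ?_,
    fun i l b => t0 i l b, fun i l b j hj => ?_⟩
  · exact Prod.mk.inj (a1 _ ⟨x, hx, e⟩ ⟨y, hy, rfl⟩ (by rw [← hδ, ← hδ, e']))
  · refine le_trans (card_le_card fun x hx => ?_) (card_image_le.trans (a2 k d) :
      #(({x | cl k x = d} : Finset _).image Subtype.val) ≤ Df)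
    obtain ⟨h1, h2, h3⟩ := mem_filter.1 hx
    exact mem_image.2 ⟨⟨x, h1, h2⟩, mem_filter.2 ⟨mem_univ _, by rw [← hδ, h3]⟩, rfl⟩
  · have := t1 i l b j (by simpa using hj)
    simp only [j.2, dif_pos, Fin.eta] at this
    unfold LD.ev LD.oo
    split_ifs at this ⊢ <;> simp [this]

end

theorem layers (hG : GalvinSt) {V I H BF : Type} [DecidableEq V] [DecidableEq I] [DecidableEq H]
    [DecidableEq BF] {G : SimpleGraph H} [DecidableRel G.Adj] {Df tw l : ℕ}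
    (S : Host G BF Df tw l) (tr : V → I) (par : V → V) (π : V → Bool) (Z Pc : Finset V)
    (ix : V → ℕ) (β : V → BF) (φ : V → H) (hφ : ∀ z ∈ Z, φ z ∈ S.X (π z)) (hZ : ∀ v ∈ Pc, v ∉ Z)
    (hπ : ∀ v ∈ Pc, π (par v) = !π v)
    (hpar : ∀ v ∈ Pc, par v ∈ Z ∨ (par v ∈ Pc ∧ ix (par v) < ix v))
    (hl : ∀ j i b, #{v ∈ Pc | ix v = j ∧ tr v = i ∧ β v = b} ≤ Df)
    (hr : ∀ (ψ : V → H) j, (∀ z ∈ Z, ψ z = φ z) →
      (∀ v ∈ Pc, ix v < j → S.lb (ψ v) = some (β v)) →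
      (∀ u ∈ Pc, ∀ v ∈ Pc, ix u < j → ix u = ix v → ψ u = ψ v → tr u = tr v → u = v) →
      ∀ x b, #{v ∈ Pc | ix v = j ∧ ψ (par v) = x ∧ β v = b} ≤ Df) :
    ∃ ψ : V → H, (∀ z ∈ Z, ψ z = φ z) ∧
      (∀ v ∈ Pc, ψ v ∈ S.X (π v) ∧ S.lb (ψ v) = some (β v) ∧ G.Adj (ψ v) (ψ (par v))) ∧
      ∀ u ∈ Pc, ∀ v ∈ Pc, ix u = ix v → ψ u = ψ v → (tr u = tr v ∨ ψ (par u) = ψ (par v)) →
        u = v := by
  have : Nonempty H := ⟨(S.ne true).choose⟩
  have main : ∀ j, ∃ ψ : V → H, (∀ z ∈ Z, ψ z = φ z) ∧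
      (∀ v ∈ Pc, ix v < j →
        ψ v ∈ S.X (π v) ∧ S.lb (ψ v) = some (β v) ∧ G.Adj (ψ v) (ψ (par v))) ∧
      ∀ u ∈ Pc, ∀ v ∈ Pc, ix u < j → ix u = ix v → ψ u = ψ v →
        (tr u = tr v ∨ ψ (par u) = ψ (par v)) → u = v := by
    intro j
    induction j with
    | zero => exact ⟨φ, fun _ _ => rfl, by simp, by simp⟩
    | succ j ih =>
      obtain ⟨ψ, i1, i2, i3⟩ := ih
      obtain ⟨c, c1, c2⟩ := hG {v ∈ Pc | ix v = j} (fun v => (tr v, β v))
        (fun v => (ψ (par v), β v)) Df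
        (fun a => by simpa only [filter_filter, Prod.ext_iff] using hl j a.1 a.2)
        (fun a => by
          simpa only [filter_filter, Prod.ext_iff] using hr ψ j i1 (fun v hv h => (i2 v hv h).2.1)
            (fun u hu v hv h1 h2 h3 h4 => i3 u hu v hv h1 h2 h3 (Or.inl h4)) a.1 a.2)
        (fun v => {y ∈ S.X (π v) | G.Adj (ψ (par v)) y ∧ S.lb y = some (β v)})
        (fun v hv => by
          obtain ⟨hv, hj⟩ := mem_filter.1 hv
          have := S.deg (π (par v)) (ψ (par v)) (by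
            rcases hpar v hv with h | h
            · exact i1 _ h ▸ hφ _ h
            · exact (i2 _ h.1 (hj ▸ h.2)).1) (β v)
          rwa [hπ v hv, Bool.not_not] at this)
      obtain ⟨χ, h1, h2⟩ : ∃ χ : V → H, (∀ v ∈ Pc, ix v = j → χ v = c v) ∧
          ∀ v, ¬(v ∈ Pc ∧ ix v = j) → χ v = ψ v :=
        ⟨fun v => if v ∈ Pc ∧ ix v = j then c v else ψ v, fun v a b => if_pos ⟨a, b⟩,
          fun v a => if_neg a⟩
      have h3 : ∀ v ∈ Pc, ix v < j + 1 → χ (par v) = ψ (par v) := fun v hv h => h2 _ fun h' => by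
        rcases hpar v hv with a | a
        · exact hZ _ h'.1 a
        · omega
      refine ⟨χ, fun z hz => (h2 z fun h => hZ z h.1 hz).trans (i1 z hz), fun v hv h => ?_,
        fun u hu v hv a1 a2 a3 a4 => ?_⟩
      · rw [h3 v hv h]
        by_cases e : ix v = j
        · obtain ⟨b1, b2, b3⟩ := mem_filter.1 (c1 v (mem_filter.2 ⟨hv, e⟩))
          rw [h1 v hv e]
          exact ⟨b1, b3, b2.symm⟩
        · rw [h2 v fun h => e h.2]
          exact i2 v hv (by omega)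
      · rw [h3 u hu a1, h3 v hv (a2 ▸ a1)] at a4
        by_cases e : ix u = j
        · have hu' : u ∈ {v ∈ Pc | ix v = j} := mem_filter.2 ⟨hu, e⟩
          have hv' : v ∈ {v ∈ Pc | ix v = j} := mem_filter.2 ⟨hv, a2.symm.trans e⟩
          rw [h1 u hu e, h1 v hv (a2.symm.trans e)] at a3
          have b1 := (mem_filter.1 (c1 u hu')).2.2
          rw [a3, (mem_filter.1 (c1 v hv')).2.2] at b1
          have b2 := (Option.some.inj b1).symm
          exact c2 u hu' v hv' a3 (a4.imp (fun h => Prod.ext h b2) fun h => Prod.ext h b2)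
        · rw [h2 u fun h => e h.2, h2 v fun h => e (a2.trans h.2)] at a3
          exact i3 u hu v hv (by omega) a2 a3 a4
  obtain ⟨ψ, i1, i2, i3⟩ := main (Pc.sup ix + 1)
  have hb : ∀ v ∈ Pc, ix v < Pc.sup ix + 1 := fun v hv => Nat.lt_succ_of_le (le_sup hv)
  exact ⟨ψ, i1, fun v hv => i2 v hv (hb v hv), fun u hu v hv => i3 u hu v hv (hb u hu)⟩

end Pool.Agent.Lib.MP_2b1ae8_co.GH
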