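import Pool.Agent.Lib.MP_2b1ae8_co.AT.Defs
import Pool.Agent.Lib.MP_2b1ae8_co.AT.TreeA

/-! Asymptotic tree packing in general hosts: host structure and forests with windows. -/

set_option autoImplicit false

namespace Pool.Agent.Lib.MP_2b1ae8_co.GH

open Finset AT

/-- The number of neighbours of `x` in `Y`. -/
def dg {H : Type} [DecidableEq H] (G : SimpleGraph H) [DecidableRel G.Adj] (x : H)
    (Y : Finset H) : ℕ := #{y ∈ Y | G.Adj x y}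

/-- Two sides `X`, labels (`none` is the reservoir) and navigation sets `E y p i` towards `y`. -/
structure Host {H : Type} [DecidableEq H] (G : SimpleGraph H) [DecidableRel G.Adj] (BF : Type)
    [DecidableEq BF] (Df tw l : ℕ) where
  X : Bool → Finset H
  lb : H → Option BF
  E : H → Bool → ℕ → Finset H
  ne : ∀ p, (X p).Nonempty
  deg : ∀ p, ∀ x ∈ X p, ∀ b, Df ≤ #{y ∈ X (!p) | G.Adj x y ∧ lb y = some b}
  degW : ∀ p, ∀ x ∈ X p, tw ≤ #{y ∈ X (!p) | G.Adj x y ∧ lb y = none}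
  E_one : ∀ p, ∀ y ∈ X p, ∀ x ∈ E y p 1, G.Adj x y
  E_sub : ∀ p, ∀ y ∈ X p, ∀ i, E y p i ⊆ X (not^[i] p)
  E_step : ∀ p, ∀ y ∈ X p, ∀ i, 1 ≤ i → i ≤ l → ∀ x ∈ E y p (i + 1),
    tw ≤ #{z ∈ E y p i | G.Adj x z ∧ lb z = none}
  E_top : ∀ p, ∀ y ∈ X p, X (not^[l + 1] p) ⊆ E y p (l + 1)

/-- A forest `T` with windows `Wn` (vertical paths of `l` vertices, `pos` counts from the bottom
`bot`, with the light subtrees hanging from them, `pos = 0`), and the decomposed forest `F` in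
which each window is replaced by one late vertex. `τ` is the parity in `T`, `π` the one in `F`. -/
structure WF {V I : Type} [Fintype V] [DecidableEq V] [DecidableEq I] (T : Fo V I)
    (K D g l μ : ℕ) where
  F : GF V I K D g
  τ : V → Bool
  π : V → Bool
  Wn : Finset V
  pos : V → ℕ
  bot : V → V
  tr_eq : F.tr = T.tr
  R_eq : F.R = T.R
  τ_par : ∀ v, v ∉ T.R → τ (T.par v) = !τ v
  π_eq : ∀ v, v ∉ Wn → π v = τ v
  π_par : ∀ v, v ∉ T.R → v ∉ F.La → F.par v ∉ F.La → π (F.par v) = !π v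
  La_sub : F.La ⊆ Wn
  La_ch : ∀ v, v ∉ T.R → F.par v ∈ F.La → v ∈ F.Z
  not_R : ∀ v ∈ Wn, v ∉ T.R
  par_eq : ∀ v, v ∉ T.R → v ∉ Wn → T.par v ∉ Wn → F.par v = T.par v
  top : ∀ v ∈ Wn, T.par v ∉ Wn → v ∈ F.La ∧ F.par v = T.par v ∧ pos v = l
  low : ∀ v, v ∉ T.R → v ∉ Wn → T.par v ∈ Wn →
    F.par v ∈ F.La ∧ pos (T.par v) = 1 ∧ bot (T.par v) = v
  mid : ∀ v ∈ Wn, T.par v ∈ Wn → 1 ≤ pos v → pos (T.par v) = pos v + 1 ∧ bot (T.par v) = bot v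
  pos_le : ∀ v ∈ Wn, pos v ≤ l
  bot_fact : ∀ v ∈ Wn, 1 ≤ pos v → bot v ∉ Wn ∧ τ v = not^[pos v] (τ (bot v))
  card_Wn : ∀ i, K * #{v ∈ Wn | T.tr v = i} ≤ 2 * μ * #{v | T.tr v = i}
  ch_Wn : ∀ v ∈ Wn, #(T.ch v) ≤ K

end Pool.Agent.Lib.MP_2b1ae8_co.GH
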