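import Pool.Agent.Lib.MP_2b1ae8_co.GH.Params

/-! The parameters of the dense case: choice. -/

set_option autoImplicit false

namespace Pool.Agent.Lib.MP_2b1ae8_co.GH

open AT

theorem par2 (u cw l : ℕ) (lbN : ℕ → ℕ) (JN : ℕ → ℕ → ℕ → ℕ → ℕ) :
    ∃ K D Q L m r μ b : ℕ, 0 < r ∧ K ≤ b * μ ∧ 2 * D * ((b + 1) * l + μ) ≤ K ∧
      ∃ k0 : ℕ, ∀ k, k0 ≤ k → ∃ g q q' ζ lam e η η' θ Mh n0 Mk w Df qE cap capT capp b1 b2 x1 x2
        U0 z : ℕ,
      Num k K D g Q L m q q' ζ lam e η η' θ Mh n0 Mk w (lbN K) (JN K Q L m) ∧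
      Num2 K D g m q q' ζ lam e η η' θ Mh n0 (L * (Q * Q) ^ L * m) (JN K Q L m) r Df qE cap capT
        capp b1 b2 x1 x2 U0 ∧
      4 * u * (L * (Q * Q) ^ L * m * r * Df) ≤ (4 * u + 1) * k ∧ 0 < z ∧
      3 * (k + 1) * (μ * lam) ≤ z * z ∧ cw * (μ * lam + 2 * (w + z + K + 1) + z) < k := by
  obtain ⟨s, hs0⟩ : ∃ s, s = 200 * u + 15 * cw + 3 * l + 5 := ⟨_, rfl⟩
  have hs : 5 ≤ s := by omega
  obtain ⟨Q, hQ⟩ : ∃ Q, Q = s + 5 := ⟨_, rfl⟩
  obtain ⟨T, hT⟩ : ∃ T, T = (Q + 1) ^ 2 + 6 := ⟨_, rfl⟩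
  obtain ⟨L, hL⟩ : ∃ L, L = (Q + 1) * T := ⟨_, rfl⟩
  have Q1 : 1 ≤ Q := by omega
  have T6 : 6 ≤ T := by omega
  have L2 : 2 ≤ L := by rw [hL]; nlinarith
  obtain ⟨H, hH⟩ : ∃ H, H = (Q * Q) ^ (L - 2) := ⟨_, rfl⟩
  obtain ⟨G, hG⟩ : ∃ G, G = (Q * Q) ^ L := ⟨_, rfl⟩
  have H1 : 1 ≤ H := hH ▸ Nat.one_le_pow _ _ (by positivity)
  have G1 : 1 ≤ G := hG ▸ Nat.one_le_pow _ _ (by positivity)
  have GH : G = H * (Q * Q) ^ 2 := by rw [hG, hH, ← pow_add, Nat.sub_add_cancel L2]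
  obtain ⟨a, ha⟩ : ∃ a, a = 8 * Q * (Q + 1) := ⟨_, rfl⟩
  have a0 : 0 < a := by rw [ha]; positivity
  obtain ⟨D, hD⟩ : ∃ D, D = 40 * (a * (Q * G * L)) := ⟨_, rfl⟩
  obtain ⟨K, hK⟩ : ∃ K, K = 8 * Q * L * (D + 1) ^ 2 := ⟨_, rfl⟩
  have D1 : 0 < D := by rw [hD]; positivity
  have b2 : a = 8 * (Q * Q) + 8 * Q := by rw [ha]; ring
  have DQ : 3 * (Q * Q) ≤ D := by
    have b1 : a * 1 ≤ a * (Q * G * L) :=
      Nat.mul_le_mul_left _ (Nat.mul_pos (Nat.mul_pos Q1 G1) (by omega))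
    omega
  have QD : Q * 5 ≤ Q * (D + 1) := Nat.mul_le_mul_left _ (by omega)
  have KD : 4 * (D + 1) ≤ K := by
    have a1 : 1 * 1 ≤ Q * L := Nat.mul_le_mul Q1 (by omega)
    have a2 : 1 * (D + 1) ≤ (Q * L * (D + 1)) * (D + 1) :=
      Nat.mul_le_mul_right _ (Nat.mul_pos (by omega) (by omega))
    have a3 : K = 8 * ((Q * L * (D + 1)) * (D + 1)) := by rw [hK]; ring
    omega
  obtain ⟨lb, hlb⟩ : ∃ lb, lb = lbN K := ⟨_, rfl⟩
  obtain ⟨X, hX⟩ : ∃ X, X = L * L * (Q * Q) * (Q * Q) * (K * lb) := ⟨_, rfl⟩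
  obtain ⟨m0, hm0⟩ : ∃ m0, m0 = Q * L + Q * K * lb + 4 * Q * L * (D + 1) * Q * X + Q * (D + 1) :=
    ⟨_, rfl⟩
  obtain ⟨m, hm⟩ : ∃ m, m = L + m0 := ⟨_, rfl⟩
  have m01 : 1 ≤ m0 := by
    have : 0 < Q * (D + 1) := by positivity
    omega
  have hml : m - L = m0 := by omega
  obtain ⟨J, hJ⟩ : ∃ J, J = JN K Q L m := ⟨_, rfl⟩
  obtain ⟨Nb, hNb⟩ : ∃ Nb, Nb = L * G * m := ⟨_, rfl⟩
  have mNb : m ≤ Nb := by
    rw [hNb]
    exact Nat.le_mul_of_pos_left _ (by positivity)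
  obtain ⟨c, hc⟩ : ∃ c, c = 3 * Q * Q * Nb := ⟨_, rfl⟩
  have c1 : 1 ≤ c := by
    have : 0 < Nb := by omega
    rw [hc]
    exact Nat.succ_le_of_lt (by positivity)
  obtain ⟨e, he⟩ : ∃ e, e = 80 * (Q * Nb * c) + 1 := ⟨_, rfl⟩
  have e1 : 1 ≤ e := by omega
  obtain ⟨A, hA⟩ : ∃ A, A = s * m0 * Q * (T * G * (20 * (c * e))) := ⟨_, rfl⟩
  have A1 : 0 < A := by
    have : 0 < s := by omega
    rw [hA]
    positivity
  obtain ⟨Mh, hMh⟩ : ∃ Mh, Mh = 20 * (Q * Nb * (c * e)) := ⟨_, rfl⟩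
  obtain ⟨C, hC⟩ : ∃ C, C = (Mh + 1) ^ (e * (Nb + 2)) * 2 ^ e := ⟨_, rfl⟩
  obtain ⟨r1, hr1⟩ : ∃ r1, r1 = Q * C + K + 1 := ⟨_, rfl⟩
  have ar : 1 ≤ a * r1 := Nat.mul_pos a0 (by omega)
  obtain ⟨A', hA'⟩ : ∃ A', A' = A * (a * r1) := ⟨_, rfl⟩
  have A2 : 0 < A' := hA' ▸ Nat.mul_pos A1 ar
  refine ⟨K, D, Q, L, m, a * r1 + K * 2, Q * L * (D + 1), 8 * (D + 1), by omega,
    le_of_eq (by rw [hK]; ring), hK ▸ par_win (by omega) (by omega),
    (J + C + K + (e * e + 2 * e) + 4 * Q) * A' + Q * A' + (K + 2 * A' + Q) +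
      (3 * (Q * (K + 2)) + 1), fun k hk => ?_⟩
  obtain ⟨t0, ht0⟩ : ∃ t0, t0 = k / A' + 1 := ⟨_, rfl⟩
  have t0' : J + C + K + (e * e + 2 * e) + 4 * Q + 1 ≤ t0 := by
    have := (Nat.le_div_iff_mul_le A2).2
      (show (J + C + K + (e * e + 2 * e) + 4 * Q) * A' ≤ k by omega)
    omega
  obtain ⟨t, ht⟩ : ∃ t, t = a * r1 * t0 := ⟨_, rfl⟩
  have tt : A * t = A' * t0 := by rw [hA', ht]; ring
  have t1 : J + C + K + 1 ≤ t := by
    have : t0 ≤ t := ht ▸ Nat.le_mul_of_pos_left _ ar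
    omega
  have t2 : k ≤ A * t := by
    rw [tt, ht0]
    exact (Nat.lt_mul_div_succ k A2).le
  have t3 : A * t ≤ k + A' := by
    have := Nat.mul_div_le k A'
    rw [tt, ht0, mul_add, mul_one]
    omega
  obtain ⟨y, hy⟩ : ∃ y, y = e * t := ⟨_, rfl⟩
  obtain ⟨v, hv⟩ : ∃ v, v = c * y := ⟨_, rfl⟩
  obtain ⟨f, hf⟩ : ∃ f, f = c * (e * t0) := ⟨_, rfl⟩
  obtain ⟨x, hx⟩ : ∃ x, x = m * r1 * f := ⟨_, rfl⟩
  have vf : v = a * r1 * f := by rw [hv, hy, ht, hf]; ring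
  have ef : e * t0 ≤ f := hf ▸ Nat.le_mul_of_pos_left _ c1
  have tf : t0 ≤ e * t0 := Nat.le_mul_of_pos_left _ e1
  have ax : a * x = m * v := by rw [vf, hx]; ring
  have xm : x ≤ m * v := ax ▸ Nat.le_mul_of_pos_left _ a0
  have x1 : 1 ≤ x := hx ▸ Nat.mul_pos (Nat.mul_pos (by omega) (by omega)) (by omega)
  have ty : t ≤ y := hy ▸ Nat.le_mul_of_pos_left _ e1
  have yv : y ≤ v := hv ▸ Nat.le_mul_of_pos_left _ c1
  obtain ⟨g, hg⟩ : ∃ g, y = g + 1 := ⟨y - 1, by omega⟩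
  have At : A * t = s * m0 * Q * (T * G * (20 * v)) := by rw [hA, hv, hy]; ring
  have kb : k ≤ 20 * (Q * Nb * v) := by
    have a1 : s * T ≤ L := hL ▸ Nat.mul_le_mul_right _ (by omega)
    have a2 : s * T * m0 ≤ L * m := Nat.mul_le_mul a1 (by omega)
    calc k ≤ A * t := t2
      _ = s * T * m0 * (20 * (Q * G * v)) := by rw [At]; ring
      _ ≤ L * m * (20 * (Q * G * v)) := Nat.mul_le_mul_right _ a2
      _ = _ := by rw [hNb]; ring
  have mv : m * v ≤ Q * Nb * v :=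
    Nat.mul_le_mul_right _ (mNb.trans (Nat.le_mul_of_pos_left _ Q1))
  have Qv : Q * v ≤ Q * Nb * v := Nat.mul_le_mul_right _ (Nat.le_mul_of_pos_right _ (by omega))
  have vm : v ≤ m * v := Nat.le_mul_of_pos_left _ (by omega)
  obtain ⟨lam, hlam⟩ : ∃ lam, lam = 2 * k / K + 1 := ⟨_, rfl⟩
  have l1 : 2 * k ≤ K * lam := by
    rw [hlam]
    exact (Nat.lt_mul_div_succ _ (by omega)).le
  have l2 : K * lam ≤ 2 * k + K := by
    have := Nat.mul_div_le (2 * k) K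
    rw [hlam, mul_add, mul_one]
    omega
  have l3 : (D + 1) * lam ≤ 20 * (Q * Nb * v) := by
    have a1 : 4 * (D + 1) * lam ≤ K * lam := Nat.mul_le_mul_right _ KD
    rw [mul_assoc] at a1
    omega
  have Mt : Mh * t = 20 * (Q * Nb * v) := by rw [hMh, hv, hy]; ring
  have cap : (Q - 5) * (H * m0) * (Q * (Q * Q) * (Q * (20 * v))) = G * (s * m0 * (20 * v)) := by
    rw [show Q - 5 = s by omega, GH]; ring
  have n1 : s * m0 * (20 * v) ≤ s * m * (20 * v) :=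
    Nat.mul_le_mul_right _ (Nat.mul_le_mul_left _ (by omega))
  have n2 : m * ((Q + 1) * (20 * v)) = s * m * (20 * v) + 120 * (m * v) := by rw [hQ]; ring
  have n3 : Q * m * (20 * v) = s * m * (20 * v) + 100 * (m * v) := by rw [hQ]; ring
  have n4 : m0 * (20 * v) ≤ A * t := by
    have : 0 < s := by omega
    rw [At, show s * m0 * Q * (T * G * (20 * v)) = (s * Q * T * G) * (m0 * (20 * v)) by ring]
    exact Nat.le_mul_of_pos_left _ (by positivity)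
  have main : Num k K D g Q L m ((Q + 1) * (20 * v)) (Q * (20 * v)) (2 * x) lam e (5 * v) t
      (m * (20 * v)) Mh (s * m0 * (20 * v) + J) (2 * L * ((D + 1) * lam + Q * (20 * v) * X))
      (lam + (D + 1) * (2 * ((D + 1) * lam) + y + 5 * v + y +
        2 * (2 * L * ((D + 1) * lam + Q * (20 * v) * X))) + 1) lb J := by
    refine ⟨by omega, D1, by omega, by omega, L2, by omega, Nat.mul_pos Q1 (by omega), by omega,
      by omega, ?_, ?_, l1, ?_, ?_, ?_, ?_, ?_, ?_, ?_, ?_, ?_, ?_, ?_, ?_, ?_⟩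
    · have : 0 < s * m0 * (20 * v) := Nat.mul_pos (Nat.mul_pos (by omega) m01) (by omega)
      omega
    · refine par_zeta (by omega) hD (kb.trans (le_of_eq ?_)) (by omega)
      rw [hNb, vf, hx]; ring
    · refine par_e (by omega) he (kb.trans (le_of_eq ?_))
      rw [hv, hg]; ring
    · rw [← hH, hml, cap, ← hT]
      have : G * (s * m0 * (20 * v)) * L = A * t + G * (s * m0 * (20 * v)) * T := by
        rw [At, hL]; ring
      omega
    · rw [← hH, hml]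
      exact le_trans (by omega) (Nat.le_mul_of_pos_left _ H1)
    · rw [← hH, ← hG, hml, cap, mul_add]
      exact Nat.add_le_add_left (Nat.le_mul_of_pos_left _ G1) _
    · rw [← hG, mul_assoc (Q * (20 * v)), ← hX]
      calc _ ≤ (40 * (Q * Nb * v)) * ((D + 1) * lam + Q * (20 * v) * X) :=
            Nat.mul_le_mul_right _ (by omega)
        _ = _ := by rw [hNb]; ring
    · rw [Mt, mul_left_comm]
      omega
    · omega
    · omega
    · rw [← hG, ← hNb, ← hC]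
      omega
    · rw [← hG, ← hNb, ← hg]
      refine par_theta (by omega) ?_ hc hv
      have : Nb * (Q * (20 * v)) = 20 * (Q * Nb * v) := by ring
      omega
    · have : m * (20 * v) = 20 * (m * v) := by ring
      rw [← hy]
      omega
    · have : (Q + 1) * (20 * v) = Q * (20 * v) + 20 * v := by ring
      rw [← hy]
      omega
    · rw [← hy, show 2 * ((D + 1) * lam) + y + 5 * v + g + 1 = 2 * ((D + 1) * lam) + y + 5 * v + y by
        omega]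
      exact Nat.lt_succ_self _
  have a1 := par_main (B := T * G * (20 * v)) hs hm (by rw [← hQ]; omega)
    (hQ ▸ tt.symm.trans At) (tt ▸ t3) (by rw [← hQ]; omega)
  have a2 := par_w (y := y) (by omega) hK l2 yv (X := X) (m0 := m0) (by omega) (by omega)
    (n4.trans t3) (by omega)
  have a3 : L * G * m * ((Q + 1) * (20 * v)) = (s + 6) ^ 2 * m * (T * G * (20 * v)) := by
    rw [hL, hQ]; ring
  obtain ⟨a4, a5⟩ := par_late (cw := cw) (μ := Q * L * (D + 1)) (by omega) DQ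
    (by rw [hK]; ring) l2 a2 (by omega)
  have a6 := par_fine (K := K) (C := C) (J := J) (nb := Nb) hQ ha vf hx (m0 := m0) (by omega)
    (by omega) main.hη' (hy ▸ hg) (hy ▸ yv) (hC ▸ Nat.le_mul_of_pos_right _ (by positivity)) hr1 (by omega)
    (by omega) (by
      have : e * (4 * Q) ≤ e * t0 := Nat.mul_le_mul_left _ (by omega)
      rw [mul_comm]
      omega) rfl main.hn0 main.hM1 main.hM2 main.hM3 (by rw [hNb, hG]; exact main.hθ)
  rw [← hlb, ← hJ, ← hG, ← hNb]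
  refine ⟨_, _, _, _, _, _, _, _, _, _, _, _, _, _, _, _, _, _, _, _, _, _, _, k / Q + 1, main, a6,
    par_size (Q := Q) (q := (Q + 1) * (20 * v)) (by omega) ?_ (by rw [vf]; ring) ?_,
    Nat.succ_pos _, a4, a5⟩
  · rw [hNb, a3, hQ]
    exact a1
  · have b1 : 2 * Q * K ≤ a * r1 := Nat.mul_le_mul (by omega) (by omega)
    exact le_trans (le_of_eq (by ring)) b1

end Pool.Agent.Lib.MP_2b1ae8_co.GH
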