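import Pool.Agent.Lib.MP_2b1ae8_co.GH.Micro
import Pool.Agent.Lib.MP_2b1ae8_co.GH.Params2
import Pool.Agent.Lib.MP_2b1ae8_co.AT.Main

/-! The dense case. -/

set_option autoImplicit false

namespace Pool.Agent.Lib.MP_2b1ae8_co.GH

open Finset AT

theorem exists_Fo {I : Type} [Fintype I] [DecidableEq I] (n : I → ℕ)
    (T : (i : I) → SimpleGraph (Fin (n i))) (hT : ∀ i, (T i).IsTree) :
    ∃ F : Fo (Σ i, Fin (n i)) I, F.tr = Sigma.fst ∧ ∀ i a b, (T i).Adj a b →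
      ((⟨i, a⟩ : Σ i, Fin (n i)) ∉ F.R ∧ F.par ⟨i, a⟩ = ⟨i, b⟩) ∨
      ((⟨i, b⟩ : Σ i, Fin (n i)) ∉ F.R ∧ F.par ⟨i, b⟩ = ⟨i, a⟩) := by
  have ρ : ∀ i, Fin (n i) := fun i => Classical.choice (hT i).connected.nonempty
  choose par d h1 h2 using fun i => exists_parent (T i) (hT i) (ρ i)
  choose dep h3 using fun i => tr_exists_dep (ρ i) (par i) (d i) (h1 i)
  let F : Fo (Σ i, Fin (n i)) I :=
    { tr := Sigma.fst
      R := {v | v.2 = ρ v.1}
      par := fun v => ⟨v.1, par v.1 v.2⟩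
      dep := fun v => dep v.1 v.2
      rho := fun v => ⟨v.1, ρ v.1⟩
      tr_par := fun _ => rfl
      dep_par := fun v hv => h3 v.1 v.2 (by simpa using hv)
      tr_rho := fun _ => rfl
      rho_R := fun v => by simp
      uniq := by
        rintro ⟨i, r⟩ hr ⟨j, v⟩ e
        simp only [mem_filter, mem_univ, true_and] at hr e
        subst e
        rw [hr] }
  refine ⟨F, rfl, fun i a b hab => ?_⟩
  rcases h2 i a b hab with ⟨h, rfl⟩ | ⟨h, rfl⟩
  · exact Or.inl ⟨by simpa [F] using h, rfl⟩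
  · exact Or.inr ⟨by simpa [F] using h, rfl⟩

/-- Trees whose orders `n i` satisfy `n i + rk i ≤ k` for an injective `rk` pack into every graph
of minimum degree `(1 + 1 / u) k` on at most `C k` vertices. -/
theorem dense (hG : GalvinSt) (hH : HubSt) (hS : HostSt) (hW : WinSt) (hL : LateSt) (u C : ℕ)
    (hu : 0 < u) : ∃ k0 : ℕ, ∀ k, k0 ≤ k →
    ∀ (H : Type) [Fintype H] [DecidableEq H] [Nonempty H] (G : SimpleGraph H) [DecidableRel G.Adj],
      Fintype.card H ≤ C * k → (∀ x, (u + 1) * k ≤ u * dg G x univ) →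
      ∀ (I : Type) [Fintype I] [DecidableEq I] (n rk : I → ℕ), Function.Injective rk →
        (∀ i, n i + rk i ≤ k) → ∀ T : (i : I) → SimpleGraph (Fin (n i)), (∀ i, (T i).IsTree) →
        ∃ f : (i : I) → Fin (n i) → H, (∀ i, Function.Injective (f i) ∧
            ∀ a b, (T i).Adj a b → G.Adj (f i a) (f i b)) ∧
          ∀ i j a b c d, (T i).Adj a b → (T j).Adj c d → s(f i a, f i b) = s(f j c, f j d) →
            i = j := by
  obtain ⟨cw, l, hl, h0⟩ := hS u C hu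
  obtain ⟨K, D, Q, L, m, r, μ, b, r0, hb, hb', k1, h1⟩ := par2 u cw l
    (fun K => Fintype.card (Lbl K)) (fun K Q L m => JJ (Fintype.card (Lbl K)) Q L m)
  obtain ⟨k2, h2⟩ := h0 (L * (Q * Q) ^ L * m * r)
  refine ⟨k1 + k2, fun k hk H _ _ _ G _ hC hδ I _ _ n rk hrk hn T hT => ?_⟩
  obtain ⟨g, q, q', ζ, lam, e, η, η', θ, Mh, n0, Mk, w, Df, qE, cap, capT, capp, b1, b2, x1, x2,
    U0, z, N, N2, s1, s2, s3, s4⟩ := h1 k (by omega)
  have : NeZero K := ⟨N.hK.ne'⟩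
  have : NeZero Q := ⟨by have := N.hQ; omega⟩
  have : NeZero L := ⟨by have := N.hL; omega⟩
  have : NeZero m := ⟨by have := N.hL; have := N.hm; omega⟩
  have : NeZero r := ⟨r0.ne'⟩
  obtain ⟨T0, hT0, hadj⟩ := exists_Fo n T hT
  obtain ⟨W⟩ := hW T0 K D g l μ b N.hK N.hD N.hg hl hb hb'
  have hF : W.F.tr = Sigma.fst := W.tr_eq.trans hT0
  obtain ⟨P⟩ := exists_LS W.F
  have : DecidableEq (Lbl K) := Classical.decEq _
  have hsz : ∀ i, #{v | W.F.tr v = i} ≤ n i := fun i => by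
    rw [hF, ← card_fin (n i)]
    refine le_trans (card_le_card fun v hv => ?_) (card_image_le (f := fun a => (⟨i, a⟩ : Σ i, _)))
    obtain ⟨j, a⟩ := v
    obtain rfl : j = i := by simpa using hv
    exact mem_image_of_mem _ (mem_univ a)
  have hsz' : ∀ i, #{v | W.F.tr v = i} ≤ k := fun i => by
    have := hsz i
    have := hn i
    omega
  have hLa : ∀ i, #{v ∈ W.F.La | W.F.tr v = i} ≤ lam := fun i => Nat.le_of_mul_le_mul_left
    ((W.F.card_La i).trans ((Nat.mul_le_mul_left _ (hsz' i)).trans N.hlam)) N.hK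
  have hZ : ∀ i, #{v ∈ W.F.Z | W.F.tr v = i} ≤ ζ := fun i => Nat.le_of_mul_le_mul_left
    ((W.F.card_Z i).trans ((Nat.add_le_add_right (Nat.mul_le_mul_left _ (hsz' i)) _).trans N.hζ))
    (Nat.mul_pos N.hK N.hD)
  have hE : ∀ i, #{v ∈ W.F.E | W.F.tr v = i} ≤ e := fun i => Nat.le_of_mul_le_mul_left
    ((W.F.card_E i).trans ((Nat.add_le_add_right (Nat.mul_le_mul_left _ (hsz' i)) _).trans N.he))
    N.hg
  have hWn : ∀ i, #{v ∈ W.Wn | T0.tr v = i} ≤ μ * lam := fun i => by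
    refine Nat.le_of_mul_le_mul_left ((W.card_Wn i).trans ?_) N.hK
    rw [← W.tr_eq, mul_comm 2, mul_assoc, mul_left_comm K]
    exact Nat.mul_le_mul_left _ ((Nat.mul_le_mul_left _ (hsz' i)).trans N.hlam)
  obtain ⟨M⟩ := exists_MS (lblD K) P.nn n rk hrk N hn
    (fun i => (P.nn_sum i _).trans_le ((P.cnt_us i).trans (hsz i)))
    (fun i => (P.nn_sum i _).trans_le ((P.cnt_ma i).trans (Nat.mul_le_mul_left _ (hLa i))))
  have hB : Fintype.card (Blk (GQ Q) L m) = L * (Q * Q) ^ L * m := by simp [mul_assoc]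
  have hM : 0 < MM Q L m := Nat.mul_pos (NeZero.pos Q) (lt_of_lt_of_le
    (Nat.mul_pos (Nat.mul_pos (NeZero.pos Q) N.hK) Fintype.card_pos) N.hlb)
  have : NeZero (MM Q L m) := ⟨hM.ne'⟩
  have : DecidableEq (Pln (Lbl K) Q L m × Tr (GQ Q) L m) := Classical.decEq _
  obtain ⟨tw, htw, ⟨S⟩⟩ := h2 k (by omega) H G hC hδ (Blk (GQ Q) L m × Fin r) Df
    (by rw [Fintype.card_prod, hB, Fintype.card_fin]) s1
  obtain ⟨ψ, p1, p2, p3, p4, p5⟩ := micro2 hG hH P M S W.π (W.R_eq ▸ W.π_par) (W.R_eq ▸ W.La_ch)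
    hZ hLa hE (by convert N2 using 1; simp [JJ])
  rw [W.R_eq] at p3 p4 p5
  rw [W.tr_eq] at p2 p4
  have e5 : Fintype.card I ≤ k + 1 := by
    rw [← card_range (k + 1)]
    exact card_le_card_of_injOn rk (fun i _ => by have := hn i; simp; omega) hrk.injOn
  obtain ⟨f, f1, f3, f2⟩ := hL W G S hl ψ (μ * lam) _ (w + z + K + 1) z z p1 p2 p3 p4 p5 hWn
    (by
      have a1 := N.hw
      have a2 := Nat.le_mul_of_pos_left (2 * ((D + 1) * lam) + e * η' + η + g + 1 + 2 * Mk)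
        (Nat.succ_pos D)
      simp only [Nat.succ_eq_add_one] at a2
      omega)
    (by omega) s2 ((Nat.mul_le_mul_right _ (Nat.mul_le_mul_left _ e5)).trans s3)
    (Nat.lt_of_mul_lt_mul_left (s4.trans_le htw))
  have key : ∀ i a b, (T i).Adj a b → G.Adj (f ⟨i, a⟩) (f ⟨i, b⟩) ∧ ∃ u, u ∉ T0.R ∧ T0.tr u = i ∧
      s(f u, f (T0.par u)) = s(f ⟨i, a⟩, f ⟨i, b⟩) := fun i a b h => by
    rcases hadj i a b h with ⟨h1, h2⟩ | ⟨h1, h2⟩
    · exact ⟨h2 ▸ f3 _ h1, _, h1, by rw [hT0], by rw [h2]⟩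
    · exact ⟨(h2 ▸ f3 _ h1).symm, _, h1, by rw [hT0], by rw [h2, Sym2.eq_swap]⟩
  refine ⟨fun i a => f ⟨i, a⟩, fun i => ⟨fun a b h => ?_, fun a b h => (key i a b h).1⟩,
    fun i j a b c d h1 h2 h => ?_⟩
  · simpa using f1 ⟨i, a⟩ ⟨i, b⟩ (by rw [hT0]) h
  · obtain ⟨-, u, u1, rfl, u3⟩ := key i a b h1
    obtain ⟨-, v, v1, rfl, v3⟩ := key j c d h2
    exact f2 u v u1 v1 (u3.trans (h.trans v3.symm))

end Pool.Agent.Lib.MP_2b1ae8_co.GH
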