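import Pool.Agent.Lib.MP_2b1ae8_co.GH.St
import Pool.Agent.Lib.MP_2b1ae8_co.AT.Tools

/-! Galvin's theorem on list edge colourings of bipartite multigraphs. -/

set_option autoImplicit false

namespace Pool.Agent.Lib.MP_2b1ae8_co.GH

open Finset

namespace Galvin

variable {E A B Γ : Type} [DecidableEq E] [DecidableEq A] [DecidableEq B] [DecidableEq Γ]

/-- The orientation of the line graph given by a proper edge colouring. -/
def Arc (l : E → A) (r : E → B) (κ : E → ℕ) (e f : E) : Prop :=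
  (l e = l f ∧ κ e < κ f) ∨ (r e = r f ∧ κ f < κ e)

instance (l : E → A) (r : E → B) (κ : E → ℕ) (e f : E) : Decidable (Arc l r κ e f) := by
  unfold Arc; infer_instance

omit [DecidableEq B] in
lemma kernel (s : Finset E) (l : E → A) (r : E → B) (κ : E → ℕ)
    (hκ : ∀ e ∈ s, ∀ e' ∈ s, κ e = κ e' → (l e = l e' ∨ r e = r e') → e = e') (S : Finset E) :
    S ⊆ s → ∃ U ⊆ S, (∀ e ∈ U, ∀ e' ∈ U, (l e = l e' ∨ r e = r e') → e = e') ∧
      ∀ e ∈ S, e ∉ U → ∃ f ∈ U, Arc l r κ e f := by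
  induction S using Finset.strongInduction with
  | H S ih =>
  intro hS
  let S' := {e ∈ S | ∀ f ∈ S, l f = l e → κ f ≤ κ e}
  have key : ∀ e ∈ S', ∀ e' ∈ S', r e = r e' → κ e < κ e' →
      ∃ U ⊆ S, (∀ e ∈ U, ∀ e' ∈ U, (l e = l e' ∨ r e = r e') → e = e') ∧
        ∀ e ∈ S, e ∉ U → ∃ f ∈ U, Arc l r κ e f := by
    intro e he e' he' hr hlt
    obtain ⟨he1, he2⟩ := mem_filter.1 he
    obtain ⟨he1', -⟩ := mem_filter.1 he'
    obtain ⟨U, hU, h1, h2⟩ := ih (S.erase e') (erase_ssubset he1') ((erase_subset _ _).trans hS)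
    refine ⟨U, hU.trans (erase_subset _ _), h1, fun g hg hgU => ?_⟩
    by_cases hge : g = e'
    · subst hge
      by_cases heU : e ∈ U
      · exact ⟨e, heU, Or.inr ⟨hr.symm, hlt⟩⟩
      · obtain ⟨f, hf, ha⟩ := h2 e (mem_erase.2 ⟨fun h => by rw [h] at hlt; omega, he1⟩) heU
        rcases ha with ⟨h3, h4⟩ | ⟨h3, h4⟩
        · have := he2 f (mem_of_mem_erase (hU hf)) h3.symm
          omega
        · exact ⟨f, hf, Or.inr ⟨hr.symm.trans h3, h4.trans hlt⟩⟩
    · exact h2 g (mem_erase.2 ⟨hge, hg⟩) hgU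
  by_cases hinj : ∀ e ∈ S', ∀ e' ∈ S', r e = r e' → e = e'
  · refine ⟨S', filter_subset _ _, fun e he e' he' h => ?_, fun e he heS => ?_⟩
    · rcases h with h | h
      · obtain ⟨he1, he2⟩ := mem_filter.1 he
        obtain ⟨he1', he2'⟩ := mem_filter.1 he'
        exact hκ e (hS he1) e' (hS he1') (le_antisymm (he2' e he1 h) (he2 e' he1' h.symm))
          (Or.inl h)
      · exact hinj e he e' he' h
    · obtain ⟨f, hf, hmax⟩ := exists_max_image {f ∈ S | l f = l e} κ ⟨e, mem_filter.2 ⟨he, rfl⟩⟩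
      obtain ⟨hf1, hf2⟩ := mem_filter.1 hf
      refine ⟨f, mem_filter.2 ⟨hf1, fun g hg h => hmax g (mem_filter.2 ⟨hg, h.trans hf2⟩)⟩,
        Or.inl ⟨hf2.symm, ?_⟩⟩
      by_contra hlt
      exact heS (mem_filter.2 ⟨he, fun g hg h =>
        (hmax g (mem_filter.2 ⟨hg, h⟩)).trans (not_lt.1 hlt)⟩)
  · push Not at hinj
    obtain ⟨e, he, e', he', hr, hne⟩ := hinj
    rcases lt_trichotomy (κ e) (κ e') with h | h | h
    · exact key e he e' he' hr h
    · exact absurd (hκ e (hS (mem_filter.1 he).1) e' (hS (mem_filter.1 he').1) h (Or.inr hr)) hne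
    · exact key e' he' e he hr.symm h

lemma colour [Nonempty Γ] (s : Finset E) (l : E → A) (r : E → B) (κ : E → ℕ)
    (hκ : ∀ e ∈ s, ∀ e' ∈ s, κ e = κ e' → (l e = l e' ∨ r e = r e') → e = e') (S : Finset E) :
    S ⊆ s → ∀ L : E → Finset Γ, (∀ e ∈ S, #{f ∈ S | Arc l r κ e f} < #(L e)) →
      ∃ c : E → Γ, (∀ e ∈ S, c e ∈ L e) ∧
        ∀ e ∈ S, ∀ e' ∈ S, c e = c e' → (l e = l e' ∨ r e = r e') → e = e' := by
  induction S using Finset.strongInduction with
  | H S ih =>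
  intro hS L hL
  rcases S.eq_empty_or_nonempty with rfl | ⟨e0, he0⟩
  · exact ⟨fun _ => Classical.arbitrary Γ, by simp, by simp⟩
  obtain ⟨a, ha⟩ : (L e0).Nonempty := card_pos.1 (lt_of_le_of_lt (Nat.zero_le _) (hL e0 he0))
  obtain ⟨U, hU, h1, h2⟩ := kernel s l r κ hκ {e ∈ S | a ∈ L e} ((filter_subset _ _).trans hS)
  have hUS : U ⊆ S := hU.trans (filter_subset _ _)
  have hne : U.Nonempty := by
    by_cases h : e0 ∈ U
    · exact ⟨e0, h⟩
    · obtain ⟨f, hf, -⟩ := h2 e0 (mem_filter.2 ⟨he0, ha⟩) h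
      exact ⟨f, hf⟩
  obtain ⟨c, hc1, hc2⟩ := ih (S \ U) (sdiff_ssubset hUS hne) (sdiff_subset.trans hS)
    (fun e => (L e).erase a) (fun e he => by
      obtain ⟨he1, he2⟩ := mem_sdiff.1 he
      have h3 := hL e he1
      have hsub : {f ∈ S \ U | Arc l r κ e f} ⊆ {f ∈ S | Arc l r κ e f} :=
        filter_subset_filter _ sdiff_subset
      by_cases hae : a ∈ L e
      · obtain ⟨f, hf, hef⟩ := h2 e (mem_filter.2 ⟨he1, hae⟩) he2
        have h4 : #{f ∈ S \ U | Arc l r κ e f} < #{f ∈ S | Arc l r κ e f} :=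
          card_lt_card ⟨hsub, fun h => (mem_sdiff.1 (mem_filter.1
            (h (mem_filter.2 ⟨hUS hf, hef⟩))).1).2 hf⟩
        rw [card_erase_of_mem hae]
        omega
      · rw [erase_eq_of_notMem hae]
        exact lt_of_le_of_lt (card_le_card hsub) h3)
  refine ⟨fun e => if e ∈ U then a else c e, fun e he => ?_, fun e he e' he' h hlr => ?_⟩
  · by_cases h : e ∈ U
    · simp only [h, if_true]
      exact (mem_filter.1 (hU h)).2
    · simp only [h, if_false]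
      exact mem_of_mem_erase (hc1 e (mem_sdiff.2 ⟨he, h⟩))
  · by_cases h3 : e ∈ U <;> by_cases h4 : e' ∈ U <;> simp only [h3, h4, if_true, if_false] at h
    · exact h1 e h3 e' h4 hlr
    · exact absurd h.symm (mem_erase.1 (hc1 e' (mem_sdiff.2 ⟨he', h4⟩))).1
    · exact absurd h (mem_erase.1 (hc1 e (mem_sdiff.2 ⟨he, h3⟩))).1
    · exact hc2 e (mem_sdiff.2 ⟨he, h3⟩) e' (mem_sdiff.2 ⟨he', h4⟩) h hlr

omit [DecidableEq E] in
lemma outdeg (s : Finset E) (l : E → A) (r : E → B) (κ : E → ℕ) (d : ℕ) (hd : ∀ e, κ e < d)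
    (hκ : ∀ e ∈ s, ∀ e' ∈ s, κ e = κ e' → (l e = l e' ∨ r e = r e') → e = e') (e : E) :
    #{f ∈ s | Arc l r κ e f} < d := by
  have h1 : #{f ∈ s | Arc l r κ e f} ≤ #((range d).erase (κ e)) := by
    refine card_le_card_of_injOn κ (fun f hf => ?_) (fun f hf g hg h => ?_)
    · simp only [coe_filter, Set.mem_ofPred_eq] at hf
      refine mem_coe.2 (mem_erase.2 ⟨?_, mem_range.2 (hd f)⟩)
      rcases hf.2 with h | h <;> omega
    · simp only [coe_filter, Set.mem_ofPred_eq] at hf hg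
      rcases hf.2 with h1 | h1 <;> rcases hg.2 with h2 | h2
      · exact hκ f hf.1 g hg.1 h (Or.inl (h1.1.symm.trans h2.1))
      · omega
      · omega
      · exact hκ f hf.1 g hg.1 h (Or.inr (h1.1.symm.trans h2.1))
  rw [card_erase_of_mem (mem_range.2 (hd e)), card_range] at h1
  have := hd e
  omega

end Galvin

theorem galvin : GalvinSt := by
  intro E A B Γ _ _ _ _ _ s l r d hl hr L hL
  rcases s.eq_empty_or_nonempty with rfl | ⟨e0, he0⟩
  · exact ⟨fun _ => Classical.arbitrary Γ, by simp, by simp⟩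
  have hd : 0 < d := by
    refine lt_of_lt_of_le (card_pos.2 ⟨e0, ?_⟩) (hl (l e0))
    exact mem_filter.2 ⟨he0, rfl⟩
  obtain ⟨κ, hκ⟩ := AT.konig s l r d hd hl hr
  have hκ' : ∀ e ∈ s, ∀ e' ∈ s, (κ e : ℕ) = κ e' → (l e = l e' ∨ r e = r e') → e = e' :=
    fun e he e' he' h => hκ e he e' he' (Fin.ext h)
  exact Galvin.colour s l r (fun e => κ e) hκ' s Subset.rfl L fun e he =>
    lt_of_lt_of_le (Galvin.outdeg s l r (fun e => κ e) d (fun e => (κ e).2) hκ' e) (hL e he)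

end Pool.Agent.Lib.MP_2b1ae8_co.GH
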