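import Pool.Agent.Lib.MP_2b1ae8_co.GH.St
import Pool.Agent.Lib.MP_4a6af7_co.Simple.Tail

/-! A dense graph carries a host structure. -/

set_option autoImplicit false

namespace Pool.Agent.Lib.MP_2b1ae8_co.GH

open Finset

namespace HostEx

theorem fair (h1 : LabelSt) {H BF κ : Type} [Fintype H] [DecidableEq H] [Fintype BF]
    [DecidableEq BF] [Nonempty BF] [Fintype κ] (G : SimpleGraph H) [DecidableRel G.Adj]
    (Y : κ → Finset H) (w : ℕ) {dv s : ℝ} (hdv : 0 < dv) (hs : 0 < s)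
    (h : 2 * s * Fintype.card H ≤ dv ^ 2)
    (hJ : (Fintype.card H * ((Fintype.card BF + 1) * Fintype.card κ) : ℝ) * Real.exp (-s) < 1) :
    ∃ lb : H → Option BF, ∀ x j,
      (∀ b, (dg G x (Y j) * w : ℝ) ≤
        Fintype.card BF * (w + 1) * (#{y ∈ Y j | G.Adj x y ∧ lb y = some b} + dv)) ∧
      (dg G x (Y j) : ℝ) ≤ (w + 1) * (#{y ∈ Y j | G.Adj x y ∧ lb y = none} + dv) := by
  classical
  set lab : BF × Fin (w + 1) → Option BF := fun f => if f.2 = 0 then none else some f.1 with hlab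
  obtain ⟨ω, hω⟩ := h1 (univ : Finset (H × Option BF × κ))
    (fun i => {y ∈ Y i.2.2 | G.Adj i.1 y}) (fun i => {f | lab f = i.2.1}) (fun _ => dv) s
    (fun _ _ => hdv) hs
    (fun i _ => le_trans (mul_le_mul_of_nonneg_left (Nat.cast_le.2 (card_le_univ _))
      (by positivity)) h) (by simpa using hJ)
  have c1 : #{f | lab f = none} = Fintype.card BF := by
    have : ({f | lab f = none} : Finset _) = univ ×ˢ {0} := by
      ext f
      rw [mem_product]
      simp [hlab]
    rw [this]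
    simp
  have c2 : ∀ b, #{f | lab f = some b} = w := fun b => by
    have : ({f | lab f = some b} : Finset _) = {b} ×ˢ univ.erase 0 := by
      ext f
      rw [mem_product]
      simp [hlab, and_comm]
    rw [this]
    simp
  have hM : (0 : ℝ) < Fintype.card BF := Nat.cast_pos.2 Fintype.card_pos
  have key : ∀ x ob j, (dg G x (Y j) * #{f | lab f = ob} : ℝ) ≤
      Fintype.card BF * (w + 1) * (#{y ∈ Y j | G.Adj x y ∧ lab (ω y) = ob} + dv) := by
    intro x ob j
    have := hω (x, ob, j) (mem_univ _)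
    simp only [Fintype.card_prod, Fintype.card_fin, filter_filter, mem_filter, mem_univ,
      true_and, Nat.cast_mul, Nat.cast_add, Nat.cast_one] at this
    exact (div_le_iff₀' (by positivity)).1 this
  refine ⟨fun y => lab (ω y), fun x j => ⟨fun b => ?_, ?_⟩⟩
  · have := key x (some b) j
    rwa [c2] at this
  · have := key x none j
    rw [c1, mul_comm, mul_assoc] at this
    exact le_of_mul_le_mul_left this hM

theorem fine {u a m k M D z : ℝ} (hu : 1 ≤ u) (ha : 8 ≤ a) (hm : 8 ≤ m) (hM : 0 < M)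
    (h2 : k ≤ 2 * u * a * (m + 1))
    (h3 : 4 * u * (M * D) ≤ (4 * u + 1) * k)
    (h4 : (k + a * m) * (16 * u) ≤ (16 * u + 1) * (M * z + m)) : D ≤ z := by
  by_contra hc
  have b1 : M * z ≤ M * D := mul_le_mul_of_nonneg_left (not_le.1 hc).le hM.le
  have b2 : 4 * u * (M * z) ≤ (4 * u + 1) * k := by nlinarith
  have b3 := mul_le_mul_of_nonneg_left h4 (show 0 ≤ 4 * u by linarith)
  have b4 := mul_le_mul_of_nonneg_left b2 (show 0 ≤ 16 * u + 1 by linarith)
  have b5 := mul_le_mul_of_nonneg_left h2 (show 0 ≤ 20 * u + 1 by linarith)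
  have b6 : 8 * a ≤ a * m := by nlinarith
  have b7 : 8 * m ≤ a * m := by nlinarith
  have b8 : 0 < a * m := by positivity
  have b9 : 64 * u * (a * m) ≤ (40 * u + 2) * (a * m + a) + 4 * (16 * u + 1) * m := by
    refine le_of_mul_le_mul_left ?_ (show 0 < u by linarith)
    nlinarith
  nlinarith

end HostEx

open HostEx in
theorem exists_host (h1 : LabelSt) (h2 : NavSt) : HostSt := by
  intro u C₀ hu
  obtain ⟨C, hC, hC'⟩ : ∃ C, 0 < C ∧ C₀ ≤ C := ⟨C₀ + 1, by omega, by omega⟩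
  obtain ⟨c, hc⟩ : ∃ c, c = 4 * u * C := ⟨_, rfl⟩
  obtain ⟨a, ha⟩ : ∃ a, a = (2 * c + 1) * (2 * C) + 8 := ⟨_, rfl⟩
  obtain ⟨Q, hQ⟩ : ∃ Q, Q = 2 * u * a := ⟨_, rfl⟩
  obtain ⟨W, hW⟩ : ∃ W, W = 2 * (16 * u + 1) := ⟨_, rfl⟩
  have hc0 : 0 < c := by rw [hc]; positivity
  have hQa : a ≤ Q := by rw [hQ]; exact Nat.le_mul_of_pos_left _ (by omega)
  have hQ0 : 0 < Q := by omega
  have hW0 : 0 < W := by omega
  refine ⟨4 * Q * W, 4 * C * Q + 1, by omega, fun M => ?_⟩
  obtain ⟨m₀, hm₀⟩ := Pool.Agent.Lib.MP_4a6af7_co.Simple.exp_small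
    ((2 * C * Q) ^ 2 * ((M + 1) * (2 * (4 * C * Q + 3))))
    (c := 1 / (4 * C * Q * ((M + 1) * W) ^ 2)) (by positivity)
  refine ⟨Q * (m₀ + W + 8), fun k hk H _ _ _ G _ hn hδ BF _ _ _ Df hM hDf => ?_⟩
  obtain ⟨m, hm⟩ : ∃ m, m = k / Q := ⟨_, rfl⟩
  have m1 : m₀ + W + 8 ≤ m := by
    rw [hm, Nat.le_div_iff_mul_le hQ0, mul_comm]
    exact hk
  have m2 : Q * m ≤ k := hm ▸ Nat.mul_div_le k Q
  have m3 : k ≤ Q * (m + 1) := hm ▸ (Nat.lt_mul_div_succ k hQ0).le
  have m4 : k ≤ 2 * Q * m :=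
    (m3.trans (Nat.mul_le_mul_left _ (show m + 1 ≤ 2 * m by omega))).trans_eq (by ring)
  have n1 : Fintype.card H ≤ C * k := hn.trans (Nat.mul_le_mul_right _ hC')
  have n2 : Fintype.card H ≤ 2 * C * Q * m :=
    (n1.trans (Nat.mul_le_mul_left _ m4)).trans_eq (by ring)
  have m6 : 1 * m ≤ a * m := Nat.mul_le_mul_right _ (by omega)
  have n3 : 1 ≤ Fintype.card H := Fintype.card_pos
  have m5 : a * m ≤ k := (Nat.mul_le_mul_right _ hQa).trans m2
  obtain ⟨X, E, x1, x2, x3⟩ := h2 G (k + a * m) c m (4 * C * Q) (2 * c * m) hc0 (by omega)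
    (fun x => by
      have b1 := Nat.mul_le_mul_left (4 * C) (hδ x)
      have b2 := Nat.mul_le_mul_left (2 * C) m2
      rw [hQ] at b2
      rw [hc]
      linarith [Nat.mul_le_mul_left 2 n1])
    (by
      have b1 : (2 * c * m + m) * (2 * C) + m ≤ k := by rw [ha] at m5; linarith [Nat.zero_le m]
      have b2 := Nat.mul_le_mul_left ((2 * c * m + m) * 2) n1
      have b3 := Nat.mul_le_mul_right k b1
      have b4 : m * (a * m) ≤ k * (a * m) := Nat.mul_le_mul_right _ (by omega)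
      linarith [Nat.zero_le (a * m * (a * m)), Nat.zero_le (k * (a * m))])
    (by
      have := Nat.mul_le_mul_left (2 * c) n2
      linarith)
  have hm0 : (0 : ℝ) < m := Nat.cast_pos.2 (by omega)
  have r1 : (Fintype.card H : ℝ) ≤ 2 * C * Q * m := by exact_mod_cast n2
  have r2 : (1 : ℝ) ≤ Fintype.card H := by exact_mod_cast n3
  obtain ⟨lb, hlb⟩ := fair h1 (BF := BF) G
    (fun j : Bool × Option (H × Fin (4 * C * Q + 2)) =>
      j.2.elim (X j.1) fun q => E q.1 j.1 q.2) (16 * u)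
    (dv := m / ((M + 1) * W)) (s := 1 / (4 * C * Q * ((M + 1) * W) ^ 2) * m) (by positivity)
    (by positivity)
    (by
      refine (mul_le_mul_of_nonneg_left r1 (by positivity)).trans_eq ?_
      field_simp
      ring)
    (by
      refine lt_of_le_of_lt (mul_le_mul_of_nonneg_right ?_ (Real.exp_pos _).le)
        (hm₀ m (by omega))
      simp only [Fintype.card_prod, Fintype.card_bool, Fintype.card_option, Fintype.card_fin, hM]
      push_cast
      calc _ ≤ (Fintype.card H : ℝ) * ((M + 1) *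
            (2 * (Fintype.card H * (4 * C * Q + 2) + Fintype.card H))) := by gcongr
        _ = (Fintype.card H : ℝ) ^ 2 * ((M + 1) * (2 * (4 * C * Q + 3))) := by ring
        _ ≤ (2 * C * Q * m) ^ 2 * ((M + 1) * (2 * (4 * C * Q + 3))) := by gcongr
        _ = _ := by ring)
  have hWr : (W : ℝ) = 2 * (16 * u + 1) := by exact_mod_cast hW
  have res : ∀ x (j : Bool × Option (H × Fin (4 * C * Q + 2))),
      m ≤ dg G x (j.2.elim (X j.1) fun q => E q.1 j.1 q.2) →
      m / W ≤ #{y ∈ j.2.elim (X j.1) fun q => E q.1 j.1 q.2 | G.Adj x y ∧ lb y = none} := by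
    intro x j hx
    have b1 := (Nat.cast_le.2 hx).trans (hlb x j).2
    have b2 : (m : ℝ) / ((M + 1) * W) ≤ m / W := by
      gcongr
      exact le_mul_of_one_le_left (by positivity) (by linarith [Nat.cast_nonneg (α := ℝ) M])
    have b3 : (m : ℝ) = 2 * (16 * u + 1) * (m / W) := by
      rw [← hWr]
      field_simp
    refine Nat.cast_le.1 (Nat.cast_div_le.trans (α := ℝ) ?_)
    push_cast at b1
    refine le_of_mul_le_mul_left ?_ (show (0 : ℝ) < 16 * u + 1 by positivity)
    linarith [mul_le_mul_of_nonneg_left b2 (show (0 : ℝ) ≤ 16 * u + 1 by positivity)]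
  refine ⟨m / W, ?_, ⟨⟨X, lb, E, x1, fun p x hx b => ?_,
    fun p x hx => res x (!p, none) (le_trans (by omega) (x2 p x hx)),
    fun p y hy => (x3 p y hy).1, fun p y hy => (x3 p y hy).2.1,
    fun p y hy i i1 i2 x hx => res x (p, some (y, ⟨i, by omega⟩)) ((x3 p y hy).2.2.1 i i1 x hx),
    fun p y hy => (x3 p y hy).2.2.2⟩⟩⟩
  · have b1 : m ≤ W * (m / W + 1) := (Nat.lt_mul_div_succ m hW0).le
    have b2 : 1 ≤ m / W := (Nat.le_div_iff_mul_le hW0).2 (by omega)
    have b3 : m ≤ W * (2 * (m / W)) := b1.trans (Nat.mul_le_mul_left _ (by omega))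
    exact (m4.trans (Nat.mul_le_mul_left _ b3)).trans_eq (by ring)
  · have b1 := (hlb x (!p, none)).1 b
    have b2 : ((k + a * m : ℕ) : ℝ) ≤ dg G x (X (!p)) := Nat.cast_le.2 (x2 p x hx)
    have b3 : (0 : ℝ) < M := by exact_mod_cast hM ▸ Fintype.card_pos
    have b4 : M * ((m : ℝ) / ((M + 1) * W)) ≤ m := by
      rw [← mul_div_assoc, div_le_iff₀ (by positivity)]
      have : (1 : ℝ) ≤ W := by exact_mod_cast hW0
      linarith [mul_le_mul_of_nonneg_left this (show (0 : ℝ) ≤ m * (M + 1) by positivity)]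
    rw [hQ] at m3
    refine Nat.cast_le.1 (fine (u := u) (a := a) (m := m) (k := k) (by exact_mod_cast hu)
      (by exact_mod_cast (show 8 ≤ a by omega)) (by exact_mod_cast (show 8 ≤ m by omega)) b3
      (by exact_mod_cast m3)
      (by exact_mod_cast hDf) ?_)
    rw [hM] at b1
    push_cast at b1 b2
    have b5 := mul_le_mul_of_nonneg_right b2 (show (0 : ℝ) ≤ 16 * u by positivity)
    have b6 := mul_le_mul_of_nonneg_left b4 (show (0 : ℝ) ≤ 16 * u + 1 by positivity)
    simp only [Option.elim] at b1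
    linarith

end Pool.Agent.Lib.MP_2b1ae8_co.GH
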