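import Pool.Agent.Lib.MP_2b1ae8_co.AT.Hub1
import Pool.Agent.Lib.MP_2b1ae8_co.AT.Late

/-! Placement of the cores in a general host: slots, groups, the invariant and one extension. -/

set_option autoImplicit false

namespace Pool.Agent.Lib.MP_2b1ae8_co.GH

open Finset AT

namespace Hub

/-- slots of the heavy vertices and groups of trees of the same type -/
theorem slots {V I C Γ : Type} [DecidableEq V] [DecidableEq I] [Fintype C] [Fintype Γ]
    [DecidableEq Γ] (tr : V → I) (E : Finset V) (TT : Finset I) (w : V → C → ℝ) (e M n0 qE : ℕ)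
    (η' : ℝ) (Bd : C → ℝ) (hA : ∀ v ∈ E, tr v ∈ TT) (hw : ∀ v c, 0 ≤ w v c) (hBd : ∀ c, 0 ≤ Bd c)
    (hη' : 0 < η') (hcE : ∀ i, #{v ∈ E | tr v = i} ≤ e)
    (htot : ∀ i c, ∑ v ∈ E with tr v = i, w v c ≤ Bd c) (hM : ∀ c, Bd c ≤ M * η')
    (hn0 : #TT ≤ n0) (hn0' : 0 < n0) (hqE : 0 < qE)
    (hroom : n0 + qE * (M + 1) ^ (e * Fintype.card C) ≤ qE * Fintype.card Γ) :
    ∃ (κ : V → ℕ) (gam : I → Γ), (∀ v ∈ E, κ v < e) ∧
      (∀ u ∈ E, ∀ v ∈ E, tr u = tr v → κ u = κ v → u = v) ∧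
      (∀ γ, #{i ∈ TT | gam i = γ} ≤ qE) ∧
      ∀ F ⊆ E, (∀ u ∈ F, ∀ v ∈ F, gam (tr u) = gam (tr v)) →
        (∀ u ∈ F, ∀ v ∈ F, κ u = κ v → u = v) → ∀ c, ∑ v ∈ F, w v c ≤ Bd c + e * η' := by
  classical
  obtain ⟨κ, hκ1, hκ2⟩ := hub_rank E tr
  have hκe : ∀ v ∈ E, κ v < e := fun v hv => (hκ1 v hv).trans_le (hcE _)
  set W : I → ℕ → C → ℝ := fun i k c => ∑ v ∈ E with (tr v = i ∧ κ v = k), w v c with hW
  have hW0 : ∀ i k c, 0 ≤ W i k c := fun i k c => sum_nonneg fun v _ => hw v c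
  have hWB : ∀ i k c, W i k c ≤ Bd c := by
    intro i k c
    refine le_trans ?_ (htot i c)
    refine sum_le_sum_of_subset_of_nonneg ?_ fun v _ _ => hw v c
    intro v hv
    simp only [mem_filter] at hv ⊢
    exact ⟨hv.1, hv.2.1⟩
  have hWM : ∀ i k c, ⌈W i k c / η'⌉₊ < M + 1 := by
    intro i k c
    refine Nat.lt_succ_of_le (Nat.ceil_le.2 ?_)
    rw [div_le_iff₀ hη']
    exact (hWB i k c).trans (hM c)
  set th : I → (Fin e → C → Fin (M + 1)) := fun i k c => ⟨⌈W i k c / η'⌉₊, hWM i k c⟩ with hth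
  obtain ⟨cl, c1, c2, c3⟩ := exists_class (I := TT) (fun i => th i.1)
    (fun i => (TT.equivFin i : ℕ)) (fun i j h => TT.equivFin.injective (Fin.ext h)) qE hqE
  have c4 : ∀ i, cl i < Fintype.card Γ := by
    intro i
    have a1 := c3 i
    have a2 : (TT.equivFin i : ℕ) < #TT := (TT.equivFin i).2
    simp only [Fintype.card_pi, prod_const, card_univ, Fintype.card_fin, ← pow_mul,
      mul_comm (Fintype.card C) e] at a1
    exact Nat.lt_of_mul_lt_mul_left (a := qE) (by omega)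
  have c5 : 0 < Fintype.card Γ := by
    rcases Nat.eq_zero_or_pos (Fintype.card Γ) with h | h
    · rw [h, mul_zero] at hroom
      omega
    · exact h
  set gam : I → Γ := fun i => (Fintype.equivFin Γ).symm
    (if h : i ∈ TT then ⟨cl ⟨i, h⟩, c4 _⟩ else ⟨0, c5⟩) with hgam
  have g1 : ∀ i (hi : i ∈ TT) j (hj : j ∈ TT), gam i = gam j → cl ⟨i, hi⟩ = cl ⟨j, hj⟩ := by
    intro i hi j hj h
    simp only [hgam, hi, hj, dif_pos] at h
    exact congrArg Fin.val ((Fintype.equivFin Γ).symm.injective h)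
  refine ⟨κ, gam, hκe, hκ2, fun γ => ?_, fun F hFE hg hinj c => ?_⟩
  · rcases ({i ∈ TT | gam i = γ} : Finset I).eq_empty_or_nonempty with h | ⟨i0, hi0⟩
    · rw [h]
      exact Nat.zero_le _
    obtain ⟨h0, h0'⟩ := mem_filter.1 hi0
    refine le_trans ?_ (c2 (cl ⟨i0, h0⟩))
    refine le_trans (card_le_card (t := ({i : TT | cl i = cl ⟨i0, h0⟩} : Finset TT).image
      Subtype.val) fun i hi => ?_) card_image_le
    obtain ⟨h1, h1'⟩ := mem_filter.1 hi
    exact mem_image.2 ⟨⟨i, h1⟩, mem_filter.2 ⟨mem_univ _, g1 i h1 i0 h0 (h1'.trans h0'.symm)⟩, rfl⟩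
  rcases F.eq_empty_or_nonempty with h0 | ⟨v0, hv0⟩
  · rw [h0, sum_empty]
    have := hBd c
    positivity
  have hFF : ∀ u ∈ F, th (tr u) = th (tr v0) := fun u hu =>
    c1 ⟨_, hA u (hFE hu)⟩ ⟨_, hA v0 (hFE hv0)⟩ (g1 _ _ _ _ (hg u hu v0 hv0))
  have h1 : ∀ v ∈ F, w v c ≤ W (tr v0) (κ v) c + η' := by
    intro v hv
    have a1 : w v c ≤ W (tr v) (κ v) c :=
      single_le_sum (f := fun u => w u c) (fun u _ => hw u c) (by simp [hFE hv])
    have a2 : ⌈W (tr v) (κ v) c / η'⌉₊ = ⌈W (tr v0) (κ v) c / η'⌉₊ :=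
      congrArg Fin.val (congrFun (congrFun (hFF v hv) ⟨κ v, hκe v (hFE hv)⟩) c)
    have a3 : W (tr v) (κ v) c / η' ≤ ⌈W (tr v) (κ v) c / η'⌉₊ := Nat.le_ceil _
    have a4 : (⌈W (tr v0) (κ v) c / η'⌉₊ : ℝ) < W (tr v0) (κ v) c / η' + 1 :=
      Nat.ceil_lt_add_one (div_nonneg (hW0 _ _ _) hη'.le)
    rw [a2] at a3
    have a5 : W (tr v) (κ v) c / η' ≤ (W (tr v0) (κ v) c + η') / η' := by
      rw [add_div, div_self hη'.ne']
      linarith
    rw [div_le_div_iff_of_pos_right hη'] at a5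
    linarith
  calc ∑ v ∈ F, w v c ≤ ∑ v ∈ F, (W (tr v0) (κ v) c + η') := sum_le_sum h1
    _ = ∑ k ∈ F.image κ, (W (tr v0) k c + η') :=
      (sum_image (f := fun k => W (tr v0) k c + η') (fun u hu v hv h => hinj u hu v hv h)).symm
    _ ≤ ∑ k ∈ range e, (W (tr v0) k c + η') := by
      refine sum_le_sum_of_subset_of_nonneg ?_ fun k _ _ => add_nonneg (hW0 _ _ _) hη'.le
      intro k hk
      obtain ⟨v, hv, rfl⟩ := mem_image.1 hk
      exact mem_range.2 (hκe v (hFE hv))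
    _ = ∑ v ∈ E with tr v = tr v0, w v c + e * η' := by
      rw [sum_add_distrib, sum_const, card_range, nsmul_eq_mul]
      congr 1
      rw [← sum_fiberwise_of_maps_to (s := {v ∈ E | tr v = tr v0}) (t := range e) (g := κ)
        (fun v hv => mem_range.2 (hκe v (mem_filter.1 hv).1))]
      refine sum_congr rfl fun k _ => ?_
      simp only [hW, filter_filter]
    _ ≤ Bd c + e * η' := by linarith [htot (tr v0) c]

/-- few classes are heavy -/
theorem few {V β : Type} [Fintype β] [DecidableEq β] (D : Finset V) (f : V → β) (u : V → ℝ)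
    (hu : ∀ v, 0 ≤ u v) (c : ℝ) (hc : 0 < c) (b : ℕ) (h : ∑ v ∈ D, u v ≤ b * c) :
    #{z : β | c ≤ ∑ v ∈ D with f v = z, u v} ≤ b := by
  have h1 : (#{z : β | c ≤ ∑ v ∈ D with f v = z, u v} : ℝ) * c ≤ ∑ v ∈ D, u v := by
    rw [← nsmul_eq_mul, ← sum_const, ← sum_fiberwise D f u]
    exact (sum_le_sum fun z hz => (mem_filter.1 hz).2).trans
      (sum_le_sum_of_subset_of_nonneg (subset_univ _) fun z _ _ => sum_nonneg fun v _ => hu v)
  exact_mod_cast le_of_mul_le_mul_right (h1.trans h) hc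

theorem few' {V β : Type} [Fintype β] [DecidableEq β] (s : Finset V) (P : V → Prop)
    [DecidablePred P] (f : V → β) (c : ℕ) (hc : 0 < c) (b : ℕ)
    (h : (#{v ∈ s | P v} : ℝ) ≤ b * c) : #{z : β | c ≤ #{v ∈ s | P v ∧ f v = z}} ≤ b := by
  refine le_trans (le_of_eq ?_) (few {v ∈ s | P v} f (fun _ => 1) (fun _ => zero_le_one) c
    (by exact_mod_cast hc) b (by simpa using h))
  congr 1
  ext z
  simp [filter_filter]

theorem upd {V : Type} [DecidableEq V] {s : Finset V} {a : V} {P P' : V → Prop} [DecidablePred P]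
    [DecidablePred P'] {cap : ℕ} (h : ∀ v ∈ s, P' v → P v) (h1 : #{v ∈ s | P v} ≤ cap)
    (h2 : P' a → #{v ∈ s | P v} < cap) : #{v ∈ insert a s | P' v} ≤ cap := by
  have h3 : #{v ∈ s | P' v} ≤ #{v ∈ s | P v} := card_le_card fun v hv =>
    mem_filter.2 ⟨(mem_filter.1 hv).1, h v (mem_filter.1 hv).1 (mem_filter.1 hv).2⟩
  rw [filter_insert]
  split_ifs with ha
  · have := card_insert_le a {v ∈ s | P' v}
    have := h2 ha
    omega
  · omega

/-- the children of a set of vertices -/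
theorem kids {V : Type} [DecidableEq V] (par : V → V) (R A P D : Finset V) (hP : P ⊆ A)
    (w0 : V → ℝ) (hc0 : ∀ v ∈ A, (1 : ℝ) + #{u ∈ A | u ∉ R ∧ par u = v} ≤ w0 v)
    (hD : ∀ v ∈ D, v ∈ A ∧ v ∉ R ∧ par v ∈ P) : (#D : ℝ) ≤ ∑ p ∈ P, w0 p := by
  have h1 : D ⊆ P.biUnion fun p => {u ∈ A | u ∉ R ∧ par u = p} := fun v hv =>
    mem_biUnion.2 ⟨par v, (hD v hv).2.2, mem_filter.2 ⟨(hD v hv).1, (hD v hv).2.1, rfl⟩⟩
  have h2 : (#D : ℝ) ≤ ∑ p ∈ P, (#{u ∈ A | u ∉ R ∧ par u = p} : ℝ) := by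
    exact_mod_cast (card_le_card h1).trans card_biUnion_le
  exact h2.trans (sum_le_sum fun p hp => by linarith [hc0 p (hP hp)])

section
variable {V I C H Γ : Type} [DecidableEq V] [DecidableEq I] [Fintype C] [Fintype H]
  [DecidableEq H] [DecidableEq Γ]

/-- the invariant of the greedy placement -/
structure Inv (G : SimpleGraph H) (X : Bool → Finset H) (bin : H → Option Γ) (tr : V → I)
    (par : V → V) (R A E : Finset V) (π : V → Bool) (w : V → C → ℝ) (c0 : C) (n0 : ℕ) (g η : ℝ)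
    (κ : V → ℕ) (gam : I → Γ) (cap capT capp : ℕ) (s : Finset V) (φ : V → H) : Prop where
  side : ∀ v ∈ s, φ v ∈ X (π v)
  binE : ∀ v ∈ s, v ∈ E → bin (φ v) = some (gam (tr v))
  binS : ∀ v ∈ s, v ∉ E → ∃ γ, γ ≠ gam (tr v) ∧ bin (φ v) = some γ
  adj : ∀ v ∈ s, v ∉ R → par v ∈ A → G.Adj (φ v) (φ (par v))
  inj : ∀ u ∈ s, ∀ v ∈ s, tr u = tr v → φ u = φ v → u = v
  edge : ∀ u ∈ s, ∀ v ∈ s, u ∉ R → v ∉ R → par u ∈ A → par v ∈ A →
    s(φ u, φ (par u)) = s(φ v, φ (par v)) → tr u = tr v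
  slot : ∀ u ∈ s, ∀ v ∈ s, u ∈ E → v ∈ E → φ u = φ v → κ u = κ v → u = v
  pot : ∑ c, ∑ x, (max (∑ v ∈ s \ E with φ v = x, w v c - (∑ v ∈ s \ E, w v c) / n0) 0) ^ 2 ≤
    g * ∑ c, ∑ v ∈ s \ E, w v c
  load : ∀ x c, ∑ v ∈ s \ E with φ v = x, w v c ≤ (∑ v ∈ s \ E, w v c) / n0 + η + g
  down : ∀ y o, #{v ∈ s | (v ∉ E ∧ v ∉ R ∧ par v ∈ A ∧ φ (par v) = y) ∧ bin (φ v) = o} ≤ cap
  up : ∀ o x, #{v ∈ s | (v ∉ E ∧ v ∉ R ∧ par v ∈ A ∧ bin (φ (par v)) = o) ∧ φ v = x} ≤ cap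
  tot : ∀ o, ∑ v ∈ s \ E with bin (φ v) = o, w v c0 ≤ capT + g
  pe : ∀ x, #{v ∈ s | (v ∉ E ∧ ∃ u ∈ E, u ∉ R ∧ par u = v) ∧ φ v = x} ≤ capp

variable {G : SimpleGraph H} {X : Bool → Finset H} {bin : H → Option Γ} {tr : V → I}
  {par : V → V} {R A E : Finset V} {π : V → Bool} {w : V → C → ℝ} {c0 : C} {n0 : ℕ} {g η : ℝ}
  {κ : V → ℕ} {gam : I → Γ} {cap capT capp : ℕ} {s : Finset V} {φ : V → H}

theorem Inv.ext (h : Inv G X bin tr par R A E π w c0 n0 g η κ gam cap capT capp s φ)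
    (hw : ∀ v c, 0 ≤ w v c) {a : V} (has : a ∉ s)
    (hcl : ∀ v ∈ insert a s, v ∉ R → par v ∈ A → par v ∈ s) (x0 y : H)
    (hy : a ∉ R → par a ∈ A → φ (par a) = y) (h1 : x0 ∈ X (π a)) (h2 : G.Adj y x0)
    (h3 : ∀ v ∈ s, tr v = tr a → φ v ≠ x0)
    (h4 : ∀ u ∈ s, u ∉ R → par u ∈ A → s(φ u, φ (par u)) ≠ s(x0, y))
    (h5 : a ∈ E → bin x0 = some (gam (tr a)) ∧ ∀ u ∈ s, u ∈ E → κ u = κ a → φ u ≠ x0)
    (h6 : a ∉ E → (∃ γ, γ ≠ gam (tr a) ∧ bin x0 = some γ) ∧ (∀ c, w a c ≤ g) ∧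
      ∑ c, ∑ x, (max (∑ v ∈ s \ E with φ v = x, w v c - (∑ v ∈ s \ E, w v c) / n0 +
        (if x0 = x then w a c else 0) - w a c / n0) 0) ^ 2 ≤
      ∑ c, ∑ x, (max (∑ v ∈ s \ E with φ v = x, w v c - (∑ v ∈ s \ E, w v c) / n0) 0) ^ 2 +
        g * ∑ c, w a c ∧
      (∀ c, ∑ v ∈ s \ E with φ v = x0, w v c - (∑ v ∈ s \ E, w v c) / n0 ≤ η) ∧
      #{v ∈ s | (v ∉ E ∧ v ∉ R ∧ par v ∈ A ∧ φ (par v) = y) ∧ bin (φ v) = bin x0} < cap ∧
      #{v ∈ s | (v ∉ E ∧ v ∉ R ∧ par v ∈ A ∧ bin (φ (par v)) = bin y) ∧ φ v = x0} < cap ∧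
      ∑ v ∈ s \ E with bin (φ v) = bin x0, w v c0 ≤ capT ∧
      #{v ∈ s | (v ∉ E ∧ ∃ u ∈ E, u ∉ R ∧ par u = v) ∧ φ v = x0} < capp) :
    Inv G X bin tr par R A E π w c0 n0 g η κ gam cap capT capp (insert a s)
      (Function.update φ a x0) := by
  set ψ : V → H := Function.update φ a x0 with hψ
  have ea : ψ a = x0 := Function.update_self ..
  have es : ∀ u ∈ s, ψ u = φ u := fun u hu =>
    Function.update_of_ne (fun h : u = a => has (h ▸ hu)) ..
  have ep : ∀ u ∈ s, u ∉ R → par u ∈ A → ψ (par u) = φ (par u) := fun u hu a1 a2 =>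
    es _ (hcl u (mem_insert_of_mem hu) a1 a2)
  have ey : a ∉ R → par a ∈ A → ψ (par a) = y := fun a1 a2 =>
    (es _ (hcl a (mem_insert_self _ _) a1 a2)).trans (hy a1 a2)
  have fil : ∀ {β : Type} [DecidableEq β] (f : H → β) (z : β) (c : C),
      ∑ v ∈ s \ E with f (ψ v) = z, w v c = ∑ v ∈ s \ E with f (φ v) = z, w v c :=
    fun f z c => sum_congr (filter_congr fun v hv => by rw [es v (mem_sdiff.1 hv).1]) fun _ _ => rfl
  have fil' : a ∉ E → ∀ {β : Type} [DecidableEq β] (f : H → β) (z : β) (c : C),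
      ∑ v ∈ insert a s \ E with f (ψ v) = z, w v c =
        ∑ v ∈ s \ E with f (φ v) = z, w v c + if f x0 = z then w a c else 0 := by
    intro haE β _ f z c
    rw [insert_sdiff_of_notMem _ haE, sum_filter, sum_insert (by simp [has]), ← sum_filter, fil, ea,
      add_comm]
  have tot' : a ∉ E → ∀ c, ∑ v ∈ insert a s \ E, w v c = ∑ v ∈ s \ E, w v c + w a c := by
    intro haE c
    rw [insert_sdiff_of_notMem _ haE, sum_insert (by simp [has]), add_comm]
  refine ⟨?_, ?_, ?_, ?_, ?_, ?_, ?_, ?_, ?_, ?_, ?_, ?_, ?_⟩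
  · intro v hv
    rcases mem_insert.1 hv with rfl | hv
    · rwa [ea]
    · rw [es v hv]
      exact h.side v hv
  · intro v hv hE
    rcases mem_insert.1 hv with rfl | hv
    · rw [ea]
      exact (h5 hE).1
    · rw [es v hv]
      exact h.binE v hv hE
  · intro v hv hE
    rcases mem_insert.1 hv with rfl | hv
    · rw [ea]
      exact (h6 hE).1
    · rw [es v hv]
      exact h.binS v hv hE
  · intro v hv a1 a2
    rcases mem_insert.1 hv with rfl | hv
    · rw [ea, ey a1 a2]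
      exact h2.symm
    · rw [es v hv, ep v hv a1 a2]
      exact h.adj v hv a1 a2
  · intro u hu0 v hv0 ht e
    rcases mem_insert.1 hu0 with hua | hu <;> rcases mem_insert.1 hv0 with hva | hv
    · rw [hua, hva]
    · rw [hua, ea, es v hv] at e
      exact absurd e.symm (h3 v hv (by rw [← ht, hua]))
    · rw [hva, ea, es u hu] at e
      exact absurd e (h3 u hu (by rw [ht, hva]))
    · rw [es u hu, es v hv] at e
      exact h.inj u hu v hv ht e
  · intro u hu0 v hv0 a1 b1 a2 b2 e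
    rcases mem_insert.1 hu0 with hua | hu <;> rcases mem_insert.1 hv0 with hva | hv
    · rw [hua, hva]
    · subst hua
      rw [ea, ey a1 a2, es v hv, ep v hv b1 b2] at e
      exact absurd e.symm (h4 v hv b1 b2)
    · subst hva
      rw [ea, ey b1 b2, es u hu, ep u hu a1 a2] at e
      exact absurd e (h4 u hu a1 a2)
    · rw [es u hu, es v hv, ep u hu a1 a2, ep v hv b1 b2] at e
      exact h.edge u hu v hv a1 b1 a2 b2 e
  · intro u hu0 v hv0 a1 b1 e hk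
    rcases mem_insert.1 hu0 with hua | hu <;> rcases mem_insert.1 hv0 with hva | hv
    · rw [hua, hva]
    · subst hua
      rw [ea, es v hv] at e
      exact absurd e.symm ((h5 a1).2 v hv b1 hk.symm)
    · subst hva
      rw [ea, es u hu] at e
      exact absurd e ((h5 b1).2 u hu a1 hk)
    · rw [es u hu, es v hv] at e
      exact h.slot u hu v hv a1 b1 e hk
  · by_cases haE : a ∈ E
    · have := fun x c => fil (fun x => x) x c
      rw [insert_sdiff_of_mem _ haE]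
      simp only [this]
      exact h.pot
    · have e1 : ∀ x c, ∑ v ∈ insert a s \ E with ψ v = x, w v c -
          (∑ v ∈ insert a s \ E, w v c) / n0 = ∑ v ∈ s \ E with φ v = x, w v c -
            (∑ v ∈ s \ E, w v c) / n0 + (if x0 = x then w a c else 0) - w a c / n0 := by
        intro x c
        rw [fil' haE (fun x => x) x c, tot' haE, add_div]
        ring
      simp only [e1]
      refine (h6 haE).2.2.1.trans ?_
      simp only [tot' haE, sum_add_distrib, mul_add]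
      linarith [h.pot]
  · intro x c
    by_cases haE : a ∈ E
    · rw [insert_sdiff_of_mem _ haE, fil (fun x => x) x c]
      exact h.load x c
    · rw [fil' haE (fun x => x) x c, tot' haE, add_div]
      have a1 : 0 ≤ w a c / n0 := div_nonneg (hw a c) (Nat.cast_nonneg _)
      split_ifs with e
      · subst e
        linarith [(h6 haE).2.1 c, (h6 haE).2.2.2.1 c]
      · linarith [h.load x c]
  · intro y' o
    refine upd (fun v hv hP => ?_) (h.down y' o) fun hP => ?_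
    · rwa [es v hv, ep v hv hP.1.2.1 hP.1.2.2.1] at hP
    · obtain ⟨⟨a1, a2, a3, a4⟩, a5⟩ := hP
      rw [ey a2 a3] at a4
      rw [ea] at a5
      subst a4 a5
      exact (h6 a1).2.2.2.2.1
  · intro o x
    refine upd (fun v hv hP => ?_) (h.up o x) fun hP => ?_
    · rwa [es v hv, ep v hv hP.1.2.1 hP.1.2.2.1] at hP
    · obtain ⟨⟨a1, a2, a3, a4⟩, a5⟩ := hP
      rw [ey a2 a3] at a4
      rw [ea] at a5
      subst a4 a5
      exact (h6 a1).2.2.2.2.2.1
  · intro o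
    by_cases haE : a ∈ E
    · rw [insert_sdiff_of_mem _ haE, fil bin o c0]
      exact h.tot o
    · rw [fil' haE bin o c0]
      split_ifs with e
      · subst e
        linarith [(h6 haE).2.1 c0, (h6 haE).2.2.2.2.2.2.1]
      · linarith [h.tot o]
  · intro x
    refine upd (fun v hv hP => ?_) (h.pe x) fun hP => ?_
    · rwa [es v hv] at hP
    · obtain ⟨⟨a1, -⟩, a5⟩ := hP
      rw [ea] at a5
      subst a5
      exact (h6 a1).2.2.2.2.2.2.2

end

end Hub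

end Pool.Agent.Lib.MP_2b1ae8_co.GH
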