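import Pool.Agent.Lib.MP_2b1ae8_co.GH.St
import Pool.Agent.Lib.MP_2b1ae8_co.GH.Hub1

/-! Placement of the cores in a general host. -/

set_option autoImplicit false

namespace Pool.Agent.Lib.MP_2b1ae8_co.GH

open Finset AT

namespace Hub

section
variable {V I C H Γ : Type} [DecidableEq V] [DecidableEq I] [Fintype C] [Fintype H]
  [DecidableEq H] [DecidableEq Γ]
  {G : SimpleGraph H} {X : Bool → Finset H} {bin : H → Option Γ} {tr : V → I}
  {par : V → V} {R A E : Finset V} {π : V → Bool} {w : V → C → ℝ} {c0 : C} {n0 : ℕ} {g η : ℝ}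
  {κ : V → ℕ} {gam : I → Γ} {cap capT capp : ℕ} {s : Finset V} {φ : V → H}

theorem Inv.hubs (h : Inv G X bin tr par R A E π w c0 n0 g η κ gam cap capT capp s φ) {e : ℕ}
    (hκ : ∀ v ∈ E, κ v < e) (y : H) : #{v ∈ s | φ v = y ∧ v ∈ E} ≤ e := by
  refine le_trans (card_le_card_of_injOn κ (t := range e) (fun v hv => ?_) fun u hu v hv e => ?_)
    (card_range e).le
  · exact mem_coe.2 (mem_range.2 (hκ v (mem_filter.1 hv).2.2))
  · obtain ⟨a1, a2, a3⟩ := mem_filter.1 hu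
    obtain ⟨b1, b2, b3⟩ := mem_filter.1 hv
    exact h.slot u a1 v b1 a3 b3 (a2.trans b2.symm) e

/-- a place for a heavy vertex -/
theorem Inv.placeE [DecidableRel G.Adj]
    (h : Inv G X bin tr par R A E π w c0 n0 g η κ gam cap capT capp s φ) {e qE Df : ℕ}
    {TT : Finset I} (hs : s ⊆ A) (hA : ∀ v ∈ A, tr v ∈ TT) (htr : ∀ v, tr (par v) = tr v)
    (hκ : ∀ v ∈ E, κ v < e) (hκ' : ∀ u ∈ E, ∀ v ∈ E, tr u = tr v → κ u = κ v → u = v)
    (hq : ∀ γ, #{i ∈ TT | gam i = γ} ≤ qE) (hcE : ∀ i, #{v ∈ E | tr v = i} ≤ e)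
    (hone : ∀ v ∈ A, v ∉ E → ∀ u ∈ E, ∀ u' ∈ E, u ∉ R → u' ∉ R → par u = v → par u' = v → u = u')
    (hcl : ∀ v ∈ s, v ∉ R → par v ∈ A → par v ∈ s)
    (hEf : qE + 2 * e + 2 * cap + capp + e * e < Df) (a : V) (y : H) (Y : Finset H)
    (hdeg : Df ≤ #{x ∈ Y | G.Adj y x ∧ bin x = some (gam (tr a))}) :
    ∃ x0 ∈ Y, G.Adj y x0 ∧ bin x0 = some (gam (tr a)) ∧ (∀ v ∈ s, tr v = tr a → φ v ≠ x0) ∧
      (∀ u ∈ s, u ∉ R → par u ∈ A → s(φ u, φ (par u)) ≠ s(x0, y)) ∧
      ∀ u ∈ s, u ∈ E → κ u = κ a → φ u ≠ x0 := by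
  set D1 : Finset V := {u ∈ s | u ∈ E ∧ κ u = κ a ∧ gam (tr u) = gam (tr a)} with hD1
  set D2 : Finset V := {u ∈ E | tr u = tr a} with hD2
  set D3 : Finset V := {v ∈ s | (v ∉ E ∧ v ∉ R ∧ par v ∈ A ∧ φ (par v) = y) ∧
    bin (φ v) = some (gam (tr a))} with hD3
  set D4 : Finset V := {v ∈ s | (v ∉ E ∧ v ∉ R ∧ par v ∈ A ∧
    bin (φ (par v)) = some (gam (tr a))) ∧ φ v = y} with hD4
  set D5 : Finset V := {v ∈ s | φ v = y ∧ v ∈ E} with hD5
  set P6 : Finset V := {v ∈ s | (v ∉ E ∧ ∃ u ∈ E, u ∉ R ∧ par u = v) ∧ φ v = y} with hP6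
  set D6 : Finset V := {u ∈ E | u ∉ R ∧ par u ∈ P6} with hD6
  set D7 : Finset V := D5.biUnion fun p => {u ∈ E | tr u = tr p} with hD7
  have c1 : #D1 ≤ qE := by
    refine le_trans (card_le_card_of_injOn tr (fun v hv => ?_) fun u hu v hv e => ?_)
      (hq (gam (tr a)))
    · obtain ⟨a1, -, -, a4⟩ := mem_filter.1 hv
      exact mem_coe.2 (mem_filter.2 ⟨hA v (hs a1), a4⟩)
    · obtain ⟨-, a2, a3, -⟩ := mem_filter.1 hu
      obtain ⟨-, b2, b3, -⟩ := mem_filter.1 hv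
      exact hκ' u a2 v b2 e (a3.trans b3.symm)
  have c2 : #D2 ≤ e := hcE _
  have c3 : #D3 ≤ cap := h.down _ _
  have c4 : #D4 ≤ cap := h.up _ _
  have c5 : #D5 ≤ e := h.hubs hκ y
  have c6 : #D6 ≤ capp := by
    refine le_trans (card_le_card_of_injOn par (t := P6) (fun v hv => ?_) fun u hu v hv e => ?_)
      (h.pe y)
    · exact (mem_filter.1 hv).2.2
    · obtain ⟨a1, a2, a3⟩ := mem_filter.1 hu
      obtain ⟨b1, b2, -⟩ := mem_filter.1 hv
      obtain ⟨d1, ⟨d2, -⟩, -⟩ := mem_filter.1 a3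
      exact hone _ (hs d1) d2 u a1 v b1 a2 b2 rfl e.symm
  have c7 : #D7 ≤ e * e :=
    (card_biUnion_le_card_mul _ _ e fun p _ => hcE _).trans (Nat.mul_le_mul_right _ c5)
  have c8 : #((D1 ∪ D2 ∪ D3 ∪ D6 ∪ D7).image φ ∪ (D4 ∪ D5).image fun v => φ (par v)) <
      #{x ∈ Y | G.Adj y x ∧ bin x = some (gam (tr a))} := by
    have a1 := card_union_le ((D1 ∪ D2 ∪ D3 ∪ D6 ∪ D7).image φ)
      ((D4 ∪ D5).image fun v => φ (par v))
    have a2 := card_image_le (s := D1 ∪ D2 ∪ D3 ∪ D6 ∪ D7) (f := φ)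
    have a3 := card_image_le (s := D4 ∪ D5) (f := fun v => φ (par v))
    have a4 := card_union_le (D1 ∪ D2 ∪ D3 ∪ D6) D7
    have a5 := card_union_le (D1 ∪ D2 ∪ D3) D6
    have a6 := card_union_le (D1 ∪ D2) D3
    have a7 := card_union_le D1 D2
    have a8 := card_union_le D4 D5
    omega
  obtain ⟨x0, hx, hx'⟩ := exists_mem_notMem_of_card_lt_card c8
  obtain ⟨x1, x2, x3⟩ := mem_filter.1 hx
  simp only [mem_union, mem_image, not_or, not_exists, not_and] at hx'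
  obtain ⟨n1, n2⟩ := hx'
  refine ⟨x0, x1, x2, x3, fun v hv ht e => ?_, fun u hu a1 a2 e => ?_, fun u hu a1 a2 e => ?_⟩
  · by_cases hv' : v ∈ E
    · exact n1 v (Or.inl (Or.inl (Or.inl (Or.inr (mem_filter.2 ⟨hv', ht⟩))))) e
    · obtain ⟨γ, b1, b2⟩ := h.binS v hv hv'
      rw [e, x3, ← ht] at b2
      exact b1 (Option.some.inj b2).symm
  · rcases Sym2.eq_iff.1 e with ⟨e1, e2⟩ | ⟨e1, e2⟩
    · by_cases hu' : u ∈ E
      · by_cases hp : par u ∈ E
        · exact n1 u (Or.inr (mem_biUnion.2 ⟨par u, mem_filter.2 ⟨hcl u hu a1 a2, e2, hp⟩,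
            mem_filter.2 ⟨hu', (htr u).symm⟩⟩)) e1
        · exact n1 u (Or.inl (Or.inr (mem_filter.2 ⟨hu', a1,
            mem_filter.2 ⟨hcl u hu a1 a2, ⟨hp, u, hu', a1, rfl⟩, e2⟩⟩))) e1
      · exact n1 u (Or.inl (Or.inl (Or.inr
          (mem_filter.2 ⟨hu, ⟨hu', a1, a2, e2⟩, by rw [e1, x3]⟩)))) e1
    · by_cases hu' : u ∈ E
      · exact n2 u (Or.inr (mem_filter.2 ⟨hu, e1, hu'⟩)) e2
      · exact n2 u (Or.inl (mem_filter.2 ⟨hu, ⟨hu', a1, a2, by rw [e2, x3]⟩, e1⟩)) e2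
  · have b1 := h.binE u hu a1
    rw [e, x3] at b1
    exact n1 u (Or.inl (Or.inl (Or.inl (Or.inl
      (mem_filter.2 ⟨hu, a1, a2, (Option.some.inj b1).symm⟩))))) e

/-- many neighbours in the allowed bins -/
theorem cand [Fintype Γ] [DecidableRel G.Adj] (y : H) (Y : Finset H) (Df : ℕ) (γ0 : Γ)
    (B1 B2 : Finset (Option Γ)) (hdeg : ∀ γ, Df ≤ #{x ∈ Y | G.Adj y x ∧ bin x = some γ}) :
    Fintype.card Γ * Df ≤ #{x ∈ Y | G.Adj y x ∧ (∃ γ, γ ≠ γ0 ∧ bin x = some γ) ∧ bin x ∉ B1 ∧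
      bin x ∉ B2} + (1 + #B1 + #B2) * Df := by
  set Γ' : Finset Γ := {γ | γ ≠ γ0 ∧ some γ ∉ B1 ∧ some γ ∉ B2} with hΓ'
  have pre : ∀ B : Finset (Option Γ), #{γ : Γ | some γ ∈ B} ≤ #B := fun B =>
    card_le_card_of_injOn some (fun γ hγ => (mem_filter.1 hγ).2) fun _ _ _ _ e => Option.some.inj e
  have h1 : Fintype.card Γ ≤ #Γ' + (1 + #B1 + #B2) := by
    have a0 : (univ : Finset Γ) ⊆ Γ' ∪ {γ0} ∪ univ.filter (fun γ : Γ => some γ ∈ B1) ∪
        univ.filter fun γ : Γ => some γ ∈ B2 := by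
      intro γ _
      simp only [hΓ', mem_union, mem_filter, mem_univ, true_and, mem_singleton]
      tauto
    have a1 := card_le_card a0
    have a2 := card_union_le (Γ' ∪ {γ0} ∪ univ.filter (fun γ : Γ => some γ ∈ B1))
      (univ.filter fun γ : Γ => some γ ∈ B2)
    have a3 := card_union_le (Γ' ∪ {γ0}) (univ.filter fun γ : Γ => some γ ∈ B1)
    have a4 := card_union_le Γ' {γ0}
    have a5 := pre B1
    have a6 := pre B2
    rw [card_univ] at a1
    rw [card_singleton] at a4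
    omega
  have h2 : #Γ' * Df ≤ #{x ∈ Y | G.Adj y x ∧ (∃ γ, γ ≠ γ0 ∧ bin x = some γ) ∧ bin x ∉ B1 ∧
      bin x ∉ B2} := by
    refine le_trans ?_ (card_le_card (s := Γ'.biUnion fun γ =>
      {x ∈ Y | G.Adj y x ∧ bin x = some γ}) fun x hx => ?_)
    · rw [card_biUnion]
      · exact card_nsmul_le_sum _ _ _ fun γ _ => hdeg γ
      · intro γ _ γ' _ hne
        exact disjoint_left.2 fun x a1 a2 => hne (Option.some.inj
          ((mem_filter.1 a1).2.2.symm.trans (mem_filter.1 a2).2.2))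
    · obtain ⟨γ, a1, a2⟩ := mem_biUnion.1 hx
      obtain ⟨-, b1, b2, b3⟩ := mem_filter.1 a1
      obtain ⟨d1, d2, d3⟩ := mem_filter.1 a2
      exact mem_filter.2 ⟨d1, d2, ⟨γ, b1, d3⟩, d3 ▸ b2, d3 ▸ b3⟩
  have h3 := Nat.mul_le_mul_right Df h1
  rw [add_mul] at h3
  omega

end

end Hub

open Hub in
theorem hub2 : HubSt := by
  intro V I C H Γ _ _ _ _ _ _ _ _ G _ X bin Df hX hdeg tr par dep R A E TT π w c0 e M n0 ζ g η η' Bd
    hA hE htr hdep hπ hw hBd hg hη hη' hc0 hcE hcA hone hsmall htot hM hn0 hn0' qE cap capT capp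
    b1 b2 x1 x2 U0 θ hqE hcap hcapT hcapp hroom hU0 hθ hb1 hb2 hx1 hx2 hfree hEf
  have hn : (0 : ℝ) < n0 := by exact_mod_cast hn0'
  obtain ⟨κ, gam, k1, k2, k3, k4⟩ := slots (Γ := Γ) tr E TT w e M n0 qE η' Bd
    (fun v hv => hA v (hE hv)) hw hBd hη' hcE (fun i c => le_trans (sum_le_sum_of_subset_of_nonneg
      (filter_subset_filter _ hE) fun v _ _ => hw v c) (htot i c)) hM hn0 hn0' hqE hroom
  have hJ : ∀ (J : Finset I) (t : Finset V), (∀ v ∈ t, v ∈ A ∧ tr v ∈ J) → ∀ c,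
      ∑ v ∈ t, w v c ≤ #J * Bd c := by
    intro J t ht c
    rw [← sum_fiberwise_of_maps_to (fun v hv => (ht v hv).2), ← nsmul_eq_mul, ← sum_const]
    refine sum_le_sum fun i _ => le_trans (sum_le_sum_of_subset_of_nonneg (fun v hv => ?_)
      fun v _ _ => hw v c) (htot i c)
    exact mem_filter.2 ⟨(ht v (mem_filter.1 hv).1).1, (mem_filter.1 hv).2⟩
  have hAs : ∀ t ⊆ A, ∀ c, ∑ v ∈ t, w v c ≤ n0 * Bd c := fun t ht c =>
    (hJ TT t (fun v hv => ⟨ht hv, hA v (ht hv)⟩) c).trans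
      (mul_le_mul_of_nonneg_right (by exact_mod_cast hn0) (hBd c))
  have hAs' : ∀ t ⊆ A, ∀ c, (∑ v ∈ t, w v c) / n0 ≤ Bd c := fun t ht c => by
    rw [div_le_iff₀ hn, mul_comm]
    exact hAs t ht c
  have split : ∀ (s : Finset V) (P : V → Prop) [DecidablePred P], ∑ v ∈ s with P v, w v c0 =
      ∑ v ∈ s with P v ∧ v ∈ E, w v c0 + ∑ v ∈ s \ E with P v, w v c0 := by
    intro s P _
    rw [← sum_filter_add_sum_filter_not {v ∈ s | P v} (· ∈ E), filter_filter, filter_filter]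
    congr 2
    ext v
    simp only [mem_filter, mem_sdiff]
    tauto
  have eld : ∀ s φ, Inv G X bin tr par R A E π w c0 n0 g η κ gam cap capT capp s φ → ∀ y c,
      ∑ v ∈ s with φ v = y ∧ v ∈ E, w v c ≤ Bd c + e * η' := by
    intro s φ h y
    refine k4 _ (fun v hv => (mem_filter.1 hv).2.2) (fun u hu v hv => ?_) fun u hu v hv e => ?_
    · obtain ⟨a1, a2, a3⟩ := mem_filter.1 hu
      obtain ⟨d1, d2, d3⟩ := mem_filter.1 hv
      have := h.binE u a1 a3
      rw [a2, ← d2, h.binE v d1 d3] at this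
      exact (Option.some.inj this).symm
    · obtain ⟨a1, a2, a3⟩ := mem_filter.1 hu
      obtain ⟨d1, d2, d3⟩ := mem_filter.1 hv
      exact h.slot u a1 v d1 a3 d3 (a2.trans d2.symm) e
  have main : ∀ s : Finset V, s ⊆ A → (∀ v ∈ s, v ∉ R → par v ∈ A → par v ∈ s) →
      ∃ φ : V → H, Inv G X bin tr par R A E π w c0 n0 g η κ gam cap capT capp s φ := by
    intro s
    induction s using Finset.induction_on_max_value dep with
    | empty =>
      intro _ _
      obtain ⟨x, -⟩ := hX true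
      refine ⟨fun _ => x, by simp, by simp, by simp, by simp, by simp, by simp, by simp, by simp,
        fun _ _ => ?_, by simp, by simp, fun _ => ?_, by simp⟩
      · simp only [empty_sdiff, filter_empty, sum_empty, zero_div, zero_add]
        positivity
      · simp only [empty_sdiff, filter_empty, sum_empty]
        positivity
    | insert a s has hmax ih =>
      intro hsub hcl0
      have hs : s ⊆ A := (subset_insert a s).trans hsub
      have haA : a ∈ A := hsub (mem_insert_self a s)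
      have hcl1 : ∀ v ∈ insert a s, v ∉ R → par v ∈ A → par v ∈ s := by
        intro v hv a1 a2
        refine (mem_insert.1 (hcl0 v hv a1 a2)).resolve_left fun e => ?_
        have a3 := hdep v a1
        rw [e] at a3
        rcases mem_insert.1 hv with a4 | a4
        · rw [a4] at a3
          omega
        · have := hmax v a4
          omega
      have hcl : ∀ v ∈ s, v ∉ R → par v ∈ A → par v ∈ s := fun v hv =>
        hcl1 v (mem_insert_of_mem hv)
      obtain ⟨φ, h⟩ := ih hs hcl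
      obtain ⟨y, hyX, hy⟩ : ∃ y ∈ X (!π a), a ∉ R → par a ∈ A → φ (par a) = y := by
        by_cases hr : a ∉ R ∧ par a ∈ A
        · exact ⟨_, hπ a haA hr.1 hr.2 ▸ h.side _ (hcl1 a (mem_insert_self _ _) hr.1 hr.2),
            fun _ _ => rfl⟩
        · obtain ⟨y, hy⟩ := hX (!π a)
          exact ⟨y, hy, fun a1 a2 => absurd ⟨a1, a2⟩ hr⟩
      have hd := hdeg (!π a) y hyX
      rw [Bool.not_not] at hd
      by_cases haE : a ∈ E
      · obtain ⟨x0, p1, p2, p3, p4, p5, p6⟩ :=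
          h.placeE hs hA htr k1 k2 k3 hcE hone hcl hEf a y (X (π a)) (hd _)
        exact ⟨_, h.ext hw has hcl1 x0 y hy p1 p2 p4 p5 (fun _ => ⟨p3, p6⟩) fun h' => absurd haE h'⟩
      have hsE : s \ E ⊆ A := sdiff_subset.trans hs
      have hload : ∑ p ∈ s with φ p = y, w p c0 ≤ U0 := by
        rw [split]
        linarith [eld s φ h y c0, h.load y c0, hAs' _ hsE c0]
      have f1 := few' s (fun v => v ∉ E ∧ v ∉ R ∧ par v ∈ A ∧ φ (par v) = y) (fun v => bin (φ v))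
        cap hcap b1 (by
          refine (kids par R A {p ∈ s | φ p = y} _ ((filter_subset _ _).trans hs)
            (fun v => w v c0) hc0 fun v hv => ?_).trans (hload.trans (by exact_mod_cast hb1))
          obtain ⟨a1, -, a2, a3, a4⟩ := mem_filter.1 hv
          exact ⟨hs a1, a2, mem_filter.2 ⟨hcl v a1 a2 a3, a4⟩⟩)
      have f2 := few (s \ E) (fun v => bin (φ v)) (fun v => w v c0) (fun v => hw v c0) capT
        (by exact_mod_cast hcapT) b2 ((hAs _ hsE c0).trans hb2)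
      have f3 := few' s (fun v => v ∉ E ∧ v ∉ R ∧ par v ∈ A ∧ bin (φ (par v)) = bin y) φ
        cap hcap x1 (by
          refine (kids par R A {p ∈ s | bin (φ p) = bin y} _ ((filter_subset _ _).trans hs)
            (fun v => w v c0) hc0 fun v hv => ?_).trans (le_trans ?_ hx1)
          · obtain ⟨a1, -, a2, a3, a4⟩ := mem_filter.1 hv
            exact ⟨hs a1, a2, mem_filter.2 ⟨hcl v a1 a2 a3, a4⟩⟩
          · have a1 : #{i ∈ TT | some (gam i) = bin y} ≤ qE := by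
              rcases bin y with _ | γ
              · simp
              · simpa using k3 γ
            have a2 := hJ {i ∈ TT | some (gam i) = bin y} {p ∈ s | bin (φ p) = bin y ∧ p ∈ E}
              (fun v hv => by
                obtain ⟨d1, d2, d3⟩ := mem_filter.1 hv
                exact ⟨hs d1, mem_filter.2 ⟨hA v (hs d1), (h.binE v d1 d3).symm.trans d2⟩⟩) c0
            have a3 := mul_le_mul_of_nonneg_right ((Nat.cast_le (α := ℝ)).2 a1) (hBd c0)
            rw [split]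
            linarith [h.tot (bin y)])
      have f4 := few' s (fun v => v ∉ E ∧ ∃ u ∈ E, u ∉ R ∧ par u = v) φ capp hcapp x2 (by
        have a1 : #{v ∈ s | v ∉ E ∧ ∃ u ∈ E, u ∉ R ∧ par u = v} ≤ #E := by
          refine le_trans (card_le_card (t := E.image par) fun v hv => ?_) card_image_le
          obtain ⟨-, -, u, d1, -, d2⟩ := mem_filter.1 hv
          exact mem_image.2 ⟨u, d1, d2⟩
        have a2 : #E ≤ #TT * e := by
          refine le_trans (card_le_card (t := TT.biUnion fun i => {v ∈ E | tr v = i})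
            fun v hv => ?_) (card_biUnion_le_card_mul _ _ e fun i _ => hcE i)
          exact mem_biUnion.2 ⟨tr v, hA v (hE hv), mem_filter.2 ⟨hv, rfl⟩⟩
        exact_mod_cast a1.trans (a2.trans ((Nat.mul_le_mul_right e hn0).trans hx2)))
      obtain ⟨N, hN, hN'⟩ := hub_nbr par R A s hs φ (fun v => w v c0) hc0 y
      have f5 : #N ≤ U0 := by exact_mod_cast hN.trans hload
      set z : H → C → ℝ := fun x c =>
        ∑ v ∈ s \ E with φ v = x, w v c - (∑ v ∈ s \ E, w v c) / n0 with hz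
      set B : Finset H := {x | ∃ c, η < z x c} with hB
      have f6 : #B ≤ θ := by
        have a1 := (hub_bad z η hη B fun x hx => (mem_filter.1 hx).2).trans h.pot
        have a2 : g * ∑ c, ∑ v ∈ s \ E, w v c ≤ g * n0 * ∑ c, Bd c := by
          rw [mul_assoc, mul_sum univ Bd]
          exact mul_le_mul_of_nonneg_left (sum_le_sum fun c _ => hAs _ hsE c) hg
        exact_mod_cast le_of_mul_le_mul_right (a1.trans (a2.trans hθ)) (by positivity)
      have f7 : #({v ∈ A | tr v = tr a}.image φ) ≤ ζ := card_image_le.trans (hcA _)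
      generalize hB1 : ({o | cap ≤ #{v ∈ s | (v ∉ E ∧ v ∉ R ∧ par v ∈ A ∧ φ (par v) = y) ∧
        bin (φ v) = o}} : Finset (Option Γ)) = B1 at f1
      generalize hB2 : ({o | (capT : ℝ) ≤ ∑ v ∈ s \ E with bin (φ v) = o, w v c0} :
        Finset (Option Γ)) = B2 at f2
      generalize hB3 : ({x | cap ≤ #{v ∈ s | (v ∉ E ∧ v ∉ R ∧ par v ∈ A ∧
        bin (φ (par v)) = bin y) ∧ φ v = x}} : Finset H) = B3 at f3
      generalize hB4 : ({x | capp ≤ #{v ∈ s | (v ∉ E ∧ ∃ u ∈ E, u ∉ R ∧ par u = v) ∧ φ v = x}} :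
        Finset H) = B4 at f4
      have f8 := cand y (X (π a)) Df (gam (tr a)) B1 B2 hd
      generalize hK : ({x ∈ X (π a) | G.Adj y x ∧ (∃ γ, γ ≠ gam (tr a) ∧ bin x = some γ) ∧
        bin x ∉ B1 ∧ bin x ∉ B2} : Finset H) = K at f8
      generalize hU : ({v ∈ A | tr v = tr a}.image φ) = U at f7
      have hF : n0 ≤ #(K \ (U ∪ N ∪ B ∪ B3 ∪ B4)) := by
        have a1 := le_card_sdiff (U ∪ N ∪ B ∪ B3 ∪ B4) K
        have a2 := card_union_le (U ∪ N ∪ B ∪ B3) B4
        have a3 := card_union_le (U ∪ N ∪ B) B3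
        have a4 := card_union_le (U ∪ N) B
        have a5 := card_union_le U N
        have a6 : (1 + #B1 + #B2) * Df ≤ (1 + b1 + b2) * Df :=
          Nat.mul_le_mul_right _ (by omega)
        omega
      obtain ⟨x0, hx0, hpot⟩ := hub_pot z (w a) g n0 hn0' (hw a) (hsmall a haA haE) _ hF
      simp only [mem_sdiff, mem_union, not_or] at hx0
      obtain ⟨xK, ⟨⟨⟨xU, xN⟩, xB⟩, xB3⟩, xB4⟩ := hx0
      subst hK hU
      obtain ⟨p1, p2, p3, xB1, xB2⟩ := mem_filter.1 xK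
      subst hB1 hB2 hB3 hB4
      simp only [mem_filter, mem_univ, true_and, not_le] at xB1 xB2 xB3 xB4
      refine ⟨_, h.ext hw has hcl1 x0 y hy p1 p2 (fun v hv ht e => ?_)
        (fun u hu a1 a2 => hN' x0 xN u hu a1 (hcl u hu a1 a2)) (fun h' => absurd h' haE)
        fun _ => ⟨p3, hsmall a haA haE, hpot, fun c => ?_, xB1, xB3, xB2.le, xB4⟩⟩
      · exact xU (mem_image.2 ⟨v, mem_filter.2 ⟨hs hv, ht⟩, e⟩)
      · by_contra a2
        exact xB (mem_filter.2 ⟨mem_univ _, c, not_le.1 a2⟩)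
  obtain ⟨φ, h⟩ := main A subset_rfl fun _ _ _ h => h
  refine ⟨φ, fun v hv => ⟨h.side v hv, ?_⟩, h.adj, h.inj, h.edge, fun x c => ?_, fun x c => ?_⟩
  · by_cases hv' : v ∈ E
    · rw [h.binE v hv hv']
      exact Option.some_ne_none _
    · obtain ⟨γ, -, a1⟩ := h.binS v hv hv'
      rw [a1]
      exact Option.some_ne_none _
  · refine le_trans (le_of_eq ?_) (eld A φ h x c)
    congr 1
    ext v
    simp only [mem_filter]
    exact ⟨fun a => ⟨hE a.1, a.2, a.1⟩, fun a => ⟨a.2.2, a.2.1⟩⟩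
  · linarith [h.load x c, hAs' (A \ E) sdiff_subset c]

end Pool.Agent.Lib.MP_2b1ae8_co.GH
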