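import Pool.Agent.Lib.MP_2b1ae8_co.GH.St

/-! Asymptotic tree packing in general hosts: the windows are embedded last. -/

set_option autoImplicit false

namespace Pool.Agent.Lib.MP_2b1ae8_co.GH

open Finset AT

namespace Late

variable {V I H BF : Type} [Fintype V] [DecidableEq V] [Fintype I] [DecidableEq I]
  [Fintype H] [DecidableEq H] [DecidableEq BF] {T : Fo V I} {K D g l μ Df tw : ℕ}
  (W : WF T K D g l μ) {G : SimpleGraph H} [DecidableRel G.Adj] (S : Host G BF Df tw l)
  (ψ : V → H)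

/-- The edge from `v` to its parent is already placed. -/
def Act (P : Finset V) (v : V) : Prop := v ∈ P ∨ (v ∉ W.Wn ∧ v ∉ T.R ∧ T.par v ∈ P)

/-- The number of tree edges that may end at the reservoir host `y`. -/
def load (T : Fo V I) (P : Finset V) (f : V → H) (y : H) : ℕ :=
  ∑ u ∈ P with f u = y, (1 + #(T.ch u))

structure Inv (cW : ℕ) (P : Finset V) (f : V → H) : Prop where
  off : ∀ v, v ∉ W.Wn → f v = ψ v
  side : ∀ v ∈ P, f v ∈ S.X (W.τ v)
  res : ∀ v ∈ P, S.lb (f v) = none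
  nav : ∀ v ∈ P, 1 ≤ W.pos v → f v ∈ S.E (ψ (W.bot v)) (W.τ (W.bot v)) (W.pos v)
  adj : ∀ v ∈ P, G.Adj (f v) (f (T.par v))
  inj : ∀ u ∈ P, ∀ v ∈ P, T.tr u = T.tr v → f u = f v → u = v
  edge : ∀ u v, Act W P u → Act W P v → s(f u, f (T.par u)) = s(f v, f (T.par v)) →
    T.tr u = T.tr v
  ld : ∀ y, load T P f y ≤ cW + K + 1

omit [DecidableEq BF] in
theorem total {om : ℕ} (hom : ∀ i, #{v ∈ W.Wn | T.tr v = i} ≤ om) {P : Finset V}
    (hP : P ⊆ W.Wn) (f : V → H) : ∑ y, load T P f y ≤ 3 * Fintype.card I * om := by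
  have h1 : #W.Wn ≤ Fintype.card I * om := by
    rw [card_eq_sum_card_fiberwise (f := T.tr) (t := univ) fun _ _ => mem_univ _]
    exact (sum_le_sum fun i _ => hom i).trans (by simp)
  have h2 : ∀ u ∈ W.Wn, #(T.ch u) ≤ #{c ∈ W.Wn | T.par c = u} + 1 := by
    intro u hu
    refine le_trans (card_le_card (t := insert (W.bot u) {c ∈ W.Wn | T.par c = u}) ?_)
      (card_insert_le _ _)
    intro c hc
    obtain ⟨c1, rfl⟩ := T.mem_ch.1 hc
    by_cases h : c ∈ W.Wn
    · exact mem_insert_of_mem (mem_filter.2 ⟨h, rfl⟩)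
    · rw [(W.low c c1 h hu).2.2]
      exact mem_insert_self _ _
  have h3 : ∑ u ∈ W.Wn, #{c ∈ W.Wn | T.par c = u} ≤ #W.Wn := by
    rw [card_eq_sum_card_fiberwise (s := W.Wn) (f := T.par) (t := univ) fun _ _ => mem_univ _]
    exact sum_le_sum_of_subset (subset_univ _)
  have h4 : ∑ y, load T P f y = ∑ u ∈ P, (1 + #(T.ch u)) := sum_fiberwise P f _
  have h5 : ∑ u ∈ P, (1 + #(T.ch u)) ≤ ∑ u ∈ W.Wn, (1 + (#{c ∈ W.Wn | T.par c = u} + 1)) :=
    (sum_le_sum_of_subset hP).trans (sum_le_sum fun u hu => Nat.add_le_add_left (h2 u hu) 1)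
  simp only [sum_add_distrib, sum_const, smul_eq_mul, mul_one] at h5
  rw [h4, sum_add_distrib, sum_const, smul_eq_mul, mul_one, mul_assoc]
  omega

omit [DecidableEq BF] in
theorem heavy {om cW x3 : ℕ} (hom : ∀ i, #{v ∈ W.Wn | T.tr v = i} ≤ om) (hcW : 0 < cW)
    (hx3 : 3 * Fintype.card I * om ≤ x3 * cW) {P : Finset V} (hP : P ⊆ W.Wn) (f : V → H) :
    #{y | cW ≤ load T P f y} ≤ x3 := by
  refine Nat.le_of_mul_le_mul_right (le_trans ?_ ((total W hom hP f).trans hx3)) hcW
  refine le_trans ?_ (sum_le_sum_of_subset (subset_univ {y | cW ≤ load T P f y}))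
  rw [← smul_eq_mul]
  exact card_nsmul_le_sum _ _ _ fun y hy => (mem_filter.1 hy).2

variable {W S ψ}

omit [Fintype I] in
open Classical in
theorem used {cW U U' : ℕ} {P : Finset V} {f : V → H} (h : Inv W S ψ cW P f) (hP : P ⊆ W.Wn)
    (hcl : ∀ v ∈ P, T.par v ∈ W.Wn → T.par v ∈ P)
    (hX : ∀ v, v ∉ W.Wn → S.lb (ψ v) ≠ none)
    (huse : ∀ y, #{u ∈ W.F.La | ψ (W.F.par u) = y} +
      #{u | u ∉ T.R ∧ W.F.par u ∈ W.F.La ∧ ψ u = y} ≤ U)
    (hU : U ≤ U') (hU' : cW + K + 1 ≤ U') (y : H) :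
    #{z | ∃ u, Act W P u ∧ s(f u, f (T.par u)) = s(z, y)} ≤ U' := by
  have h1 : #{z | ∃ u, Act W P u ∧ s(f u, f (T.par u)) = s(z, y)} ≤
      #{u | Act W P u ∧ (f u = y ∨ f (T.par u) = y)} := by
    refine le_trans (card_le_card ?_)
      (card_image_le (f := fun u => if f u = y then f (T.par u) else f u))
    intro z hz
    obtain ⟨u, hu, e⟩ := (mem_filter.1 hz).2
    rw [Sym2.eq_iff] at e
    refine mem_image.2 ⟨u, mem_filter.2 ⟨mem_univ _, hu, by tauto⟩, ?_⟩
    rcases e with ⟨e1, e2⟩ | ⟨e1, e2⟩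
    · split_ifs with c
      · rw [e2, ← c, e1]
      · exact e1
    · rw [if_pos e1, e2]
  refine h1.trans ?_
  by_cases hy : S.lb y = none
  · refine le_trans (card_le_card (t := ({v ∈ P | f v = y}).biUnion fun v => insert v (T.ch v)) ?_)
      (card_biUnion_le.trans (le_trans (sum_le_sum fun v _ => ?_) ((h.ld y).trans hU')))
    · intro u hu
      obtain ⟨a, e⟩ := (mem_filter.1 hu).2
      have hR : u ∉ T.R := a.elim (fun a => W.not_R u (hP a)) fun a => a.2.1
      rw [mem_biUnion]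
      rcases e with e | e
      · rcases a with a | a
        · exact ⟨u, mem_filter.2 ⟨a, e⟩, mem_insert_self _ _⟩
        · exact absurd (by rw [← h.off u a.1, e, hy]) (hX u a.1)
      · refine ⟨T.par u, mem_filter.2 ⟨?_, e⟩, mem_insert_of_mem (T.mem_ch.2 ⟨hR, rfl⟩)⟩
        rcases a with a | a
        · refine hcl u a ?_
          by_contra c
          exact hX _ c (by rw [← h.off _ c, e, hy])
        · exact a.2.2
    · rw [add_comm]
      exact card_insert_le _ _
  · refine le_trans (card_le_card ?_) ((card_union_le _ _).trans ((huse y).trans hU))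
    intro u hu
    obtain ⟨a, e⟩ := (mem_filter.1 hu).2
    rw [mem_union]
    rcases e with e | e
    · rcases a with a | a
      · exact absurd (e ▸ h.res u a) hy
      · exact .inr (mem_filter.2 ⟨mem_univ _, a.2.1, (W.low u a.2.1 a.1 (hP a.2.2)).1,
          (h.off u a.1).symm.trans e⟩)
    · have c : T.par u ∉ P := fun c => hy (e ▸ h.res _ c)
      rcases a with a | a
      · have c' : T.par u ∉ W.Wn := fun c' => c (hcl u a c')
        obtain ⟨t1, t2, -⟩ := W.top u (hP a) c'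
        exact .inl (mem_filter.2 ⟨t1, by rw [t2, ← h.off _ c', e]⟩)
      · exact absurd a.2.2 c

omit [Fintype I] [Fintype H] in
theorem cand {cW : ℕ} {P : Finset V} {f : V → H} (h : Inv W S ψ cW P f)
    (hX : ∀ v, v ∉ W.Wn → ψ v ∈ S.X (W.τ v)) {w : V} (hw : w ∈ W.Wn)
    (hp : T.par w ∈ W.Wn → T.par w ∈ P) :
    ∃ C : Finset H, tw ≤ #C ∧ ∀ z ∈ C, z ∈ S.X (W.τ w) ∧ S.lb z = none ∧
      G.Adj (f (T.par w)) z ∧
      (1 ≤ W.pos w → z ∈ S.E (ψ (W.bot w)) (W.τ (W.bot w)) (W.pos w)) := by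
  have hx : f (T.par w) ∈ S.X (!W.τ w) := by
    rw [← W.τ_par w (W.not_R w hw)]
    by_cases c : T.par w ∈ W.Wn
    · exact h.side _ (hp c)
    · rw [h.off _ c]
      exact hX _ c
  by_cases h0 : 1 ≤ W.pos w
  · obtain ⟨b1, b2⟩ := W.bot_fact w hw h0
    have hb := hX _ b1
    have hE : f (T.par w) ∈ S.E (ψ (W.bot w)) (W.τ (W.bot w)) (W.pos w + 1) := by
      by_cases c : T.par w ∈ W.Wn
      · obtain ⟨m1, m2⟩ := W.mid w hw c h0
        have := h.nav _ (hp c) (by omega)
        rwa [m1, m2] at this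
      · obtain ⟨-, -, t⟩ := W.top w hw c
        rw [t] at b2 ⊢
        refine S.E_top _ _ hb ?_
        rwa [Function.iterate_succ_apply', ← b2]
    refine ⟨_, S.E_step _ _ hb _ h0 (W.pos_le w hw) _ hE, fun z hz => ?_⟩
    obtain ⟨z1, z2, z3⟩ := mem_filter.1 hz
    exact ⟨b2 ▸ S.E_sub _ _ hb _ z1, z3, z2, fun _ => z1⟩
  · refine ⟨_, S.degW _ _ hx, fun z hz => ?_⟩
    obtain ⟨z1, z2, z3⟩ := mem_filter.1 hz
    rw [Bool.not_not] at z1
    exact ⟨z1, z3, z2, fun c => absurd c h0⟩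

omit [Fintype I] [Fintype H] in
theorem extend {cW : ℕ} {P : Finset V} {f : V → H} (h : Inv W S ψ cW P f)
    (hcl : ∀ v ∈ P, T.par v ∈ W.Wn → T.par v ∈ P) {w : V} (hw : w ∈ W.Wn) (hwP : w ∉ P)
    {z : H} (z1 : z ∈ S.X (W.τ w)) (z2 : S.lb z = none) (z3 : G.Adj (f (T.par w)) z)
    (z4 : 1 ≤ W.pos w → z ∈ S.E (ψ (W.bot w)) (W.τ (W.bot w)) (W.pos w))
    (f1 : ∀ v ∈ P, T.tr v = T.tr w → f v ≠ z)
    (f2 : ∀ u, Act W P u → s(f u, f (T.par u)) ≠ s(z, f (T.par w)))
    (f3 : ∀ u, Act W P u → s(f u, f (T.par u)) ≠ s(z, ψ (W.bot w)))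
    (f4 : load T P f z < cW) : Inv W S ψ cW (insert w P) (Function.update f w z) := by
  have e0 : Function.update f w z w = z := Function.update_self ..
  have e1 : ∀ v, v ≠ w → Function.update f w z v = f v := fun v hv => Function.update_of_ne hv ..
  have n1 : ∀ v ∈ P, v ≠ w := fun v hv e => hwP (e ▸ hv)
  have n2 : ∀ v, v ∉ W.Wn → v ≠ w := fun v hv e => hv (e ▸ hw)
  have n3 : ∀ v ∈ P, T.par v ≠ w := fun v hv e => hwP (e ▸ hcl v hv (e ▸ hw))
  have n4 : T.par w ≠ w := fun e => by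
    have := T.dep_par w (W.not_R w hw)
    rw [e] at this
    omega
  have old : ∀ u, Act W P u →
      s(Function.update f w z u, Function.update f w z (T.par u)) = s(f u, f (T.par u)) := by
    rintro u (a | a)
    · rw [e1 u (n1 u a), e1 _ (n3 u a)]
    · rw [e1 u (n2 u a.1), e1 _ (n1 _ a.2.2)]
  have new : ∀ u, Act W (insert w P) u → Act W P u ∨ (T.tr u = T.tr w ∧ ∀ v, Act W P v →
      s(f v, f (T.par v)) ≠ s(Function.update f w z u, Function.update f w z (T.par u))) := by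
    rintro u (a | a)
    · rcases mem_insert.1 a with rfl | a
      · exact .inr ⟨rfl, by rwa [e0, e1 _ n4]⟩
      · exact .inl (.inl a)
    · rcases mem_insert.1 a.2.2 with b | b
      · refine .inr ⟨by rw [← b, T.tr_par], ?_⟩
        have := (W.low u a.2.1 a.1 (b ▸ hw)).2.2
        rw [b] at this
        rw [b, e0, e1 u (n2 u a.1), h.off u a.1, Sym2.eq_swap (a := ψ u), ← this]
        exact f3
      · exact .inl (.inr ⟨a.1, a.2.1, b⟩)
  refine ⟨fun v hv => (e1 v (n2 v hv)).trans (h.off v hv), ?_, ?_, ?_, ?_, ?_, ?_, ?_⟩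
  · simp only [mem_insert, forall_eq_or_imp, e0]
    exact ⟨z1, fun v hv => (e1 v (n1 v hv)).symm ▸ h.side v hv⟩
  · simp only [mem_insert, forall_eq_or_imp, e0]
    exact ⟨z2, fun v hv => (e1 v (n1 v hv)).symm ▸ h.res v hv⟩
  · simp only [mem_insert, forall_eq_or_imp, e0]
    exact ⟨z4, fun v hv => (e1 v (n1 v hv)).symm ▸ h.nav v hv⟩
  · simp only [mem_insert, forall_eq_or_imp, e0]
    refine ⟨by rw [e1 _ n4]; exact z3.symm, fun v hv => ?_⟩
    rw [e1 v (n1 v hv), e1 _ (n3 v hv)]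
    exact h.adj v hv
  · intro u hu v hv ht he
    rcases mem_insert.1 hu with a | a <;> rcases mem_insert.1 hv with b | b
    · rw [a, b]
    · rw [a, e0, e1 v (n1 v b)] at he
      exact absurd he.symm (f1 v b (a ▸ ht.symm))
    · rw [b, e0, e1 u (n1 u a)] at he
      exact absurd he (f1 u a (b ▸ ht))
    · rw [e1 u (n1 u a), e1 v (n1 v b)] at he
      exact h.inj u a v b ht he
  · intro u v hu hv he
    rcases new u hu with a | a <;> rcases new v hv with b | b
    · rw [old u a, old v b] at he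
      exact h.edge u v a b he
    · rw [old u a] at he
      exact absurd he (b.2 u a)
    · rw [old v b] at he
      exact absurd he.symm (a.2 v b)
    · rw [a.1, b.1]
  · intro y
    have e : load T P (Function.update f w z) y = load T P f y := by
      unfold load
      rw [filter_congr fun v hv => by rw [e1 v (n1 v hv)]]
    have k1 := h.ld y
    have k2 := W.ch_Wn w hw
    unfold load at e k1 f4 ⊢
    rw [filter_insert, e0]
    split_ifs with c
    · rw [sum_insert fun a => hwP (mem_filter.1 a).1, e, ← c]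
      omega
    · rw [e]
      exact k1

end Late

open Late in
theorem late2 : LateSt := by
  classical
  intro V I H BF _ _ _ _ _ _ _ T K D g l μ Df tw W G _ S _ ψ om U U' cW x3 hX hinj hadj hedge huse
    hom hU hU' hcW hx3 htw
  have nL : ∀ v, v ∉ W.Wn → v ∉ W.F.La := fun v hv h => hv (W.La_sub h)
  have hX1 : ∀ v, v ∉ W.Wn → ψ v ∈ S.X (W.τ v) := fun v hv => W.π_eq v hv ▸ (hX v (nL v hv)).1
  have hX2 : ∀ v, v ∉ W.Wn → S.lb (ψ v) ≠ none := fun v hv => (hX v (nL v hv)).2
  have main : ∀ P : Finset V, P ⊆ W.Wn → (∀ v ∈ P, T.par v ∈ W.Wn → T.par v ∈ P) →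
      ∃ f, Inv W S ψ cW P f := by
    intro P
    induction P using Finset.induction_on_max_value T.dep with
    | empty =>
      refine fun _ _ => ⟨ψ, fun _ _ => rfl, by simp, by simp, by simp, by simp, by simp, ?_, ?_⟩
      · rintro u v (a | a)
        · simp at a
        · simp at a
      · simp [load]
    | insert w P hwP hmax ih =>
      intro h1 h2
      have hw : w ∈ W.Wn := h1 (mem_insert_self _ _)
      have hP : P ⊆ W.Wn := (subset_insert _ _).trans h1
      have lt : ∀ v ∈ insert w P, T.par v ∈ W.Wn → T.par v ∈ P := by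
        intro v hv c
        refine (mem_insert.1 (h2 v hv c)).resolve_left fun e => ?_
        have d1 := T.dep_par v (W.not_R v (h1 hv))
        have d2 : T.dep v ≤ T.dep w := by
          rcases mem_insert.1 hv with rfl | hv
          exacts [le_rfl, hmax v hv]
        rw [e] at d1
        omega
      have hcl : ∀ v ∈ P, T.par v ∈ W.Wn → T.par v ∈ P := fun v hv => lt v (mem_insert_of_mem hv)
      obtain ⟨f, h⟩ := ih hP hcl
      obtain ⟨C, c1, c2⟩ := cand h hX1 hw (lt w (mem_insert_self _ _))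
      have k1 : #(({v ∈ W.Wn | T.tr v = T.tr w}).image f) ≤ om := card_image_le.trans (hom _)
      have k2 := used h hP hcl hX2 huse hU hU' (f (T.par w))
      have k3 := used h hP hcl hX2 huse hU hU' (ψ (W.bot w))
      have k4 := heavy W hom hcW hx3 hP f
      obtain ⟨z, hz, hz'⟩ := exists_mem_notMem_of_card_lt_card (lt_of_lt_of_le (lt_of_le_of_lt
        ((card_union_le _ _).trans (Nat.add_le_add ((card_union_le _ _).trans
          (Nat.add_le_add ((card_union_le _ _).trans (Nat.add_le_add k1 k2)) k3)) k4))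
        (by omega : om + U' + U' + x3 < tw)) c1)
      simp only [mem_union, mem_image, mem_filter, mem_univ, true_and, not_or, not_exists,
        not_and, not_le] at hz'
      obtain ⟨z1, z2, z3, z4⟩ := c2 z hz
      exact ⟨_, extend h hcl hw hwP z1 z2 z3 z4 (fun v hv e => hz'.1.1.1 v ⟨hP hv, e⟩)
        hz'.1.1.2 hz'.1.2 hz'.2⟩
  obtain ⟨f, h⟩ := main W.Wn Subset.rfl fun _ _ c => c
  have lb1 : ∀ v, v ∉ W.Wn → S.lb (f v) ≠ none := fun v hv => h.off v hv ▸ hX2 v hv
  have act : ∀ v, v ∉ T.R → Act W W.Wn v ∨ (v ∉ W.Wn ∧ T.par v ∉ W.Wn) := by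
    intro v hv
    unfold Act
    tauto
  have mix : ∀ u v, Act W W.Wn u → v ∉ W.Wn ∧ T.par v ∉ W.Wn →
      s(f u, f (T.par u)) ≠ s(f v, f (T.par v)) := by
    intro u v a b e
    have b1 := lb1 v b.1
    have b2 := lb1 _ b.2
    rw [Sym2.eq_iff] at e
    rcases a with a | a
    · have := h.res u a
      rcases e with e | e
      exacts [b1 (e.1 ▸ this), b2 (e.1 ▸ this)]
    · have := h.res _ a.2.2
      rcases e with e | e
      exacts [b2 (e.2 ▸ this), b1 (e.2 ▸ this)]
  refine ⟨f, fun u v ht he => ?_, fun v hv => ?_, fun u v hu hv he => ?_⟩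
  · by_cases a : u ∈ W.Wn <;> by_cases b : v ∈ W.Wn
    · exact h.inj u a v b ht he
    · exact absurd (he ▸ h.res u a) (lb1 v b)
    · exact absurd (he ▸ h.res v b) (lb1 u a)
    · rw [h.off u a, h.off v b] at he
      exact hinj u v (nL u a) (nL v b) ht he
  · rcases act v hv with (a | a) | a
    · exact h.adj v a
    · obtain ⟨-, p1, p2⟩ := W.low v hv a.1 a.2.2
      have := h.nav _ a.2.2 p1.ge
      rw [p1, p2] at this
      rw [h.off v a.1]
      exact (S.E_one _ _ (hX1 v a.1) _ this).symm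
    · have p := W.par_eq v hv a.1 a.2
      rw [h.off v a.1, h.off _ a.2, ← p]
      exact hadj v hv (nL v a.1) (p ▸ nL _ a.2)
  · rcases act u hu with a | a <;> rcases act v hv with b | b
    · exact h.edge u v a b he
    · exact absurd he (mix u v a b)
    · exact absurd he.symm (mix v u b a)
    · have p := W.par_eq u hu a.1 a.2
      have q := W.par_eq v hv b.1 b.2
      rw [h.off u a.1, h.off _ a.2, h.off v b.1, h.off _ b.2, ← p, ← q] at he
      exact hedge u v hu hv (nL u a.1) (p ▸ nL _ a.2) (nL v b.1) (q ▸ nL _ b.2) he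

end Pool.Agent.Lib.MP_2b1ae8_co.GH
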