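import Pool.Agent.Lib.MP_2b1ae8_co.GH.St

/-! Navigation sets: a minimal dense pair of sides and bootstrap growth towards a vertex. -/

set_option autoImplicit false

namespace Pool.Agent.Lib.MP_2b1ae8_co.GH

open Finset

namespace Nav

variable {H : Type} [DecidableEq H] (G : SimpleGraph H) [DecidableRel G.Adj]

theorem dg_mono (x : H) {A B : Finset H} (h : A ⊆ B) : dg G x A ≤ dg G x B :=
  card_le_card (filter_subset_filter _ h)

theorem dg_le (x : H) (A : Finset H) : dg G x A ≤ #A := card_filter_le _ _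

theorem dg_split (x : H) (A B : Finset H) : dg G x A ≤ dg G x B + dg G x (A \ B) := by
  unfold dg
  refine le_trans (card_le_card ?_) (card_union_le _ _)
  intro y hy
  simp only [mem_filter, mem_union, mem_sdiff] at hy ⊢
  by_cases h : y ∈ B
  · exact Or.inl ⟨h, hy.2⟩
  · exact Or.inr ⟨⟨hy.1, h⟩, hy.2⟩

/-- Number of adjacent pairs between two sets. -/
def ed (A B : Finset H) : ℕ := ∑ x ∈ A, dg G x B

theorem ed_comm (A B : Finset H) : ed G A B = ed G B A := by
  unfold ed dg
  simp only [card_filter]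
  rw [sum_comm]
  refine sum_congr rfl fun x _ => sum_congr rfl fun y _ => ?_
  simp only [G.adj_comm]

theorem ed_erase {A : Finset H} (B : Finset H) {x : H} (hx : x ∈ A) :
    ed G A B = dg G x B + ed G (A.erase x) B := by
  unfold ed
  rw [add_sum_erase A (fun z => dg G z B) hx]

theorem exists_core (t : ℕ) : ∀ (m : ℕ) (N B : Finset H), #N + #B = m →
    ∃ Y E : Finset H, Y ⊆ N ∧ E ⊆ B ∧ (∀ x ∈ Y, t ≤ dg G x E) ∧ (∀ x ∈ E, t ≤ dg G x Y) ∧
      ed G N B ≤ ed G Y E + t * (#N + #B) := by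
  intro m
  induction m using Nat.strong_induction_on with
  | _ m ih =>
    intro N B hm
    by_cases h1 : ∀ x ∈ N, t ≤ dg G x B
    · by_cases h2 : ∀ x ∈ B, t ≤ dg G x N
      · exact ⟨N, B, Subset.refl _, Subset.refl _, h1, h2, Nat.le_add_right _ _⟩
      · push Not at h2
        obtain ⟨x, hx, hlt⟩ := h2
        have hc := card_erase_add_one hx
        obtain ⟨Y, E, hY, hE, a1, a2, a3⟩ := ih (#N + #(B.erase x)) (by omega) N (B.erase x) rfl
        refine ⟨Y, E, hY, hE.trans (erase_subset _ _), a1, a2, ?_⟩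
        rw [ed_comm G N B, ed_erase G N hx, ed_comm G (B.erase x) N, ← hc]
        have : t * (#N + (#(B.erase x) + 1)) = t * (#N + #(B.erase x)) + t := by ring
        omega
    · push Not at h1
      obtain ⟨x, hx, hlt⟩ := h1
      have hc := card_erase_add_one hx
      obtain ⟨Y, E, hY, hE, a1, a2, a3⟩ := ih (#(N.erase x) + #B) (by omega) (N.erase x) B rfl
      refine ⟨Y, E, hY.trans (erase_subset _ _), hE, a1, a2, ?_⟩
      rw [ed_erase G B hx, ← hc]
      have : t * (#(N.erase x) + 1 + #B) = t * (#(N.erase x) + #B) + t := by ring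
      omega

/-- A dense pair of sides. -/
def Good (c d0 : ℕ) (A B : Finset H) : Prop :=
  0 < #A + #B ∧ (∀ x ∈ A, c * d0 + (#A + #B) ≤ c * dg G x B) ∧
    ∀ x ∈ B, c * d0 + (#A + #B) ≤ c * dg G x A

/-- Expansion: a nonempty part of the pair which absorbs few neighbours is everything. -/
def Expd (c : ℕ) (A B : Finset H) : Prop :=
  ∀ U W : Finset H, U ⊆ A → W ⊆ B → 0 < #U + #W →
    (∀ x ∈ A, x ∉ U → c * dg G x W ≤ #U + #W) → (∀ x ∈ B, x ∉ W → c * dg G x U ≤ #U + #W) →
    A ⊆ U ∧ B ⊆ W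

theorem Expd.symm {c : ℕ} {A B : Finset H} (h : Expd G c A B) : Expd G c B A := by
  intro U W hU hW hp h1 h2
  rw [add_comm] at hp
  exact (h W U hW hU hp (fun x hx hx' => by rw [add_comm]; exact h2 x hx hx')
    (fun x hx hx' => by rw [add_comm]; exact h1 x hx hx')).symm

theorem exists_pair (c d0 : ℕ) : ∀ (m : ℕ) (A B : Finset H), #A + #B = m → Good G c d0 A B →
    ∃ A B : Finset H, Good G c d0 A B ∧ Expd G c A B := by
  intro m
  induction m using Nat.strong_induction_on with
  | _ m ih =>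
    intro A B hm hg
    by_cases he : Expd G c A B
    · exact ⟨A, B, hg, he⟩
    · unfold Expd at he
      push Not at he
      obtain ⟨U, W, hU, hW, hp, h1, h2, h3⟩ := he
      have c1 := card_sdiff_add_card_eq_card hU
      have c2 := card_sdiff_add_card_eq_card hW
      refine ih (#(A \ U) + #(B \ W)) (by omega) (A \ U) (B \ W) rfl ⟨?_, ?_, ?_⟩
      · by_contra h0
        have e1 : A \ U = ∅ := card_eq_zero.1 (by omega)
        have e2 : B \ W = ∅ := card_eq_zero.1 (by omega)
        exact h3 (sdiff_eq_empty_iff_subset.1 e1) (sdiff_eq_empty_iff_subset.1 e2)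
      · intro x hx
        rw [mem_sdiff] at hx
        have a1 := hg.2.1 x hx.1
        have a2 := h1 x hx.1 hx.2
        have a3 := Nat.mul_le_mul_left c (dg_split G x B W)
        rw [mul_add] at a3
        omega
      · intro x hx
        rw [mem_sdiff] at hx
        have a1 := hg.2.2 x hx.1
        have a2 := h2 x hx.1 hx.2
        have a3 := Nat.mul_le_mul_left c (dg_split G x A U)
        rw [mul_add] at a3
        omega

/-- The bootstrap sequence started from `Y`. -/
def Ev (X : Bool → Finset H) (p : Bool) (t : ℕ) (Y : Finset H) : ℕ → Finset H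
  | 0 => ∅
  | 1 => Y
  | (i + 2) => {x ∈ X (not^[i + 2] p) | t ≤ dg G x (Ev X p t Y (i + 1))}

theorem it_succ (p : Bool) (i : ℕ) : not^[i + 1] p = !(not^[i] p) :=
  Function.iterate_succ_apply' _ _ _

theorem it_two (p : Bool) (i : ℕ) : not^[i + 2] p = not^[i] p := by
  rw [it_succ, it_succ, Bool.not_not]

theorem mem_Ev {X : Bool → Finset H} {p : Bool} {t : ℕ} {Y : Finset H} {i : ℕ} {x : H} :
    x ∈ Ev G X p t Y (i + 2) ↔ x ∈ X (not^[i + 2] p) ∧ t ≤ dg G x (Ev G X p t Y (i + 1)) := by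
  rw [Ev, mem_filter]

theorem Ev_sub {X : Bool → Finset H} {p : Bool} (t : ℕ) {Y : Finset H} (hY : Y ⊆ X (!p)) :
    ∀ i, Ev G X p t Y i ⊆ X (not^[i] p)
  | 0 => empty_subset _
  | 1 => hY
  | (_ + 2) => fun _ hx => ((mem_Ev G).1 hx).1

theorem Ev_mono {X : Bool → Finset H} {p : Bool} {t : ℕ} {Y E : Finset H} (hY : Y ⊆ X (!p))
    (hE : E ⊆ X p) (h1 : ∀ x ∈ Y, t ≤ dg G x E) (h2 : ∀ x ∈ E, t ≤ dg G x Y) :
    ∀ i, Ev G X p t Y (i + 1) ⊆ Ev G X p t Y (i + 3) := by
  intro i
  induction i with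
  | zero =>
    intro x hx
    have hx' : x ∈ Y := hx
    refine (mem_Ev G (i := 1)).2 ⟨?_, le_trans (h1 x hx') (dg_mono G x ?_)⟩
    · rw [it_two]; exact hY hx'
    · intro z hz
      refine (mem_Ev G (i := 0)).2 ⟨?_, h2 z hz⟩
      rw [it_two]; exact hE hz
  | succ i ih =>
    intro x hx
    have hx' := (mem_Ev G (i := i)).1 hx
    refine (mem_Ev G (i := i + 2)).2 ⟨?_, le_trans hx'.2 (dg_mono G x ih)⟩
    rw [it_two]; exact hx'.1

theorem exists_small (a : ℕ → ℕ) (hmono : ∀ i, a i ≤ a (i + 1)) (l M : ℕ) (hl : 0 < l)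
    (hM : a l ≤ M) : ∃ i < l, l * (a (i + 1) - a i) ≤ M := by
  by_contra h
  push Not at h
  have key : ∀ j ≤ l, j * (M + 1) ≤ l * a j := by
    intro j
    induction j with
    | zero => intro _; simp
    | succ j ih =>
      intro hj
      have a1 := ih (by omega)
      have a2 := h j (by omega)
      have a3 : l * a (j + 1) = l * a j + l * (a (j + 1) - a j) := by
        rw [← mul_add, Nat.add_sub_cancel' (hmono j)]
      rw [a3, add_mul, one_mul]
      omega
  have a1 := key l le_rfl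
  have a2 := Nat.le_of_mul_le_mul_left a1 hl
  omega

theorem Ev_top [Fintype H] {X : Bool → Finset H} {p : Bool} {c t l γ : ℕ} {Y : Finset H}
    (hX : ∀ q, Expd G c (X q) (X (!q))) (hY : Y ⊆ X (!p)) (hγ : γ ≤ #Y) (hγ0 : 0 < γ)
    (hl : 0 < l) (hm : ∀ i, Ev G X p t Y (i + 1) ⊆ Ev G X p t Y (i + 3))
    (h2 : c * (t * l + 2 * Fintype.card H) ≤ γ * l) :
    X (not^[l + 2] p) ⊆ Ev G X p t Y (l + 2) := by
  set E := Ev G X p t Y with hE
  have hcard : ∀ i, #(E (i + 1)) ≤ #(E (i + 3)) := fun i => card_le_card (hm i)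
  have hmono : ∀ i, #(E (i + 1)) + #(E (i + 2)) ≤ #(E (i + 1 + 1)) + #(E (i + 1 + 2)) := by
    intro i
    have := hcard i
    simp only [add_assoc, Nat.reduceAdd]
    omega
  have hlow : ∀ i, γ ≤ #(E (i + 1)) + #(E (i + 2)) := by
    intro i
    induction i with
    | zero => exact le_trans hγ (Nat.le_add_right _ _)
    | succ i ih => exact le_trans ih (hmono i)
  obtain ⟨i, hi, hs⟩ := exists_small (fun i => #(E (i + 1)) + #(E (i + 2))) hmono l
    (2 * Fintype.card H) hl (by
      have a1 := card_le_univ (E (l + 1))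
      have a2 := card_le_univ (E (l + 2))
      omega)
  have hd : #(E (i + 3) \ E (i + 1)) + #(E (i + 1)) = #(E (i + 3)) :=
    card_sdiff_add_card_eq_card (hm i)
  have hs' : l * #(E (i + 3) \ E (i + 1)) ≤ 2 * Fintype.card H := by
    refine le_trans (Nat.mul_le_mul_left l ?_) hs
    simp only [add_assoc, Nat.reduceAdd]
    omega
  have hb : c * (t + #(E (i + 3) \ E (i + 1))) ≤ γ := by
    refine Nat.le_of_mul_le_mul_right ?_ hl
    refine le_trans ?_ h2
    rw [mul_assoc]
    refine Nat.mul_le_mul_left c ?_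
    rw [add_mul, mul_comm _ l]
    rw [mul_comm l t]
    rw [mul_comm (#(E (i + 3) \ E (i + 1))) l]
    omega
  have hγ' : γ ≤ #(E (i + 2)) + #(E (i + 3)) := hlow (i + 1)
  have hs3 : not^[i + 3] p = !(not^[i + 2] p) := it_succ p (i + 2)
  have hfull := hX (not^[i + 2] p) (E (i + 2)) (E (i + 3)) (Ev_sub G t hY _)
    (by rw [← hs3]; exact Ev_sub G t hY _) (by omega)
    (by
      intro x hx hx'
      have a1 : dg G x (E (i + 1)) < t := by
        by_contra hh
        exact hx' ((mem_Ev G).2 ⟨hx, not_lt.1 hh⟩)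
      have a2 := dg_split G x (E (i + 3)) (E (i + 1))
      have a3 := dg_le G x (E (i + 3) \ E (i + 1))
      refine le_trans (Nat.mul_le_mul_left c ?_) (le_trans hb hγ')
      omega)
    (by
      intro x hx hx'
      have a1 : dg G x (E (i + 2)) < t := by
        by_contra hh
        exact hx' ((mem_Ev G (i := i + 1)).2 ⟨by rw [← hs3] at hx; exact hx, not_lt.1 hh⟩)
      refine le_trans (Nat.mul_le_mul_left c ?_) (le_trans hb hγ')
      omega)
  have hall : ∀ j, X (not^[i + j + 2] p) ⊆ E (i + j + 2) ∧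
      X (not^[i + j + 3] p) ⊆ E (i + j + 3) := by
    intro j
    induction j with
    | zero => exact ⟨hfull.1, by rw [add_zero, hs3]; exact hfull.2⟩
    | succ j ih =>
      refine ⟨ih.2, ?_⟩
      have a1 : not^[i + (j + 1) + 3] p = not^[i + j + 2] p := it_two p (i + j + 2)
      rw [a1]
      exact ih.1.trans (hm (i + j + 1))
  obtain ⟨j, rfl⟩ := Nat.exists_eq_add_of_le hi.le
  exact (hall j).1

end Nav

open Nav in
theorem nav : NavSt := by
  intro H _ _ _ G _ d0 c t l γ hc ht hδ h1 h2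
  have hn : 0 < Fintype.card H := Fintype.card_pos
  have hpos : 0 < γ * l := lt_of_lt_of_le (Nat.mul_pos hc (by omega)) h2
  have hγ0 : 0 < γ := Nat.pos_of_mul_pos_right hpos
  have hl : 0 < l := Nat.pos_of_mul_pos_left hpos
  have hd0 : 0 < d0 := by
    rcases Nat.eq_zero_or_pos d0 with h | h
    · subst h
      have : 0 < (γ + t) * (2 * Fintype.card H) := Nat.mul_pos (by omega) (by omega)
      omega
    · exact h
  have htd : t ≤ d0 := Nat.le_of_mul_le_mul_right (le_trans (Nat.le_add_left _ _) h1) hd0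
  obtain ⟨A, B, hg, he⟩ := exists_pair G c d0 _ univ univ rfl
    ⟨by rw [card_univ]; omega, fun x _ => by rw [card_univ, ← two_mul]; exact hδ x,
      fun x _ => by rw [card_univ, ← two_mul]; exact hδ x⟩
  have hAB : A.Nonempty → B.Nonempty := by
    rintro ⟨x, hx⟩
    have a1 := hg.2.1 x hx
    have a2 := hg.1
    have a3 : 0 < dg G x B := Nat.pos_of_mul_pos_left (a := c) (b := dg G x B) (by omega)
    exact card_pos.1 (lt_of_lt_of_le a3 (dg_le G x B))
  have hBA : B.Nonempty → A.Nonempty := by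
    rintro ⟨x, hx⟩
    have a1 := hg.2.2 x hx
    have a2 := hg.1
    have a3 : 0 < dg G x A := Nat.pos_of_mul_pos_left (a := c) (b := dg G x A) (by omega)
    exact card_pos.1 (lt_of_lt_of_le a3 (dg_le G x A))
  have hA : A.Nonempty := by
    rcases A.eq_empty_or_nonempty with h | h
    · refine hBA (card_pos.1 ?_)
      have a2 := hg.1
      rw [h, card_empty] at a2
      omega
    · exact h
  let X : Bool → Finset H := fun p => cond p A B
  have hne : ∀ p, (X p).Nonempty := by
    intro p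
    cases p
    · exact hAB hA
    · exact hA
  have hdeg : ∀ p, ∀ x ∈ X p, d0 ≤ dg G x (X (!p)) := by
    intro p x hx
    refine Nat.le_of_mul_le_mul_left ?_ hc
    cases p
    · exact le_trans (Nat.le_add_right _ _) (hg.2.2 x hx)
    · exact le_trans (Nat.le_add_right _ _) (hg.2.1 x hx)
  have hX : ∀ q, Expd G c (X q) (X (!q)) := by
    intro q
    cases q
    · exact he.symm
    · exact he
  have main : ∀ (y : H) (p : Bool), ∃ E : ℕ → Finset H, y ∈ X p →
      (∀ x ∈ E 1, G.Adj x y) ∧ (∀ i, E i ⊆ X (not^[i] p)) ∧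
        (∀ i, 1 ≤ i → ∀ x ∈ E (i + 1), t ≤ dg G x (E i)) ∧ X (not^[l + 2] p) ⊆ E (l + 2) := by
    intro y p
    obtain ⟨Y, E, hY, hE, a1, a2, a3⟩ :=
      exists_core G t _ {z ∈ X (!p) | G.Adj y z} (X p) rfl
    have hY' : Y ⊆ X (!p) := hY.trans (filter_subset _ _)
    refine ⟨Ev G X p t Y, fun hy => ⟨?_, Ev_sub G t hY', ?_, ?_⟩⟩
    · intro x hx
      exact (mem_filter.1 (hY hx)).2.symm
    · intro i hi x hx
      obtain ⟨j, rfl⟩ := Nat.exists_eq_add_of_le' hi
      exact ((mem_Ev G).1 hx).2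
    · refine Ev_top G hX hY' ?_ hγ0 hl (Ev_mono G hY' hE a1 a2) h2
      have b1 : d0 ≤ #{z ∈ X (!p) | G.Adj y z} := hdeg p y hy
      have b2 : #{z ∈ X (!p) | G.Adj y z} * d0 ≤ ed G {z ∈ X (!p) | G.Adj y z} (X p) := by
        unfold ed
        rw [← smul_eq_mul]
        refine card_nsmul_le_sum _ _ _ fun z hz => ?_
        have := hdeg (!p) z (mem_filter.1 hz).1
        rwa [Bool.not_not] at this
      have b3 : ed G Y E ≤ #Y * Fintype.card H := by
        unfold ed
        rw [← smul_eq_mul]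
        exact sum_le_card_nsmul _ _ _ fun z _ => le_trans (dg_le G z E) (card_le_univ E)
      have b4 := card_le_univ (X p)
      obtain ⟨r, rfl⟩ := Nat.exists_eq_add_of_le htd
      refine Nat.le_of_mul_le_mul_right ?_ hn
      have b5 := Nat.mul_le_mul_right r b1
      have b6 := Nat.mul_le_mul_left t b4
      nlinarith
  choose E hE using main
  exact ⟨X, E, hne, hdeg, fun p y hy => hE y p hy⟩

end Pool.Agent.Lib.MP_2b1ae8_co.GH
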