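import Pool.Agent.Lib.MP_2b1ae8_co.GH.St
import Pool.Agent.Lib.MP_4a6af7_co.Simple.Tail

/-! A random labelling that is fair on a given family of sets. -/

set_option autoImplicit false

namespace Pool.Agent.Lib.MP_2b1ae8_co.GH

open Finset Pool.Agent.Shared.FunProb Pool.Agent.Lib.MP_4a6af7_co.Simple

namespace Rand

variable {P F : Type} [Fintype P] [DecidableEq P] [Fintype F] [DecidableEq F] [Nonempty F]

lemma mean (S : Finset P) (B : Finset F) :
    (∑ η : P → F, (#{x ∈ S | η x ∈ B} : ℝ)) / Fintype.card (P → F) =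
      (#S * #B : ℝ) / Fintype.card F := by
  classical
  have h1 : ∀ η : P → F, (#{x ∈ S | η x ∈ B} : ℝ) =
      ∑ x ∈ S, ∑ b ∈ B, if η x = b then (1 : ℝ) else 0 := fun η => by
    rw [card_filter]; push_cast
    refine sum_congr rfl fun x _ => ?_
    rw [sum_ite_eq]
  have h2 : ∀ x b, (∑ η : P → F, if η x = b then (1 : ℝ) else 0) / Fintype.card (P → F) =
      1 / Fintype.card F := fun x b => by
    rw [← pr_coord x b]
    unfold pr cnt
    rw [card_filter]; push_cast
    congr 1
  simp only [h1]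
  rw [sum_comm, sum_div]
  have h3 : ∀ x ∈ S, (∑ η : P → F, ∑ b ∈ B, if η x = b then (1 : ℝ) else 0) /
      Fintype.card (P → F) = #B / Fintype.card F := fun x _ => by
    rw [sum_comm, sum_div, sum_congr rfl fun b _ => h2 x b, sum_const, nsmul_eq_mul, mul_one_div]
  rw [sum_congr rfl h3, sum_const, nsmul_eq_mul, mul_div_assoc]

omit [Fintype P] [Fintype F] [Nonempty F] in
lemma lip (S : Finset P) (B : Finset F) (ω : P → F) (x : P) (v : F) :
    |(#{y ∈ S | Function.update ω x v y ∈ B} : ℝ) - #{y ∈ S | ω y ∈ B}| ≤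
      if x ∈ S then (1 : ℝ) else 0 := by
  have key : ∀ ω ω' : P → F, (∀ y, y ≠ x → ω y = ω' y) →
      (#{y ∈ S | ω y ∈ B} : ℝ) ≤ #{y ∈ S | ω' y ∈ B} + if x ∈ S then (1 : ℝ) else 0 := by
    intro ω ω' h
    split_ifs with hx
    · have : #{y ∈ S | ω y ∈ B} ≤ #{y ∈ S | ω' y ∈ B} + 1 := by
        refine le_trans (card_le_card fun y hy => ?_) (card_insert_le x _)
        rw [mem_insert, mem_filter]
        obtain ⟨h1, h2⟩ := mem_filter.1 hy
        by_cases hxy : y = x
        · exact Or.inl hxy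
        · exact Or.inr ⟨h1, h y hxy ▸ h2⟩
      exact_mod_cast this
    · rw [add_zero]
      refine Nat.cast_le.2 (card_le_card fun y hy => ?_)
      obtain ⟨h1, h2⟩ := mem_filter.1 hy
      exact mem_filter.2 ⟨h1, h y (fun e => hx (e ▸ h1)) ▸ h2⟩
  have h1 := key (Function.update ω x v) ω fun y hy => Function.update_of_ne hy _ _
  have h2 := key ω (Function.update ω x v) fun y hy => (Function.update_of_ne hy _ _).symm
  rw [abs_le]
  constructor <;> linarith

end Rand

theorem exists_label : LabelSt := by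
  intro P F ι _ _ _ _ _ J S B dv s hdv hs h hJ
  obtain ⟨ω, hω⟩ := exists_forall_not (ρ := J) (P := P) (F := F)
    (fun i ω => (#{x ∈ S i | ω x ∈ B i} : ℝ) + dv i < (#(S i) * #(B i) : ℝ) / Fintype.card F)
    (Real.exp (-s)) (fun i => by
      have h1 := tail1 (fun x => if x ∈ S i then (1 : ℝ) else 0)
        (fun ω : P → F => (#{x ∈ S i | ω x ∈ B i} : ℝ)) (Rand.lip (S i) (B i)) (hdv i i.2) hs
        (by
          refine le_trans (le_of_eq ?_) (h i i.2)
          congr 1
          simp [sum_ite_mem])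
      rwa [Rand.mean] at h1) (by simpa using hJ)
  exact ⟨ω, fun i hi => not_lt.1 (hω ⟨i, hi⟩)⟩

end Pool.Agent.Lib.MP_2b1ae8_co.GH
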