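import Pool.Agent.Lib.MP_2b1ae8_co.GH.St

/-! Asymptotic tree packing in general hosts: levels and a minimiser of the boundary. -/

set_option autoImplicit false

namespace Pool.Agent.Lib.MP_2b1ae8_co.GH

open Finset

namespace SpCore

variable {V : Type} [DecidableEq V] (G : SimpleGraph V) [DecidableRel G.Adj]

lemma dg_eq (x : V) (Y : Finset V) : dg G x Y = ∑ y ∈ Y, if G.Adj x y then 1 else 0 := by
  rw [dg, card_filter]

lemma dcount (X Y : Finset V) : ∑ x ∈ X, dg G x Y = ∑ y ∈ Y, dg G y X := by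
  simp only [dg_eq]
  rw [sum_comm]
  refine sum_congr rfl fun y _ => sum_congr rfl fun x _ => ?_
  simp only [G.adj_comm]

lemma dg_mono (x : V) {Y Z : Finset V} (h : Y ⊆ Z) : dg G x Y ≤ dg G x Z :=
  card_le_card (filter_subset_filter _ h)

lemma dg_union (x : V) {Y Z : Finset V} (h : Disjoint Y Z) :
    dg G x (Y ∪ Z) = dg G x Y + dg G x Z := by
  simp only [dg_eq]
  rw [sum_union h]

variable [Fintype V]

/-- The levels. -/
def lev (k : ℕ) (B0 : Finset V) : ℕ → Finset V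
  | 0 => B0
  | i + 1 => lev k B0 i ∪ univ.filter fun x => dg G x (lev k B0 i)ᶜ < k

lemma lev_sub (k : ℕ) (B0 : Finset V) (i : ℕ) : lev G k B0 i ⊆ lev G k B0 (i + 1) :=
  subset_union_left

lemma sub_lev (k : ℕ) (B0 : Finset V) (i : ℕ) : B0 ⊆ lev G k B0 i := by
  induction i with
  | zero => exact Subset.rfl
  | succ i ih => exact ih.trans (lev_sub G k B0 i)

lemma lev_out (k : ℕ) (B0 : Finset V) (i : ℕ) (x : V) (h : x ∉ lev G k B0 (i + 1)) :
    k ≤ dg G x (lev G k B0 i)ᶜ := by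
  by_contra hx
  exact h (mem_union_right _ (by simpa using hx))

lemma dg_split (x : V) (Y : Finset V) : dg G x univ = dg G x Y + dg G x Yᶜ := by
  rw [← dg_union G x disjoint_compl_right, union_compl]

lemma vol_step (k a c : ℕ) (B0 : Finset V) (hc : k ≤ c * a)
    (h1 : ∀ x, x ∉ B0 → k + a ≤ dg G x univ) (i : ℕ) :
    ∑ x ∈ lev G k B0 (i + 1), dg G x univ ≤ (c + 2) * ∑ x ∈ lev G k B0 i, dg G x univ := by
  set B := lev G k B0 i with hB
  have hs : B ⊆ lev G k B0 (i + 1) := lev_sub G k B0 i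
  rw [← sum_sdiff hs]
  have h2 : ∑ x ∈ lev G k B0 (i + 1) \ B, dg G x univ ≤
      (c + 1) * ∑ x ∈ lev G k B0 (i + 1) \ B, dg G x B := by
    rw [mul_sum]
    refine sum_le_sum fun x hx => ?_
    obtain ⟨hx1, hx2⟩ := mem_sdiff.1 hx
    have hx3 : dg G x Bᶜ < k := by
      rcases mem_union.1 hx1 with h | h
      · exact absurd h hx2
      · simpa using h
    have hx4 := h1 x fun h => hx2 (sub_lev G k B0 i h)
    have hx5 := dg_split G x B
    have hx6 : a ≤ dg G x B := by omega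
    have hx7 : c * a ≤ c * dg G x B := Nat.mul_le_mul_left c hx6
    rw [add_mul, one_mul]
    omega
  have h3 : ∑ x ∈ lev G k B0 (i + 1) \ B, dg G x B ≤ ∑ x ∈ B, dg G x univ := by
    rw [dcount]
    exact sum_le_sum fun y _ => dg_mono G y (subset_univ _)
  have h4 := Nat.mul_le_mul_left (c + 1) h3
  have h5 : (c + 2) * ∑ x ∈ B, dg G x univ =
      (c + 1) * ∑ x ∈ B, dg G x univ + ∑ x ∈ B, dg G x univ := by ring
  omega

lemma vol_le (k a c : ℕ) (B0 : Finset V) (hc : k ≤ c * a) (ha : a ≤ k)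
    (h1 : ∀ x, x ∉ B0 → k + a ≤ dg G x univ) (h2 : ∀ x ∈ B0, dg G x univ ≤ k + a)
    (h3 : #B0 ≤ c * k) (i : ℕ) :
    ∑ x ∈ lev G k B0 i, dg G x univ ≤ 2 * (c * (c + 2) ^ i * k ^ 2) := by
  induction i with
  | zero =>
    have h4 : ∑ x ∈ B0, dg G x univ ≤ #B0 * (k + a) := by
      simpa using sum_le_card_nsmul B0 _ (k + a) h2
    calc ∑ x ∈ lev G k B0 0, dg G x univ = ∑ x ∈ B0, dg G x univ := rfl
      _ ≤ #B0 * (k + a) := h4
      _ ≤ (c * k) * (k + k) := Nat.mul_le_mul h3 (by omega)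
      _ = _ := by ring
  | succ i ih =>
    calc _ ≤ _ := vol_step G k a c B0 hc h1 i
      _ ≤ (c + 2) * (2 * (c * (c + 2) ^ i * k ^ 2)) := Nat.mul_le_mul_left _ ih
      _ = _ := by ring

lemma card_le (k a c : ℕ) (B0 : Finset V) (hc : k ≤ c * a) (ha : a ≤ k)
    (h1 : ∀ x, x ∉ B0 → k + a ≤ dg G x univ) (h2 : ∀ x ∈ B0, dg G x univ ≤ k + a)
    (h3 : #B0 ≤ c * k) (i : ℕ) :
    k * #(lev G k B0 i) ≤ 3 * (c * (c + 2) ^ i * k ^ 2) := by
  have hs := sub_lev G k B0 i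
  have h4 : #(lev G k B0 i \ B0) * k ≤ ∑ x ∈ lev G k B0 i \ B0, dg G x univ := by
    have := card_nsmul_le_sum (lev G k B0 i \ B0) (fun x => dg G x univ) k fun x hx =>
      le_trans (Nat.le_add_right k a) (h1 x (mem_sdiff.1 hx).2)
    simpa using this
  have h5 : ∑ x ∈ lev G k B0 i \ B0, dg G x univ ≤ ∑ x ∈ lev G k B0 i, dg G x univ :=
    sum_le_sum_of_subset sdiff_subset
  have h6 := vol_le G k a c B0 hc ha h1 h2 h3 i
  have h7 : #(lev G k B0 i \ B0) + #B0 = #(lev G k B0 i) := card_sdiff_add_card_eq_card hs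
  have h8 : k * #B0 ≤ c * (c + 2) ^ i * k ^ 2 := by
    have h9 : 1 ≤ (c + 2) ^ i := Nat.one_le_pow _ _ (by omega)
    calc k * #B0 ≤ k * (c * k) := Nat.mul_le_mul_left k h3
      _ = c * 1 * k ^ 2 := by ring
      _ ≤ _ := Nat.mul_le_mul_right _ (Nat.mul_le_mul_left c h9)
  rw [← h7, mul_add, mul_comm k #(lev G k B0 i \ B0)]
  omega

end SpCore

open SpCore in
theorem sp_core : SpCoreSt := by
  intro V _ _ G _ k a c j lam Ψ B0 hk hc ha h1 h2 h3 hlam hΨ hn
  set Bj := lev G k B0 j with hBj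
  let val : Finset V → ℕ := fun S => ∑ x ∈ S, dg G x Sᶜ + lam * #S
  obtain ⟨S, hS, hmin⟩ := exists_min_image (univ.filter fun S : Finset V => Bj ⊆ S) val
    ⟨Bj, by simp⟩
  have hS' : Bj ⊆ S := (mem_filter.1 hS).2
  have hmin' : ∀ S', Bj ⊆ S' → val S ≤ val S' := fun S' h => hmin S' (by simpa using h)
  have hval : val S ≤ Ψ := by
    refine (hmin' Bj Subset.rfl).trans (le_trans ?_ hΨ)
    have e1 : ∑ x ∈ Bj, dg G x Bjᶜ ≤ ∑ x ∈ Bj, dg G x univ :=
      sum_le_sum fun y _ => dg_mono G y (subset_univ _)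
    have e2 := vol_le G k a c B0 hc ha h1 h2 h3 j
    have e3 := card_le G k a c B0 hc ha h1 h2 h3 j
    have e4 : lam * #Bj ≤ k * #Bj := Nat.mul_le_mul_right _ hlam
    have e5 : 5 * c * (c + 2) ^ j * k ^ 2 = 5 * (c * (c + 2) ^ j * k ^ 2) := by ring
    rw [← hBj] at e2 e3
    change ∑ x ∈ Bj, dg G x Bjᶜ + lam * #Bj ≤ _
    omega
  refine ⟨lev G k B0, Sᶜ, Subset.rfl, lev_sub G k B0, lev_out G k B0, ?_, ?_, ?_, ?_⟩
  · rw [nonempty_iff_ne_empty]
    intro h
    have hu : S = univ := by simpa using h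
    have : lam * #S ≤ val S := Nat.le_add_left _ _
    rw [hu, card_univ] at this
    rw [hu] at hval
    omega
  · intro x hx h
    exact (mem_compl.1 hx) (hS' h)
  · rw [compl_compl, dcount]
    exact le_trans (Nat.le_add_right _ _) hval
  · intro Q hQ
    have hd : Disjoint S Q := disjoint_left.2 fun x hx hx' => (mem_compl.1 (hQ hx')) hx
    have h4 := hmin' (S ∪ Q) (hS'.trans subset_union_left)
    have e1 : (S ∪ Q)ᶜ = Sᶜ \ Q := by
      ext x
      simp
    have e2 : ∑ x ∈ S, dg G x Sᶜ = ∑ x ∈ S, dg G x (Sᶜ \ Q) + ∑ x ∈ S, dg G x Q := by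
      rw [← sum_add_distrib]
      refine sum_congr rfl fun x _ => ?_
      rw [← dg_union G x sdiff_disjoint, sdiff_union_of_subset hQ]
    change ∑ x ∈ S, dg G x Sᶜ + lam * #S ≤ ∑ x ∈ S ∪ Q, dg G x (S ∪ Q)ᶜ + lam * #(S ∪ Q) at h4
    rw [e1, sum_union hd, card_union_of_disjoint hd, mul_add, e2, dcount G S Q] at h4
    rw [compl_compl]
    omega

end Pool.Agent.Lib.MP_2b1ae8_co.GH
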