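import Pool.Agent.Lib.MP_2b1ae8_co.GH.St

/-! Embedding one tree, given the levels, the escape sets and the reservoir. -/

set_option autoImplicit false
set_option linter.unusedVariables false
set_option linter.unusedSectionVars false

namespace Pool.Agent.Lib.MP_2b1ae8_co.GH

open Finset

namespace SpEmbed

section graph

variable {V : Type} [DecidableEq V] (G : SimpleGraph V) [DecidableRel G.Adj]

/-- A vertex from which the walk can go on at cost level `c + 1`. -/
def OK (R t : ℕ) (A U : Finset V) (F : ℕ → Finset V) (x : V) (c : ℕ) : Prop :=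
  R * t + 4 * dg G x A ≤ 2 * R * dg G x (F (c + 1) \ U) ∨
    R * t + 4 * dg G x A ≤ 2 * R * dg G x (F c)

lemma ok_of {R t : ℕ} {A U : Finset V} {F : ℕ → Finset V} {x : V} {c : ℕ}
    (h : R * t + 2 * dg G x A ≤ R * dg G x (F (c + 1) \ U) ∨
      R * t + 2 * dg G x A ≤ R * dg G x (F c)) : OK G R t A U F x c := by
  unfold OK
  rw [mul_assoc, mul_assoc]
  omega

lemma step {j R t z : ℕ} {A W U : Finset V} {F : ℕ → Finset V} (hU : U ⊆ A) (F0 : F 0 = ∅)
    (FA : ∀ c, F c ⊆ A)
    (F1 : ∀ c, ∀ x ∈ F (c + 1), R * t + 2 * dg G x A ≤ R * dg G x (F (c + 1) \ U) ∨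
      R * t + 2 * dg G x A ≤ R * dg G x (F c))
    (Fz : ∀ c, #((A \ F (c + 1)) ∪ U) ≤ z)
    (hW : ∀ x ∈ A, R * dg G x (A ∩ W) ≤ 2 * dg G x A)
    (hW' : ∀ Z ⊆ A, #Z ≤ z → ∀ x ∈ A,
      t ≤ 4 * #{w ∈ A | G.Adj x w ∧ R * t + 2 * dg G w A ≤ R * dg G w (A \ Z)} →
      t ≤ 16 * R * #{w ∈ A ∩ W | G.Adj x w ∧ R * t + 4 * dg G w A ≤ 2 * R * dg G w (A \ Z)})
    (hR : 0 < R) (hjt : 2 * j < t) {x : V} (hx : x ∈ A) {c : ℕ} (ho : OK G R t A U F x c)
    (Y : Finset V) (h1 : #(Y \ U) ≤ j) (h2 : 16 * R * #(Y ∩ W) < t) :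
    ∃ y ∈ A, y ∉ Y ∧ G.Adj x y ∧ ∃ c', OK G R t A U F y c' ∧
      #(insert y Y ∩ W) + c' ≤ #(Y ∩ W) + c := by
  have hRt : 0 < R * t := Nat.mul_pos hR (by omega)
  have e0 : ∀ w, dg G w (F 0) = 0 := fun w => by simp [dg, F0]
  rcases ho with ho | ho
  · have a1 := hW x hx
    have a2 : t + 2 * dg G x (A ∩ W) ≤ 2 * dg G x (F (c + 1) \ U) := by
      refine Nat.le_of_mul_le_mul_left ?_ hR
      have b1 : R * (t + 2 * dg G x (A ∩ W)) = R * t + 2 * (R * dg G x (A ∩ W)) := by ring
      have b2 : R * (2 * dg G x (F (c + 1) \ U)) = 2 * R * dg G x (F (c + 1) \ U) := by ring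
      omega
    obtain ⟨y, y1, y2⟩ : ∃ y ∈ ({y ∈ F (c + 1) \ U | G.Adj x y} : Finset V),
        y ∉ ({y ∈ A ∩ W | G.Adj x y} : Finset V) ∪ (Y \ U) := by
      refine exists_mem_notMem_of_card_lt_card ?_
      have := card_union_le ({y ∈ A ∩ W | G.Adj x y} : Finset V) (Y \ U)
      unfold dg at a2
      omega
    simp only [mem_filter, mem_sdiff, mem_union, mem_inter, not_or, not_and, not_not] at y1 y2
    have yA := FA _ y1.1.1
    have yW : y ∉ W := fun h => y2.1 ⟨yA, h⟩ y1.2
    refine ⟨y, yA, fun h => y1.1.2 (y2.2 h), y1.2, c, ok_of G (F1 c y y1.1.1), ?_⟩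
    rw [insert_inter_of_notMem yW]
  · obtain _ | c := c
    · rw [e0] at ho; omega
    have a2 : t ≤ 2 * dg G x (F (c + 1)) := by
      refine Nat.le_of_mul_le_mul_left ?_ hR
      have b2 : R * (2 * dg G x (F (c + 1))) = 2 * R * dg G x (F (c + 1)) := by ring
      omega
    have fin : ∀ Z ⊆ A, #Z ≤ z → (A \ Z = F (c + 1) \ U ∨ A \ Z = F c) →
        t ≤ 4 * #{w ∈ A | G.Adj x w ∧ R * t + 2 * dg G w A ≤ R * dg G w (A \ Z)} →
        ∃ y ∈ A, y ∉ Y ∧ G.Adj x y ∧ ∃ c', OK G R t A U F y c' ∧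
          #(insert y Y ∩ W) + c' ≤ #(Y ∩ W) + (c + 1) := by
      intro Z z1 z2 z3 z4
      have b := hW' Z z1 z2 x hx z4
      obtain ⟨y, y1, y2⟩ := exists_mem_notMem_of_card_lt_card (s := Y ∩ W)
        (Nat.lt_of_mul_lt_mul_left (h2.trans_le b))
      simp only [mem_filter, mem_inter, not_and] at y1 y2
      refine ⟨y, y1.1.1, fun h => y2 h y1.1.2, y1.2.1, c, ?_, ?_⟩
      · rcases z3 with z3 | z3
        · exact Or.inl (z3 ▸ y1.2.2)
        · exact Or.inr (z3 ▸ y1.2.2)
      · rw [insert_inter_of_mem y1.1.2]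
        have := card_insert_le y (Y ∩ W)
        omega
    have sp : dg G x (F (c + 1)) ≤
        #{w ∈ A | G.Adj x w ∧ R * t + 2 * dg G w A ≤ R * dg G w (F (c + 1) \ U)} +
        #{w ∈ A | G.Adj x w ∧ R * t + 2 * dg G w A ≤ R * dg G w (F c)} := by
      refine le_trans (card_le_card fun w hw => ?_) (card_union_le _ _)
      simp only [mem_filter, mem_union] at hw ⊢
      rcases F1 c w hw.1 with h | h
      · exact Or.inl ⟨FA _ hw.1, hw.2, h⟩
      · exact Or.inr ⟨FA _ hw.1, hw.2, h⟩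
    have e1 : A \ ((A \ F (c + 1)) ∪ U) = F (c + 1) \ U := by
      ext w
      have := @FA (c + 1) w
      simp only [mem_sdiff, mem_union]
      tauto
    have e2 : A \ (A \ F c) = F c := Finset.sdiff_sdiff_eq_self (FA c)
    by_cases hc : t ≤ 4 *
        #{w ∈ A | G.Adj x w ∧ R * t + 2 * dg G w A ≤ R * dg G w (F (c + 1) \ U)}
    · exact fin _ (union_subset sdiff_subset hU) (Fz c) (Or.inl e1) (by rw [e1]; exact hc)
    · have hc' : t ≤ 4 * #{w ∈ A | G.Adj x w ∧ R * t + 2 * dg G w A ≤ R * dg G w (F c)} := by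
        omega
      obtain _ | c := c
      · rw [filter_false_of_mem (fun w _ h => by have := h.2; rw [e0] at this; omega)] at hc'
        simp only [card_empty] at hc'
        omega
      · exact fin _ sdiff_subset ((card_le_card subset_union_left).trans (Fz c)) (Or.inr e2)
          (by rw [e2]; exact hc')

end graph

section tree

variable {α : Type} [Fintype α] [DecidableEq α] {ρ : α} {par : α → α}

lemma exists_height (d : α → ℕ) (hd : ∀ w, w ≠ ρ → d (par w) < d w) :
    ∃ h : α → ℕ, (∀ w, w ≠ ρ → h w + 1 ≤ h (par w)) ∧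
      ∀ u, 1 ≤ h u → ∃ c, c ≠ ρ ∧ par c = u ∧ h c + 1 = h u := by
  classical
  let P : α → ℕ → Prop := fun u n => ∃ v, par^[n] v = u ∧ ∀ i < n, par^[i] v ≠ ρ
  have b0 : ∀ n v, (∀ i < n, par^[i] v ≠ ρ) → d (par^[n] v) + n ≤ d v := by
    intro n v
    induction n with
    | zero => simp
    | succ n ih =>
      intro h
      have := ih fun i hi => h i (by omega)
      have := hd _ (h n (by omega))
      rw [Function.iterate_succ_apply']
      omega
  have b1 : ∀ u n, P u n → n ≤ Nat.findGreatest (P u) (univ.sup d) := by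
    intro u n hp
    refine Nat.le_findGreatest ?_ hp
    obtain ⟨v, -, h⟩ := hp
    have := b0 n v h
    have := le_sup (f := d) (mem_univ v)
    omega
  have b2 : ∀ u, P u (Nat.findGreatest (P u) (univ.sup d)) := fun u =>
    Nat.findGreatest_spec (Nat.zero_le _) ⟨u, rfl, fun i hi => absurd hi (by omega)⟩
  have b3 : ∀ w, w ≠ ρ → Nat.findGreatest (P w) (univ.sup d) + 1 ≤
      Nat.findGreatest (P (par w)) (univ.sup d) := by
    intro w hw
    obtain ⟨v, v1, v2⟩ := b2 w
    refine b1 _ _ ⟨v, by rw [Function.iterate_succ_apply', v1], fun i hi => ?_⟩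
    rcases Nat.lt_succ_iff_lt_or_eq.1 hi with h | h
    · exact v2 i h
    · rw [h, v1]; exact hw
  refine ⟨fun u => Nat.findGreatest (P u) (univ.sup d), b3, fun u hu => ?_⟩
  obtain ⟨v, v1, v2⟩ := b2 u
  obtain ⟨n, hn⟩ : ∃ n, Nat.findGreatest (P u) (univ.sup d) = n + 1 := ⟨_, (Nat.sub_add_cancel hu).symm⟩
  rw [hn] at v1 v2
  rw [Function.iterate_succ_apply'] at v1
  have c1 := v2 n (by omega)
  refine ⟨par^[n] v, c1, v1, ?_⟩
  have := b3 _ c1
  have := b1 (par^[n] v) n ⟨v, rfl, fun i hi => v2 i (by omega)⟩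
  rw [v1] at *
  beta_reduce at *
  omega

lemma desc {h : α → ℕ} (h2 : ∀ u, 1 ≤ h u → ∃ c, c ≠ ρ ∧ par c = u ∧ h c + 1 = h u) (u : α)
    (n : ℕ) (hn : n ≤ h u) :
    ∃ v, par^[n] v = u ∧ h v + n = h u ∧ ∀ i < n, par^[i] v ≠ ρ := by
  induction n with
  | zero => exact ⟨u, rfl, rfl, fun i hi => absurd hi (by omega)⟩
  | succ n ih =>
    obtain ⟨v, v1, v2, v3⟩ := ih (by omega)
    obtain ⟨c, c1, c2, c3⟩ := h2 v (by omega)
    refine ⟨c, by rw [Function.iterate_succ_apply, c2, v1], by omega, fun i hi => ?_⟩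
    obtain _ | i := i
    · exact c1
    · rw [Function.iterate_succ_apply, c2]; exact v3 i (by omega)

lemma asc {h : α → ℕ} (h1 : ∀ w, w ≠ ρ → h w + 1 ≤ h (par w)) (v : α) (a n : ℕ)
    (hn : ∀ i < a + n, par^[i] v ≠ ρ) : h (par^[a] v) + n ≤ h (par^[a + n] v) := by
  induction n with
  | zero => simp
  | succ n ih =>
    have := ih fun i hi => hn i (by omega)
    have := h1 _ (hn (a + n) (by omega))
    rw [← add_assoc a, Function.iterate_succ_apply']
    omega

lemma marked {h : α → ℕ} (h2 : ∀ u, 1 ≤ h u → ∃ c, c ≠ ρ ∧ par c = u ∧ h c + 1 = h u) (j : ℕ) :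
    #{v | j ≤ h v ∧ j ∣ h v} * j ≤ Fintype.card α := by
  have k : ∀ p : α × ℕ, ∃ v, p.2 + 1 ≤ h p.1 → par^[p.2 + 1] v = p.1 ∧ h v + (p.2 + 1) = h p.1 := by
    intro p
    by_cases hp : p.2 + 1 ≤ h p.1
    · obtain ⟨v, v1, v2, -⟩ := desc h2 p.1 _ hp
      exact ⟨v, fun _ => ⟨v1, v2⟩⟩
    · exact ⟨p.1, fun h => absurd h hp⟩
  choose φ hφ using k
  rw [← card_range j, ← card_product, card_range, ← card_univ]
  refine card_le_card_of_injOn φ (fun _ _ => mem_univ _) fun p hp q hq e => ?_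
  simp only [coe_product, Set.mem_prod, mem_coe, mem_filter, mem_univ, true_and, mem_range] at hp hq
  obtain ⟨p1, p2⟩ := hφ p (by omega)
  obtain ⟨q1, q2⟩ := hφ q (by omega)
  obtain ⟨a, ha⟩ := hp.1.2
  obtain ⟨b, hb⟩ := hq.1.2
  rw [e] at p1 p2
  have hab : a = b := by
    rcases lt_trichotomy a b with h | h | h
    · have := Nat.mul_le_mul_left j (Nat.succ_le_of_lt h)
      rw [Nat.mul_succ] at this
      omega
    · exact h
    · have := Nat.mul_le_mul_left j (Nat.succ_le_of_lt h)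
      rw [Nat.mul_succ] at this
      omega
  subst hab
  have e2 : p.2 = q.2 := by omega
  exact Prod.ext (by rw [← p1, ← q1, e2]) e2

variable {V : Type} [DecidableEq V] (G : SimpleGraph V)

/-- `f` embeds the upward closed set `S`. -/
def Em (ρ : α) (par : α → α) (S : Finset α) (f : α → V) : Prop :=
  ρ ∈ S ∧ (∀ w ∈ S, w ≠ ρ → par w ∈ S ∧ G.Adj (f w) (f (par w))) ∧ Set.InjOn f S

lemma Em.ext {S : Finset α} {f : α → V} (h : Em G ρ par S f) {v : α} (hv : v ∉ S)
    (hp : par v ∈ S) {y : V} (hy : y ∉ S.image f) (ha : G.Adj (f (par v)) y) :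
    Em G ρ par (insert v S) (Function.update f v y) ∧
      (insert v S).image (Function.update f v y) = insert y (S.image f) := by
  have e : ∀ w ∈ S, Function.update f v y w = f w := fun w hw =>
    Function.update_of_ne (fun h : w = v => hv (h ▸ hw)) _ _
  refine ⟨⟨mem_insert_of_mem h.1, fun w hw hr => ?_, ?_⟩, ?_⟩
  · rcases mem_insert.1 hw with rfl | hw
    · exact ⟨mem_insert_of_mem hp, by rw [e _ hp, Function.update_self]; exact ha.symm⟩
    · obtain ⟨a, b⟩ := h.2.1 w hw hr
      exact ⟨mem_insert_of_mem a, by rw [e _ hw, e _ a]; exact b⟩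
  · intro a ha b hb hab
    rcases mem_insert.1 (mem_coe.1 ha) with rfl | ha' <;>
      rcases mem_insert.1 (mem_coe.1 hb) with rfl | hb'
    · rfl
    · rw [e _ hb', Function.update_self] at hab
      exact absurd (mem_image.2 ⟨b, hb', hab.symm⟩) hy
    · rw [e _ ha', Function.update_self] at hab
      exact absurd (mem_image.2 ⟨a, ha', hab⟩) hy
    · rw [e _ ha', e _ hb'] at hab
      exact h.2.2 ha' hb' hab
  · rw [image_insert, Function.update_self, image_congr fun w hw => e w hw]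

lemma Em.up {S : Finset α} {f : α → V} (h : Em G ρ par S f) {v : α} (hv : v ∈ S) (n : ℕ)
    (hn : ∀ i < n, par^[i] v ≠ ρ) : par^[n] v ∈ S := by
  induction n with
  | zero => exact hv
  | succ n ih =>
    rw [Function.iterate_succ_apply']
    exact (h.2.1 _ (ih fun i hi => hn i (by omega)) (hn n (by omega))).1

lemma finish [Fintype V] [DecidableRel G.Adj] {k j : ℕ} {B : ℕ → Finset V}
    (hB : ∀ i, B i ⊆ B (i + 1)) (hB' : ∀ i x, x ∉ B (i + 1) → k ≤ dg G x (B i)ᶜ)
    (hα : Fintype.card α ≤ k) {h : α → ℕ} (h1 : ∀ w, w ≠ ρ → h w + 1 ≤ h (par w)) (n : ℕ) :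
    ∀ (S : Finset α) (f : α → V), #Sᶜ = n → Em G ρ par S f → (∀ w, j ≤ h w → w ∈ S) →
      (∀ w ∈ S, f w ∉ B (min (h w) j)) →
      ∃ f : α → V, Function.Injective f ∧ ∀ w, w ≠ ρ → G.Adj (f w) (f (par w)) := by
  have mono : Monotone B := monotone_nat_of_le_succ hB
  induction n with
  | zero =>
    intro S f hn he _ _
    have : ∀ w, w ∈ S := fun w => by_contra fun hw => by
      have := card_pos.2 ⟨w, mem_compl.2 hw⟩
      omega
    exact ⟨f, fun a b e => he.2.2 (this a) (this b) e, fun w hw => (he.2.1 w (this w) hw).2⟩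
  | succ n ih =>
    intro S f hn he hj hf
    obtain ⟨v, v1, v2⟩ := exists_max_image Sᶜ h (card_pos.1 (by omega))
    have v3 := mem_compl.1 v1
    have v4 : v ≠ ρ := fun e => v3 (e ▸ he.1)
    have v5 := h1 v v4
    have v6 : par v ∈ S := by_contra fun hp => by
      have := v2 _ (mem_compl.2 hp)
      omega
    have v7 : h v < j := by_contra fun hv => v3 (hj v (by omega))
    have a1 := hB' (h v) (f (par v)) fun hm => hf _ v6 (mono (by omega) hm)
    have a2 : #(S.image f) < dg G (f (par v)) (B (h v))ᶜ := by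
      have := card_image_le (s := S) (f := f)
      have := card_add_card_compl S
      omega
    obtain ⟨y, y1, y2⟩ := exists_mem_notMem_of_card_lt_card a2
    simp only [mem_filter, mem_compl] at y1
    refine ih (insert v S) (Function.update f v y) ?_ (he.ext G v3 v6 y2 y1.2).1
      (fun w hw => mem_insert_of_mem (hj w hw)) fun w hw => ?_
    · rw [compl_insert, card_erase_of_mem v1, hn]; rfl
    · rcases mem_insert.1 hw with rfl | hw
      · rw [Function.update_self, min_eq_left v7.le]; exact y1.1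
      · rw [Function.update_of_ne (fun e : w = v => v3 (e ▸ hw))]; exact hf w hw

end tree

end SpEmbed

open SpEmbed in
theorem sp_embed : SpEmbedSt := by
  intro V _ _ G _ k j l R t z B A W hB hB' hA hAB hF hW hW' hR hj hjt hcost α _ _ hα ρ par d hd
  obtain ⟨h, h1, h2⟩ := exists_height d hd
  obtain ⟨x0, hx0⟩ := hA
  obtain ⟨l', rfl⟩ : ∃ l', l = l' + 1 := by
    obtain _ | l := l
    · obtain ⟨F, F0, -, F2, -⟩ := hF ∅ (empty_subset _) (by simp)
      exact absurd (F0 ▸ F2 hx0) (notMem_empty _)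
    · exact ⟨l, rfl⟩
  set M : Finset α := {v | j ≤ h v ∧ j ∣ h v} with hM
  have hc : 16 * R * ((l' + 1) * (#M + 1)) < t := by
    have a1 : #M * j ≤ k := (marked h2 j).trans hα
    refine Nat.lt_of_mul_lt_mul_right (a := j) (lt_of_le_of_lt ?_ hcost)
    rw [mul_assoc (16 * R), mul_assoc (16 * R), mul_assoc (l' + 1), add_mul #M, one_mul]
    gcongr
  have low : ∀ u, j ≤ h u → ∃ v ∈ M, ∃ n, par^[n] v = u ∧ h v = j * (h u / j) ∧
      ∀ i < n, par^[i] v ≠ ρ := by
    intro u hu
    obtain ⟨v, v1, v2, v3⟩ := desc h2 u (h u % j) (Nat.mod_le _ _)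
    have e := Nat.div_add_mod (h u) j
    have e' : h v = j * (h u / j) := by omega
    refine ⟨v, ?_, _, v1, e', v3⟩
    simp only [hM, mem_filter, mem_univ, true_and]
    exact ⟨e' ▸ Nat.le_mul_of_pos_right _ (Nat.div_pos hu hj), e' ▸ dvd_mul_right _ _⟩
  have main : ∀ s : Finset α, s ⊆ M → (∀ v ∈ M, ∀ w ∈ s, h w < h v → v ∈ s) →
      ∃ (S : Finset α) (f : α → V), Em G ρ par S f ∧ s ⊆ S ∧ S.image f ⊆ A ∧
        #(S.image f ∩ W) ≤ (l' + 1) * (#s + 1) := by
    intro s
    induction s using Finset.induction_on_min_value h with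
    | empty =>
      intro _ _
      refine ⟨{ρ}, fun _ => x0, ⟨mem_singleton_self _, fun w hw hr => absurd (mem_singleton.1 hw) hr,
        by simp⟩, empty_subset _, by simpa using hx0, ?_⟩
      refine (card_le_card inter_subset_left).trans ?_
      simp
    | insert a s ha hmin ih =>
      intro s1 s2
      have aM := s1 (mem_insert_self a s)
      obtain ⟨S, f, he, e1, e2, e3⟩ := ih (fun v hv => s1 (mem_insert_of_mem hv))
        fun v hv w hw hlt => (mem_insert.1 (s2 v hv w (mem_insert_of_mem hw) hlt)).resolve_left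
          fun e => by have := hmin w hw; rw [e] at hlt; omega
      have hs : #s + 1 ≤ #M := by rw [← card_insert_of_notMem ha]; exact card_le_card s1
      have ex : ∃ m, m ≤ j ∧ par^[m] a ∈ S := by
        by_contra hne
        have n1 : ∀ i ≤ j, par^[i] a ∉ S := fun i hi hm => hne ⟨i, hi, hm⟩
        have n2 := asc h1 a 0 j fun i hi e => n1 i (by omega) (e ▸ he.1)
        simp only [Function.iterate_zero, id, zero_add] at n2
        obtain ⟨v, v1, n, v2, v3, v4⟩ := low (par^[j] a) (by omega)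
        obtain ⟨q, hq⟩ := (mem_filter.1 aM).2.2
        have n3 : q + 1 ≤ h (par^[j] a) / j := by
          rw [Nat.le_div_iff_mul_le hj, mul_comm, Nat.mul_succ]; omega
        have n4 := Nat.mul_le_mul_left j n3
        rw [Nat.mul_succ] at n4
        have n5 := (mem_insert.1 (s2 v v1 a (mem_insert_self _ _) (by omega))).resolve_left
          fun e => by rw [e] at v3; omega
        exact n1 j le_rfl (v2 ▸ he.up G (e1 n5) n v4)
      obtain ⟨m, m1, m2, m3⟩ : ∃ m, m ≤ j ∧ par^[m] a ∈ S ∧ ∀ i < m, par^[i] a ∉ S := by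
        classical
        exact ⟨Nat.find ex, (Nat.find_spec ex).1, (Nat.find_spec ex).2, fun i hi hm =>
          Nat.find_min ex hi ⟨hi.le.trans (Nat.find_spec ex).1, hm⟩⟩
      obtain ⟨F, F0, FA, Fl, F1, Fz⟩ := hF _ e2
        (card_image_le.trans ((card_le_univ _).trans hα))
      have walk : ∀ r ≤ m, ∃ (S' : Finset α) (f' : α → V) (c : ℕ), Em G ρ par S' f' ∧ S ⊆ S' ∧
          S'.image f' ⊆ A ∧ #(S'.image f' \ S.image f) ≤ r ∧ par^[m - r] a ∈ S' ∧
          (∀ i < m - r, par^[i] a ∉ S') ∧ OK G R t A (S.image f) F (f' (par^[m - r] a)) c ∧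
          #(S'.image f' ∩ W) + c ≤ #(S.image f ∩ W) + l' := by
        intro r
        induction r with
        | zero =>
          intro _
          exact ⟨S, f, l', he, subset_rfl, e2, by simp, m2, m3,
            ok_of G (F1 l' _ (Fl (e2 (mem_image_of_mem f m2)))), le_rfl⟩
        | succ r ihr =>
          intro hr
          obtain ⟨S', f', c, w1, w2, w3, w4, w5, w6, w7, w8⟩ := ihr (by omega)
          have b1 : #(S'.image f' ∩ W) ≤ (l' + 1) * (#M + 1) := by
            have := Nat.mul_le_mul_left (l' + 1) hs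
            rw [mul_add (l' + 1) #M]
            omega
          obtain ⟨y, y1, y2, y3, c', y4, y5⟩ := step G e2 F0 FA F1 Fz hW hW' hR hjt
            (w3 (mem_image_of_mem f' w5)) w7 (S'.image f') (by omega)
            (lt_of_le_of_lt (Nat.mul_le_mul_left _ b1) hc)
          have b2 : par (par^[m - (r + 1)] a) = par^[m - r] a := by
            rw [show m - r = m - (r + 1) + 1 by omega, Function.iterate_succ_apply']
          obtain ⟨u1, u2⟩ := w1.ext G (w6 (m - (r + 1)) (by omega)) (b2 ▸ w5) y2 (b2 ▸ y3)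
          refine ⟨_, _, c', u1, w2.trans (subset_insert _ _), ?_, ?_, mem_insert_self _ _,
            fun i hi hm => ?_, by rw [Function.update_self]; exact y4, by rw [u2]; omega⟩
          · rw [u2]; exact insert_subset y1 w3
          · rw [u2]
            refine le_trans (card_le_card (t := insert y (S'.image f' \ S.image f)) fun w hw => ?_)
              ((card_insert_le _ _).trans (by omega))
            simp only [mem_sdiff, mem_insert] at hw ⊢
            tauto
          · rcases mem_insert.1 hm with e | hm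
            · have := asc h1 a i (m - (r + 1) - i) fun i' hi' e => m3 i' (by omega) (e ▸ he.1)
              rw [show i + (m - (r + 1) - i) = m - (r + 1) by omega, e] at this
              omega
            · exact w6 i (by omega) hm
      obtain ⟨S', f', c, w1, w2, w3, -, w5, -, -, w8⟩ := walk m le_rfl
      refine ⟨S', f', w1, insert_subset (by simpa using w5) (e1.trans w2), w3, ?_⟩
      rw [card_insert_of_notMem ha, mul_add (l' + 1) (#s + 1)]
      omega
  obtain ⟨S, f, he, e1, e2, -⟩ := main M subset_rfl fun v hv _ _ _ => hv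
  refine finish G (j := j) hB hB' hα h1 _ S f rfl he (fun u hu => ?_) fun w hw hm => ?_
  · obtain ⟨v, v1, n, v2, -, v4⟩ := low u hu
    exact v2 ▸ he.up G (e1 v1) n v4
  · exact hAB _ (e2 (mem_image_of_mem f hw)) (monotone_nat_of_le_succ hB (min_le_right _ _) hm)

end Pool.Agent.Lib.MP_2b1ae8_co.GH
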