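import Pool.Agent.Lib.MP_2b1ae8_co.GH.St

/-! No pockets: the escape sets exhaust the core after a bounded number of rounds. -/

set_option autoImplicit false

namespace Pool.Agent.Lib.MP_2b1ae8_co.GH

open Finset

namespace SpPocket

section basic

variable {V : Type} [DecidableEq V] (G : SimpleGraph V) [DecidableRel G.Adj]

theorem dg_mono (x : V) {Y Y' : Finset V} (h : Y ⊆ Y') : dg G x Y ≤ dg G x Y' :=
  card_le_card (filter_subset_filter _ h)

theorem dg_le_card (x : V) (Y : Finset V) : dg G x Y ≤ #Y := card_filter_le _ _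

theorem dg_union_le (x : V) (Y Y' : Finset V) : dg G x (Y ∪ Y') ≤ dg G x Y + dg G x Y' := by
  unfold dg
  rw [filter_union]
  exact card_union_le _ _

theorem dg_le3 (x : V) {S Y1 Y2 Y3 : Finset V} (h : S ⊆ Y1 ∪ Y2 ∪ Y3) :
    dg G x S ≤ dg G x Y1 + dg G x Y2 + dg G x Y3 := by
  have h1 := dg_mono G x h
  have h2 := dg_union_le G x (Y1 ∪ Y2) Y3
  have h3 := dg_union_le G x Y1 Y2
  omega

theorem dg_univ_le [Fintype V] (x : V) (A : Finset V) :
    dg G x univ ≤ dg G x A + dg G x Aᶜ := by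
  have h := dg_union_le G x A Aᶜ
  rwa [union_compl] at h

theorem dg_insert (x y : V) {S : Finset V} (hx : x ∉ S) :
    dg G y (insert x S) = dg G y S + if G.Adj x y then 1 else 0 := by
  unfold dg
  rw [filter_insert]
  by_cases h : G.Adj y x
  · rw [if_pos h, if_pos h.symm, card_insert_of_notMem]
    intro hm
    exact hx (mem_filter.1 hm).1
  · rw [if_neg h, if_neg (fun h' => h h'.symm)]
    rfl

theorem sum_dg_insert (x : V) {S : Finset V} (hx : x ∉ S) :
    ∑ y ∈ insert x S, dg G y (insert x S) = ∑ y ∈ S, dg G y S + 2 * dg G x (insert x S) := by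
  rw [sum_insert hx, sum_congr rfl (fun y _ => dg_insert G x y hx), sum_add_distrib,
    dg_insert G x x hx, if_neg G.irrefl]
  have h : (∑ y ∈ S, if G.Adj x y then 1 else 0) = dg G x S := by
    unfold dg
    rw [card_filter]
  omega

/-- Degeneracy bound. -/
theorem degen (R : ℕ) (θ : V → ℕ) (Y : Finset V)
    (h : ∀ Q ⊆ Y, Q.Nonempty → ∃ x ∈ Q, R * dg G x Q ≤ θ x) :
    R * ∑ y ∈ Y, dg G y Y ≤ 2 * ∑ y ∈ Y, θ y := by
  induction Y using Finset.strongInduction with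
  | H Y ih =>
    rcases Y.eq_empty_or_nonempty with rfl | hne
    · simp
    · obtain ⟨x, hx, hθ⟩ := h Y subset_rfl hne
      have h1 := ih (Y.erase x) (erase_ssubset hx)
        (fun Q hQ hn => h Q (hQ.trans (erase_subset _ _)) hn)
      have h2 := sum_dg_insert G x (notMem_erase x Y)
      rw [insert_erase hx] at h2
      have h3 := add_sum_erase Y θ hx
      rw [h2, ← h3, mul_add, mul_add, mul_left_comm]
      omega

end basic

section arith

theorem ar1 {R D k n t : ℕ} (hR : 16 ≤ R) (ht : 1000 * t ≤ k)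
    (h : R * D ≤ R * (k * n) + 3 * (R * t * n + 2 * D)) : D ≤ 2 * (k * n) := by
  have e1 : 16 * D ≤ R * D := Nat.mul_le_mul_right D hR
  have e2 : R * (5 * D) ≤ R * (8 * (k * n + 3 * (t * n))) := by nlinarith
  have e3 := Nat.le_of_mul_le_mul_left e2 (by omega)
  have e4 : 1000 * t * n ≤ k * n := Nat.mul_le_mul_right n ht
  nlinarith

theorem ar2 {R D k n t s m : ℕ} (hR : 16 ≤ R) (hts : t ≤ s) (hs : 1000 * s ≤ k) (hm : m ≤ k)
    (h : R * D ≤ m * (R * s + R * n + R * k) + 2 * (R * t * m + 2 * D)) :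
    2 * D ≤ 3 * (k * k) + 3 * (k * n) := by
  have e1 : 16 * D ≤ R * D := Nat.mul_le_mul_right D hR
  have e2 : R * (3 * D) ≤ R * (4 * (m * s + m * n + m * k + 2 * (t * m))) := by nlinarith
  have e3 := Nat.le_of_mul_le_mul_left e2 (by omega)
  have e4 : m * s ≤ k * s := Nat.mul_le_mul_right s hm
  have e5 : m * n ≤ k * n := Nat.mul_le_mul_right n hm
  have e6 : m * k ≤ k * k := Nat.mul_le_mul_right k hm
  have e7 : t * m ≤ s * k := Nat.mul_le_mul hts hm
  have e8 : k * (1000 * s) ≤ k * k := Nat.mul_le_mul_left k hs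
  nlinarith

theorem ar3 {R d k q t s : ℕ} (hR : 16 ≤ R) (hts : t ≤ s) (hs : 1000 * s ≤ k)
    (hq : 40 * q ≤ 41 * k) (h : R * d ≤ 2 * (R * t + 2 * d) + R * s + R * q) : d ≤ 2 * k := by
  have e1 : 16 * d ≤ R * d := Nat.mul_le_mul_right d hR
  have e2 : R * (3 * d) ≤ R * (4 * (2 * t + s + q)) := by nlinarith
  have e3 := Nat.le_of_mul_le_mul_left e2 (by omega)
  omega

end arith

section main

variable {V : Type} [Fintype V] [DecidableEq V] (G : SimpleGraph V) [DecidableRel G.Adj]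

/-- The vertices outside `P` and `U` send most of their edges out of `A`. -/
theorem ybound (A U P : Finset V) (k a R t s : ℕ) (hdeg : ∀ x ∈ A, k + a ≤ dg G x univ)
    (hts : t ≤ s) (hR : k ≤ R * s) (hR' : 16 ≤ R) (hs : 1000 * s ≤ k) (hUk : #U ≤ k)
    (h1 : ∀ x ∈ A \ P, R * dg G x (P \ U) ≤ R * t + 2 * dg G x A)
    (h2 : ∀ Q ⊆ (A \ P) \ U, Q.Nonempty → ∃ x ∈ Q, R * dg G x Q ≤ R * t + 2 * dg G x A) :
    ∑ y ∈ (A \ P) \ U, (R * t + 2 * dg G y A) ≤ 5 * (R * s) * #((A \ P) \ U) ∧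
      a * #((A \ P) \ U) ≤ ∑ y ∈ (A \ P) \ U, dg G y Aᶜ + 15 * s * #((A \ P) \ U) := by
  set Y := (A \ P) \ U with hY
  have hYQ : Y ⊆ A \ P := sdiff_subset
  have d1 := degen G R (fun x => R * t + 2 * dg G x A) Y h2
  have d2 : R * ∑ y ∈ Y, dg G y (P \ U) ≤ ∑ y ∈ Y, (R * t + 2 * dg G y A) := by
    rw [mul_sum]
    exact sum_le_sum (fun y hy => h1 y (hYQ hy))
  have d3 : ∀ y, dg G y A ≤ k + dg G y Y + dg G y (P \ U) := by
    intro y
    have hsub : A ⊆ U ∪ Y ∪ (P \ U) := by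
      intro z hz
      simp only [hY, mem_union, mem_sdiff]
      tauto
    have e1 := dg_le3 G y hsub
    have e2 := dg_le_card G y U
    omega
  have d4 : ∑ y ∈ Y, dg G y A ≤ k * #Y + ∑ y ∈ Y, dg G y Y + ∑ y ∈ Y, dg G y (P \ U) := by
    have e := sum_le_sum (fun y (_ : y ∈ Y) => d3 y)
    rw [sum_add_distrib, sum_add_distrib, sum_const, smul_eq_mul, mul_comm] at e
    exact e
  have d5 : ∑ y ∈ Y, (R * t + 2 * dg G y A) = R * t * #Y + 2 * ∑ y ∈ Y, dg G y A := by
    rw [sum_add_distrib, sum_const, smul_eq_mul, mul_comm, mul_sum]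
  have d6 : (k + a) * #Y ≤ k * #Y + ∑ y ∈ Y, dg G y Y + ∑ y ∈ Y, dg G y (P \ U) +
      ∑ y ∈ Y, dg G y Aᶜ := by
    have e : ∑ _y ∈ Y, (k + a) ≤ ∑ y ∈ Y, (dg G y A + dg G y Aᶜ) :=
      sum_le_sum (fun y hy => (hdeg y (mem_sdiff.1 (hYQ hy)).1).trans (dg_univ_le G y A))
    rw [sum_add_distrib (f := fun y => dg G y A), sum_const, smul_eq_mul, mul_comm] at e
    omega
  beta_reduce at d1
  generalize ∑ y ∈ Y, (R * t + 2 * dg G y A) = Θ at *
  generalize ∑ y ∈ Y, dg G y A = D at *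
  generalize ∑ y ∈ Y, dg G y Y = e1 at *
  generalize ∑ y ∈ Y, dg G y (P \ U) = e2 at *
  generalize ∑ y ∈ Y, dg G y Aᶜ = e3 at *
  generalize #Y = n at *
  have f1 : R * D ≤ R * (k * n + e1 + e2) := Nat.mul_le_mul_left R d4
  have f2 : D ≤ 2 * (k * n) := ar1 (t := t) hR' (by omega) (by nlinarith)
  have f3 : R * t * n ≤ R * s * n := Nat.mul_le_mul_right n (Nat.mul_le_mul_left R hts)
  have f4 : k * n ≤ R * s * n := Nat.mul_le_mul_right n hR
  have f5 : Θ ≤ 5 * (R * s) * n := by nlinarith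
  refine ⟨f5, ?_⟩
  have f6 : R * (e1 + e2) ≤ R * (15 * s * n) := by nlinarith
  have f7 := Nat.le_of_mul_le_mul_left f6 (by omega)
  nlinarith

/-- If few points of `U` were added in the last round, nothing is left. -/
theorem qempty (A U P : Finset V) (k a lam R t s : ℕ) (hdeg : ∀ x ∈ A, k + a ≤ dg G x univ)
    (hmin : ∀ Q ⊆ A, ∑ x ∈ Q, dg G x Aᶜ ≤ ∑ x ∈ Q, dg G x (A \ Q) + lam * #Q)
    (hts : t ≤ s) (hlam : lam ≤ s) (hR : k ≤ R * s) (hR' : 16 ≤ R) (hsa : 1000 * s ≤ a)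
    (hs : 1000 * k * s ≤ a * a) (ha : a ≤ k) (ha0 : 0 < a) (hUk : #U ≤ k)
    (h3 : ∀ x ∈ A \ P, R * dg G x P ≤ 2 * (R * t + 2 * dg G x A) + R * s)
    (y1 : ∑ y ∈ (A \ P) \ U, (R * t + 2 * dg G y A) ≤ 5 * (R * s) * #((A \ P) \ U))
    (y2 : a * #((A \ P) \ U) ≤ ∑ y ∈ (A \ P) \ U, dg G y Aᶜ + 15 * s * #((A \ P) \ U)) :
    A ⊆ P := by
  set Q := A \ P with hQ
  set Y := Q \ U with hY
  set Z := Q ∩ U with hZ
  have hsk : 1000 * s ≤ k := hsa.trans ha
  have hZk : #Z ≤ k := (card_le_card inter_subset_right).trans hUk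
  have hcard : #Y + #Z = #Q := card_sdiff_add_card_inter Q U
  have hmQ : ∑ x ∈ Q, dg G x Aᶜ ≤ ∑ x ∈ Q, dg G x P + s * #Q := by
    have e1 := hmin Q sdiff_subset
    have e2 : ∑ x ∈ Q, dg G x (A \ Q) ≤ ∑ x ∈ Q, dg G x P := by
      refine sum_le_sum (fun x _ => dg_mono G x ?_)
      intro z hz
      simp only [hQ, mem_sdiff] at hz
      tauto
    have e3 : lam * #Q ≤ s * #Q := Nat.mul_le_mul_right _ hlam
    omega
  have z1 : ∀ x ∈ Z, R * dg G x A ≤
      (R * s + R * #Y + R * k) + 2 * (R * t + 2 * dg G x A) := by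
    intro x hx
    have hsub : A ⊆ P ∪ Y ∪ U := by
      intro z hz
      simp only [hY, hQ, mem_union, mem_sdiff]
      tauto
    have e1 := dg_le3 G x hsub
    have e2 := dg_le_card G x U
    have e3 := dg_le_card G x Y
    have e4 := h3 x (mem_inter.1 hx).1
    have e5 : R * dg G x A ≤ R * (dg G x P + #Y + k) := Nat.mul_le_mul_left R (by omega)
    nlinarith
  have z2 : ∑ x ∈ Z, (R * t + 2 * dg G x A) = R * t * #Z + 2 * ∑ x ∈ Z, dg G x A := by
    rw [sum_add_distrib, sum_const, smul_eq_mul, mul_comm, mul_sum]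
  have z3 : R * ∑ x ∈ Z, dg G x A ≤
      #Z * (R * s + R * #Y + R * k) + 2 * (R * t * #Z + 2 * ∑ x ∈ Z, dg G x A) := by
    have e := sum_le_sum z1
    rw [← mul_sum, sum_add_distrib, sum_const, smul_eq_mul, ← mul_sum, z2] at e
    exact e
  have z4 := ar2 hR' hts hsk hZk z3
  have q1 : ∑ x ∈ Y, (R * t + 2 * dg G x A) + ∑ x ∈ Z, (R * t + 2 * dg G x A) =
      ∑ x ∈ Q, (R * t + 2 * dg G x A) := by
    rw [← sum_union (disjoint_sdiff_inter Q U), sdiff_union_inter]
  have q2 : R * ∑ x ∈ Q, dg G x P ≤ 2 * ∑ x ∈ Q, (R * t + 2 * dg G x A) + #Q * (R * s) := by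
    have e := sum_le_sum h3
    rw [← mul_sum, sum_add_distrib, sum_const, smul_eq_mul, ← mul_sum] at e
    exact e
  have q3 : ∑ y ∈ Y, dg G y Aᶜ ≤ ∑ y ∈ Q, dg G y Aᶜ := sum_le_sum_of_subset sdiff_subset
  have q4 : ∑ x ∈ Q, dg G x P ≤ 17 * s * #Y + 9 * s * k := by
    have e1 : R * t * #Z ≤ R * s * k := Nat.mul_le_mul (Nat.mul_le_mul_left R hts) hZk
    have e2 : k * k ≤ R * s * k := Nat.mul_le_mul_right k hR
    have e3 : k * #Y ≤ R * s * #Y := Nat.mul_le_mul_right _ hR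
    have e4 : #Q * (R * s) ≤ (#Y + k) * (R * s) := Nat.mul_le_mul_right _ (by omega)
    have e5 : R * ∑ x ∈ Q, dg G x P ≤ R * (17 * s * #Y + 9 * s * k) := by nlinarith
    exact Nat.le_of_mul_le_mul_left e5 (by omega)
  have q5 : 40 * #Y ≤ a := by
    have e1 : s * #Q ≤ s * (#Y + k) := Nat.mul_le_mul_left _ (by omega)
    have e2 : 1000 * s * #Y ≤ a * #Y := Nat.mul_le_mul_right _ hsa
    have e3 : a * (40 * #Y) ≤ a * a := by nlinarith
    exact Nat.le_of_mul_le_mul_left e3 ha0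
  have q6 : ∀ x ∈ Q, dg G x P ≤ 11 * s := by
    intro x hx
    have hsub : A ⊆ P ∪ Q := by
      intro z hz
      simp only [hQ, mem_union, mem_sdiff]
      tauto
    have e1 := (dg_mono G x hsub).trans (dg_union_le G x P Q)
    have e2 := dg_le_card G x Q
    have e3 := h3 x hx
    have e4 : R * dg G x A ≤ R * (dg G x P + #Q) := Nat.mul_le_mul_left R (by omega)
    have e5 : dg G x A ≤ 2 * k := ar3 (q := #Q) hR' hts hsk (by omega) (by nlinarith)
    have e6 : R * t ≤ R * s := Nat.mul_le_mul_left R hts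
    have e7 : R * dg G x P ≤ R * (11 * s) := by nlinarith
    exact Nat.le_of_mul_le_mul_left e7 (by omega)
  have q7 : ∑ x ∈ Q, dg G x P ≤ #Q * (11 * s) := by
    have e := sum_le_sum q6
    rwa [sum_const, smul_eq_mul] at e
  have q8 : #Q * (k + a) ≤ ∑ x ∈ Q, dg G x P + #Q * #Q + ∑ x ∈ Q, dg G x Aᶜ := by
    have e : ∑ _x ∈ Q, (k + a) ≤ ∑ x ∈ Q, (dg G x P + #Q + dg G x Aᶜ) := by
      refine sum_le_sum (fun x hx => ?_)
      have hsub : A ⊆ P ∪ Q := by
        intro z hz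
        simp only [hQ, mem_union, mem_sdiff]
        tauto
      have e1 := (dg_mono G x hsub).trans (dg_union_le G x P Q)
      have e2 := dg_le_card G x Q
      have e3 := hdeg x (mem_sdiff.1 hx).1
      have e4 := dg_univ_le G x A
      omega
    rw [sum_const, smul_eq_mul, sum_add_distrib, sum_add_distrib, sum_const, smul_eq_mul] at e
    exact e
  rcases Nat.eq_zero_or_pos #Q with h0 | h0
  · exact sdiff_eq_empty_iff_subset.1 (card_eq_zero.1 h0)
  · have e1 : #Q * (k + a) ≤ #Q * (23 * s + #Q) := by nlinarith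
    have e2 := Nat.le_of_mul_le_mul_left e1 h0
    omega

/-- One round: the largest admissible set. -/
theorem exists_step (A U : Finset V) (big : V → Finset V → Prop)
    (hbig : ∀ x Y Y', Y ⊆ Y' → big x Y → big x Y') (P0 : Finset V) :
    ∃ P : Finset V, P ⊆ A ∧ (∀ x ∈ P, big x (P \ U) ∨ big x P0) ∧
      ∀ P' ⊆ A, (∀ x ∈ P', big x (P' \ U) ∨ big x P0) → P' ⊆ P := by
  classical
  refine ⟨(A.powerset.filter (fun P' => ∀ x ∈ P', big x (P' \ U) ∨ big x P0)).biUnion id,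
    ?_, ?_, ?_⟩
  · intro x hx
    obtain ⟨P', hP', hx'⟩ := mem_biUnion.1 hx
    exact mem_powerset.1 (mem_filter.1 hP').1 hx'
  · intro x hx
    obtain ⟨P', hP', hx'⟩ := mem_biUnion.1 hx
    rcases (mem_filter.1 hP').2 x hx' with h | h
    · refine Or.inl (hbig x _ _ (sdiff_subset_sdiff ?_ subset_rfl) h)
      exact subset_biUnion_of_mem id hP'
    · exact Or.inr h
  · intro P' hP' h
    exact subset_biUnion_of_mem id (mem_filter.2 ⟨mem_powerset.2 hP', h⟩)

theorem exists_chain (A U : Finset V) (big : V → Finset V → Prop)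
    (hbig : ∀ x Y Y', Y ⊆ Y' → big x Y → big x Y') :
    ∃ F : ℕ → Finset V, F 0 = ∅ ∧ (∀ c, F c ⊆ A) ∧ (∀ c, F c ⊆ F (c + 1)) ∧
      (∀ c, ∀ x ∈ F (c + 1), big x (F (c + 1) \ U) ∨ big x (F c)) ∧
      ∀ c, ∀ Q ⊆ A \ F (c + 1), Q.Nonempty →
        ∃ x ∈ Q, ¬ big x ((F (c + 1) ∪ Q) \ U) ∧ ¬ big x (F c) := by
  choose st h1 h2 h3 using exists_step A U big hbig
  obtain ⟨F, F0, Fs⟩ : ∃ F : ℕ → Finset V, F 0 = ∅ ∧ ∀ c, F (c + 1) = st (F c) :=
    ⟨fun c => Nat.rec ∅ (fun _ P => st P) c, rfl, fun _ => rfl⟩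
  refine ⟨F, F0, ?_, ?_, ?_, ?_⟩
  · intro c
    cases c with
    | zero =>
      rw [F0]
      exact empty_subset _
    | succ c =>
      rw [Fs]
      exact h1 _
  · intro c
    induction c with
    | zero =>
      rw [F0]
      exact empty_subset _
    | succ c ih =>
      rw [Fs (c + 1)]
      refine h3 _ _ (Fs c ▸ h1 _) (fun x hx => ?_)
      rw [Fs c] at hx
      rcases h2 _ x hx with h | h
      · exact Or.inl (Fs c ▸ h)
      · exact Or.inr (hbig x _ _ ih h)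
  · intro c
    rw [Fs c]
    exact h2 _
  · intro c Q hQ hne
    rw [Fs c] at hQ ⊢
    by_contra hcon
    obtain ⟨y, hy⟩ := hne
    refine (mem_sdiff.1 (hQ hy)).2 (h3 (F c) (st (F c) ∪ Q)
      (union_subset (h1 _) (hQ.trans sdiff_subset)) (fun x hx => ?_) (mem_union_right _ hy))
    rcases mem_union.1 hx with hx | hx
    · rcases h2 _ x hx with h | h
      · exact Or.inl (hbig x _ _ (sdiff_subset_sdiff subset_union_left subset_rfl) h)
      · exact Or.inr h
    · by_contra hn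
      exact hcon ⟨x, hx, fun h => hn (Or.inl h), fun h => hn (Or.inr h)⟩

theorem exists_round (u : ℕ → ℕ) (l s : ℕ) (hl : 0 < l) (h : u l ≤ l * s) :
    ∃ c < l, u (c + 1) ≤ u c + s := by
  by_contra hcon
  have key : ∀ c ≤ l, c * (s + 1) ≤ u c := by
    intro c
    induction c with
    | zero => intro _; omega
    | succ c ih =>
      intro hc
      have e1 := ih (by omega)
      have e2 : ¬ u (c + 1) ≤ u c + s := fun h' => hcon ⟨c, by omega, h'⟩
      rw [add_mul]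
      omega
  have e := key l le_rfl
  rw [mul_add] at e
  omega

end main

end SpPocket

open SpPocket in
theorem sp_pocket : SpPocketSt := by
  intro V _ _ G _ A k a lam Ψ R t l s z hdeg hΨ hmin ht hts hlam hR hR' hl hs ha hk hz U _hU hUk
  have hsa : 1000 * s ≤ a := by
    have e1 : a * a ≤ k * a := Nat.mul_le_mul_right a ha
    have e2 : k * (1000 * s) ≤ k * a := by nlinarith
    exact Nat.le_of_mul_le_mul_left e2 hk
  have ha0 : 0 < a := by omega
  have hl0 : 0 < l := by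
    rcases Nat.eq_zero_or_pos l with h | h
    · rw [h] at hl
      omega
    · exact h
  obtain ⟨F, F0, FA, Fm, Fb, Fx⟩ := exists_chain A U
    (fun x Y => R * t + 2 * dg G x A ≤ R * dg G x Y)
    (fun x Y Y' h h' => h'.trans (Nat.mul_le_mul_left R (dg_mono G x h)))
  have hx : ∀ c, ∀ x ∈ A \ F (c + 1), R * dg G x (F (c + 1) \ U) ≤ R * t + 2 * dg G x A ∧
      R * dg G x (F c) ≤ R * t + 2 * dg G x A := by
    intro c x hx
    obtain ⟨y, hy, e1, e2⟩ := Fx c {x} (singleton_subset_iff.2 hx) (singleton_nonempty x)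
    rw [mem_singleton.1 hy] at e1 e2
    have e3 : R * dg G x (F (c + 1) \ U) ≤ R * dg G x ((F (c + 1) ∪ {x}) \ U) :=
      Nat.mul_le_mul_left R (dg_mono G x (sdiff_subset_sdiff subset_union_left subset_rfl))
    omega
  have hy := fun c => ybound G A U (F (c + 1)) k a R t s hdeg hts hR hR' (hsa.trans ha) hUk
    (fun x h => (hx c x h).1) (by
      intro Q hQ hne
      obtain ⟨x, hxQ, e1, -⟩ := Fx c Q (hQ.trans sdiff_subset) hne
      refine ⟨x, hxQ, ?_⟩
      have e3 : R * dg G x Q ≤ R * dg G x ((F (c + 1) ∪ Q) \ U) := by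
        refine Nat.mul_le_mul_left R (dg_mono G x ?_)
        intro w hw
        exact mem_sdiff.2 ⟨mem_union_right _ hw, (mem_sdiff.1 (hQ hw)).2⟩
      omega)
  refine ⟨F, F0, FA, ?_, Fb, ?_⟩
  · obtain ⟨c, hc, hu⟩ := exists_round (fun c => #(F c ∩ U)) l s hl0
      (((card_le_card inter_subset_right).trans hUk).trans hl)
    have hmono : F (c + 1) ⊆ F l := monotone_nat_of_le_succ (f := F) Fm hc
    refine (qempty G A U (F (c + 1)) k a lam R t s hdeg hmin hts hlam hR hR' hsa hs ha ha0 hUk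
      ?_ (hy c).1 (hy c).2).trans hmono
    intro x hxQ
    obtain ⟨e1, e2⟩ := hx c x hxQ
    have hsub : F (c + 1) ⊆ (F (c + 1) \ U) ∪ F c ∪ ((F (c + 1) ∩ U) \ (F c ∩ U)) := by
      intro w hw
      simp only [mem_union, mem_sdiff, mem_inter]
      tauto
    have e3 := dg_le3 G x hsub
    have e4 := dg_le_card G x ((F (c + 1) ∩ U) \ (F c ∩ U))
    have e5 := card_sdiff_add_card_eq_card (inter_subset_inter_right (u := U) (Fm c))
    have e6 : R * dg G x (F (c + 1)) ≤ R * (dg G x (F (c + 1) \ U) + dg G x (F c) + s) :=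
      Nat.mul_le_mul_left R (by omega)
    nlinarith
  · intro c
    have e1 := (hy c).2
    have e2 : ∑ y ∈ (A \ F (c + 1)) \ U, dg G y Aᶜ ≤ ∑ y ∈ A, dg G y Aᶜ :=
      sum_le_sum_of_subset (sdiff_subset.trans sdiff_subset)
    have e3 : #((A \ F (c + 1)) ∪ U) ≤ #((A \ F (c + 1)) \ U) + #U := by
      rw [← sdiff_union_self_eq_union]
      exact card_union_le _ _
    generalize #((A \ F (c + 1)) \ U) = n at *
    have e4 : 1000 * s * n ≤ a * n := Nat.mul_le_mul_right n hsa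
    have e5 : (n + k) * a ≤ z * a := by nlinarith
    have e6 := Nat.le_of_mul_le_mul_right e5 ha0
    omega

end Pool.Agent.Lib.MP_2b1ae8_co.GH
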