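import Pool.Agent.Lib.MP_2b1ae8_co.GH.St
import Pool.Agent.Lib.MP_2b1ae8_co.Large

/-! One more tree fits in a large host: assembly and choice of the parameters. -/

set_option autoImplicit false

namespace Pool.Agent.Lib.MP_2b1ae8_co.GH

open Finset

namespace Sparse

variable {V : Type} [Fintype V] [DecidableEq V]

theorem dg_split (G : SimpleGraph V) [DecidableRel G.Adj] (x : V) (A : Finset V) :
    dg G x univ = dg G x A + dg G x Aᶜ := by
  unfold dg
  rw [← card_union_of_disjoint (disjoint_filter_filter disjoint_compl_right), ← filter_union,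
    union_compl]

omit [Fintype V] in
theorem dg_mono (G : SimpleGraph V) [DecidableRel G.Adj] (x : V) {A B : Finset V} (h : A ⊆ B) :
    dg G x A ≤ dg G x B := card_le_card (filter_subset_filter _ h)

theorem dg_del (G : SimpleGraph V) [DecidableRel G.Adj] (U : Finset (Sym2 V))
    [DecidableRel (G.deleteEdges (↑U : Set (Sym2 V))).Adj] (x : V) :
    dg G x univ ≤ dg (G.deleteEdges (↑U : Set (Sym2 V))) x univ +
      (univ.filter fun y => s(x, y) ∈ U).card := by
  unfold dg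
  refine le_trans (card_le_card fun y hy => ?_) (card_union_le _ _)
  rw [mem_union, mem_filter, mem_filter, SimpleGraph.deleteEdges_adj]
  by_cases h : s(x, y) ∈ U
  · exact Or.inr ⟨mem_univ _, h⟩
  · exact Or.inl ⟨mem_univ _, (mem_filter.1 hy).2, fun h' => h (mem_coe.1 h')⟩

/-- few vertices lose many edges -/
theorem few (G : SimpleGraph V) [DecidableRel G.Adj] (U : Finset (Sym2 V))
    [DecidableRel (G.deleteEdges (↑U : Set (Sym2 V))).Adj] {k a c : ℕ} (ha : 0 < a)
    (hc : k ≤ c * a) (hG : ∀ x, k + 2 * a ≤ dg G x univ) (hU : 2 * #U ≤ k * k) :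
    #{x | dg (G.deleteEdges (↑U : Set (Sym2 V))) x univ < k + a} ≤ c * k := by
  have h1 := card_nsmul_le_sum
    ({x | dg (G.deleteEdges (↑U : Set (Sym2 V))) x univ < k + a} : Finset V)
    (fun x => (univ.filter fun y => s(x, y) ∈ U).card) a fun x hx => by
      have := (mem_filter.1 hx).2
      have := dg_del G U x
      have := hG x
      omega
  have h2 := (sum_le_sum_of_subset (filter_subset _ _)).trans' h1
  have h3 := (h2.trans (sum_loss_le U)).trans hU
  rw [smul_eq_mul] at h3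
  refine Nat.le_of_mul_le_mul_right (h3.trans ?_) ha
  calc k * k ≤ k * (c * a) := Nat.mul_le_mul_left k hc
    _ = c * k * a := by ring

/-- the sizes of the parameters -/
theorem sizes {u k : ℕ} (hu : 0 < u) (hk : 1000 * (4 * u) ^ 2 ≤ k) :
    ∃ a s : ℕ, 0 < a ∧ 0 < s ∧ 2 * u * a ≤ k ∧ k ≤ 4 * u * a ∧ a ≤ k ∧ s ≤ a ∧
      1000 * k * s ≤ a * a ∧ k ≤ 2000 * (4 * u) ^ 2 * s := by
  have hk0 : 0 < k := lt_of_lt_of_le (by positivity) hk
  have h1 : 2 * u * (k / (2 * u)) ≤ k := Nat.mul_div_le k (2 * u)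
  have h2 : k < 2 * u * (k / (2 * u) + 1) := Nat.lt_mul_div_succ k (by omega)
  have h3 : 0 < k / (2 * u) := Nat.div_pos (by nlinarith) (by omega)
  generalize k / (2 * u) = a at h1 h2 h3
  have h4 : k ≤ 4 * u * a := by nlinarith
  have h5 : a ≤ k := by nlinarith
  have h6 : k * k ≤ (4 * u) ^ 2 * (a * a) := by
    calc k * k ≤ (4 * u * a) * (4 * u * a) := Nat.mul_le_mul h4 h4
      _ = _ := by ring
  have h7 : 1000 * k ≤ a * a := by
    refine Nat.le_of_mul_le_mul_left (le_trans ?_ h6) (by positivity : 0 < (4 * u) ^ 2)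
    calc (4 * u) ^ 2 * (1000 * k) = 1000 * (4 * u) ^ 2 * k := by ring
      _ ≤ k * k := Nat.mul_le_mul_right k hk
  have h8 : 1000 * k * (a * a / (1000 * k)) ≤ a * a := Nat.mul_div_le _ _
  have h9 : a * a < 1000 * k * (a * a / (1000 * k) + 1) := Nat.lt_mul_div_succ _ (by omega)
  have h10 : 0 < a * a / (1000 * k) := Nat.div_pos h7 (by omega)
  generalize a * a / (1000 * k) = s at h8 h9 h10
  refine ⟨a, s, h3, h10, h1, h4, h5, ?_, h8, ?_⟩
  · refine Nat.le_of_mul_le_mul_left ?_ hk0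
    calc k * s ≤ 1000 * k * s := by nlinarith
      _ ≤ a * a := h8
      _ ≤ k * a := Nat.mul_le_mul_right a h5
  · refine Nat.le_of_mul_le_mul_left (h6.trans ?_) hk0
    calc (4 * u) ^ 2 * (a * a) ≤ (4 * u) ^ 2 * (1000 * k * (2 * s)) :=
          Nat.mul_le_mul_left _ (h9.le.trans (Nat.mul_le_mul_left _ (by omega)))
      _ = _ := by ring

end Sparse

theorem sparse (h1 : SpCoreSt) (h2 : SpPocketSt) (h3 : SpResSt) (h4 : SpEmbedSt) : SparseSt := by
  intro u hu
  obtain ⟨c, hc⟩ : ∃ c, c = 4 * u := ⟨_, rfl⟩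
  obtain ⟨R, hR⟩ : ∃ R, R = 2000 * c ^ 2 := ⟨_, rfl⟩
  obtain ⟨j, hj⟩ : ∃ j, j = 32 * R * R * R := ⟨_, rfl⟩
  obtain ⟨e, he⟩ : ∃ e, e = 5 * c * (c + 2) ^ j := ⟨_, rfl⟩
  have hc0 : 0 < c := by omega
  have hR16 : 16 ≤ R := by nlinarith
  have hR0 : 0 < R := by omega
  have hj0 : 0 < j := by
    rw [hj]
    positivity
  obtain ⟨k1, hk1⟩ := h3 R (1 + 2 * e * c) R hR0
  refine ⟨e * R + 1, k1 + 1000 * c ^ 2 + 2 * j * R + 1, fun k hk V _ _ G _ hV hV' hG i hi hik T hT
    U hU => ?_⟩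
  classical
  obtain ⟨a, s, ha0, hs0, ha1, ha2, ha3, hsa, hs1, hs2⟩ :=
    Sparse.sizes (k := k) hu (by rw [← hc]; omega)
  rw [← hc] at ha2 hs2
  rw [← hR] at hs2
  have hk0 : 0 < k := by omega
  have hG' : ∀ x, k + 2 * a ≤ dg G x univ := fun x => by
    refine Nat.le_of_mul_le_mul_left (le_trans ?_ (hG x)) hu
    nlinarith
  obtain ⟨B, A, hB0, hB1, hB2, hA, hAB, hΨ, hmin⟩ := h1 (G.deleteEdges (↑U : Set (Sym2 V)))
    k a c j s (e * k ^ 2) {x | dg (G.deleteEdges (↑U : Set (Sym2 V))) x univ < k + a} hk0 ha2 ha3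
    (fun x hx => not_lt.1 fun h => hx (mem_filter.2 ⟨mem_univ _, h⟩))
    (fun x hx => (mem_filter.1 hx).2.le) (Sparse.few G U ha0 ha2 hG' hU) (hsa.trans ha3)
    (by rw [he]) (by
      calc e * k ^ 2 = e * k * k := by ring
        _ ≤ e * k * (R * s) := Nat.mul_le_mul_left _ hs2
        _ < e * k * (R * s) + s * k := Nat.lt_add_of_pos_right (Nat.mul_pos hs0 hk0)
        _ = s * ((e * R + 1) * k) := by ring
        _ ≤ _ := Nat.mul_le_mul_left s hV)
  have hdeg : ∀ x ∈ A, k + a ≤ dg (G.deleteEdges (↑U : Set (Sym2 V))) x univ := fun x hx =>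
    not_lt.1 fun h => hAB x hx (monotone_nat_of_le_succ (f := B) hB1 (Nat.zero_le j)
      (hB0 (mem_filter.2 ⟨mem_univ _, h⟩)))
  obtain ⟨W, hW, hW'⟩ := hk1 k (by omega) V (G.deleteEdges (↑U : Set (Sym2 V))) A s
    ((1 + 2 * e * c) * k) hV' hs2 le_rfl fun x hx => by
      have e1 := hmin {x} (singleton_subset_iff.2 hx)
      rw [sum_singleton, sum_singleton, card_singleton, mul_one] at e1
      have e2 := Sparse.dg_mono (G.deleteEdges (↑U : Set (Sym2 V))) x
        (sdiff_subset : A \ {x} ⊆ A)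
      have e3 := Sparse.dg_split (G.deleteEdges (↑U : Set (Sym2 V))) x A
      have e4 := hdeg x hx
      omega
  have hjk : 2 * j * R < k := by omega
  obtain ⟨par, d, hd, hpar⟩ := exists_parent T hT ⟨0, hi⟩
  obtain ⟨f, hf, hf'⟩ := h4 (G.deleteEdges (↑U : Set (Sym2 V))) k j R R s ((1 + 2 * e * c) * k)
    B A W hB1 hB2 hA hAB
    (fun U' hU' hU'k => h2 (G.deleteEdges (↑U : Set (Sym2 V))) A k a s (e * k ^ 2) R s R s _
      hdeg hΨ hmin hs0 le_rfl le_rfl hs2 hR16 hs2 hs1 ha3 hk0 (by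
        calc k * a + 2 * (e * k ^ 2) = k * a + 2 * e * k * k := by ring
          _ ≤ k * a + 2 * e * k * (c * a) := Nat.add_le_add_left (Nat.mul_le_mul_left _ ha2) _
          _ = _ := by ring) U' hU' hU'k)
    hW hW' hR0 hj0
    (Nat.lt_of_mul_lt_mul_right (a := R) (by rw [mul_comm s R]; exact hjk.trans_le hs2))
    (by
      have e1 : j < k := by nlinarith
      calc 16 * R * R * (k + j) < 16 * R * R * (2 * k) :=
            Nat.mul_lt_mul_of_pos_left (by omega) (by positivity)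
        _ ≤ 16 * R * R * (2 * (R * s)) := Nat.mul_le_mul_left _ (by omega)
        _ = s * j := by rw [hj]; ring)
    (α := Fin i) (by rwa [Fintype.card_fin]) ⟨0, hi⟩ par d hd
  exact ⟨f, hf, edges_of_parent T G U _ par hpar f hf'⟩

end Pool.Agent.Lib.MP_2b1ae8_co.GH
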