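import Pool.Agent.Lib.MP_2b1ae8_co.GH.Win1

/-! Forests with windows: the decomposed forest. -/

set_option autoImplicit false

namespace Pool.Agent.Lib.MP_2b1ae8_co.GH

open Finset AT

namespace Win

variable {V I : Type} [Fintype V] [DecidableEq V] {T : Fo V I} {K l μ : ℕ}

namespace Ctx2

variable (X : Ctx2 T K l μ)

open Classical in
/-- The parent in the decomposed forest. -/
noncomputable def np (v : V) : V :=
  if v ∈ X.Wn ∧ v ∉ X.La then T.rho v else if X.Gd v then T.par^[l] v else T.par v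

theorem np_Wn {v : V} (h : v ∈ X.Wn) (h' : v ∉ X.La) : X.np v = T.rho v := if_pos ⟨h, h'⟩

theorem np_Gd {v : V} (h : X.Gd v) : X.np v = T.par^[l] v := by
  rw [np, if_neg fun k => X.not_A k.1 h.1, if_pos h]

theorem np_else {v : V} (h : v ∉ X.Wn ∨ v ∈ X.La) (h' : ¬X.Gd v) : X.np v = T.par v := by
  rw [np, if_neg fun k => h.elim (fun m => m k.1) k.2, if_neg h']

theorem np_La {v : V} (h : v ∈ X.La) : X.np v = T.par v :=
  X.np_else (Or.inr h) fun k => X.not_A (X.La_sub h) k.1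

theorem np_cases (v : V) : (v ∈ X.Wn ∧ v ∉ X.La ∧ X.np v = T.rho v) ∨
    (X.Gd v ∧ X.np v = T.par^[l] v) ∨
    ((v ∉ X.Wn ∨ v ∈ X.La) ∧ ¬X.Gd v ∧ X.np v = T.par v) := by
  by_cases h1 : v ∈ X.Wn ∧ v ∉ X.La
  · exact Or.inl ⟨h1.1, h1.2, X.np_Wn h1.1 h1.2⟩
  by_cases h2 : X.Gd v
  · exact Or.inr (Or.inl ⟨h2, X.np_Gd h2⟩)
  · have h3 : v ∉ X.Wn ∨ v ∈ X.La := by tauto
    exact Or.inr (Or.inr ⟨h3, h2, X.np_else h3 h2⟩)

theorem par_notW {v : V} (hr : v ∉ T.R) (h : v ∉ X.Wn ∨ v ∈ X.La) (h' : ¬X.Gd v) :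
    T.par v ∉ X.Wn := fun hp => h.elim (fun k => h' (X.key hr k hp)) fun k => X.La_par k hp

theorem tr_np (v : V) : T.tr (X.np v) = T.tr v := by
  rcases X.np_cases v with ⟨-, -, e⟩ | ⟨-, e⟩ | ⟨-, -, e⟩ <;> rw [e]
  exacts [T.tr_rho v, tr_iter T l v, T.tr_par v]

theorem dep_np {v : V} (hr : v ∉ T.R) : T.dep (X.np v) < T.dep v := by
  rcases X.np_cases v with ⟨-, -, e⟩ | ⟨h, e⟩ | ⟨-, -, e⟩ <;> rw [e]
  · exact dep_rho_lt T hr
  · have := h.dep le_rfl
    have := X.hl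
    omega
  · have := T.dep_par v hr
    omega

theorem exists_dep : ∃ dep : V → ℕ, ∀ v, v ∉ T.R → dep (X.np v) + 1 = dep v := by
  have wf : WellFounded fun p w => w ∉ T.R ∧ p = X.np w := by
    refine Subrelation.wf (r := InvImage (· < ·) T.dep) ?_ (InvImage.wf _ wellFounded_lt)
    rintro p w ⟨h1, rfl⟩
    exact X.dep_np h1
  obtain ⟨dep, hd⟩ := tr_rec wf (fun w (s : V → ℕ) => if w ∉ T.R then s (X.np w) + 1 else 0)
    fun w s s' e => by
      split_ifs with hw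
      · rfl
      · rw [e _ ⟨hw, rfl⟩]
  exact ⟨dep, fun w hw => by rw [hd w, if_pos hw]⟩

/-- the new children of a late vertex -/
theorem ch_La {u : V} (hr : u ∉ T.R) (h : X.np u ∈ X.La) : X.Gd u := by
  rcases X.np_cases u with ⟨-, -, e⟩ | ⟨k, -⟩ | ⟨k1, k2, e⟩
  · exact absurd (T.rho_R u) (X.not_R (X.La_sub (e ▸ h)))
  · exact k
  · exact absurd (X.La_sub (e ▸ h)) (X.par_notW hr k1 k2)

/-- the new children of the other vertices -/
theorem ch_else {u : V} (hr : u ∉ T.R) (h : X.np u ∉ T.R) (h' : X.np u ∉ X.La) :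
    X.np u = T.par u ∧ X.np u ∉ X.Wn := by
  rcases X.np_cases u with ⟨-, -, e⟩ | ⟨k, e⟩ | ⟨k1, k2, e⟩
  · exact absurd (e ▸ T.rho_R u) h
  · exact absurd (e ▸ X.Gd_La k) h'
  · exact ⟨e, e ▸ X.par_notW hr k1 k2⟩

theorem pieces (W : Finset V) (hW : ∀ v ∈ W, v ∉ X.A ∧ v ∉ T.R) :
    ∃ (top : V → V) (idx : V → ℕ),
      (∀ v ∈ W, T.par v ∉ W → top v = v ∧ idx v = 0) ∧
      (∀ v ∈ W, T.par v ∈ W → top v = top (T.par v) ∧ idx (T.par v) < idx v) ∧
      (∀ v ∈ W, idx v < K) ∧ ∀ u ∈ W, ∀ v ∈ W, top u = top v → idx u = idx v → u = v := by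
  have hK := X.hK
  obtain ⟨s, hs⟩ := tr_rec T.wf_ch
    (fun v (s : V → ℕ) => if v ∈ W then 1 + ∑ c ∈ T.ch v, s c else 0) fun v s s' h => by
      rw [sum_congr rfl h]
  have sf : ∀ v, s v ≤ X.f v % K := by
    intro v
    induction v using T.ind with
    | h v ih =>
    rw [hs v]
    split_ifs with hv
    swap
    · exact Nat.zero_le _
    have ih' : ∀ c ∈ T.ch v, s c ≤ X.f c := fun c hc => (ih c hc).trans (Nat.mod_le _ _)
    by_cases hk : K ≤ X.f v
    · have : ∃ c ∈ T.ch v, X.f c / K = X.f v / K := by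
        by_contra hn
        exact X.nCu (hW v hv).1 ⟨hk, fun c hc e => hn ⟨c, hc, e⟩⟩
      obtain ⟨c, hc, e⟩ := this
      have h1 := T.f_split X.hf hc
      have h2 := ih c hc
      have h3 : ∑ u ∈ (T.ch v).erase c, s u ≤ ∑ u ∈ (T.ch v).erase c, X.f u :=
        sum_le_sum fun u hu => ih' u (mem_of_mem_erase hu)
      have a1 := Nat.div_add_mod (X.f v) K
      have a2 := Nat.div_add_mod (X.f c) K
      rw [e] at a2
      rw [← add_sum_erase _ _ hc]
      omega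
    · rw [Nat.mod_eq_of_lt (by omega), X.hf v]
      exact Nat.add_le_add_left (sum_le_sum ih') _
  exact T.exists_pieces W (fun v hv => (hW v hv).2) K s (fun v hv => by rw [hs v, if_pos hv])
    fun v => (sf v).trans (Nat.mod_lt _ hK).le

theorem tau_iter {c : V} (h : X.Gd c) {j : ℕ} (hj : j ≤ l) :
    (T.dep (T.par^[j] c)).bodd = not^[j] (T.dep c).bodd := by
  induction j with
  | zero => rfl
  | succ j ih =>
    have h1 := T.dep_par _ (h.notR (j := j) (by omega))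
    rw [Function.iterate_succ_apply', Function.iterate_succ_apply', ← ih (by omega), ← h1,
      Nat.bodd_succ, Bool.not_not]

variable [DecidableEq I]

open Classical in
theorem cu_le {g : ℕ} (hg : 0 < g) (i : I) :
    g * #{u ∈ T.tree i | T.Cu X.f g u} ≤ 2 * #{v | T.tr v = i} := by
  by_cases h : ∃ v, T.tr v = i
  · obtain ⟨v, rfl⟩ := h
    exact T.card_Cu X.hf hg v
  · rw [filter_eq_empty_iff.2 fun v hv => absurd ⟨v, T.mem_tree.1 hv⟩ h]
    simp

theorem card_R' (i : I) (Y : Finset V) :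
    #{u ∈ Y ∪ T.R | T.tr u = i} ≤ #{u ∈ Y | T.tr u = i} + 1 := by
  by_cases h : ∃ v, T.tr v = i
  · obtain ⟨v, rfl⟩ := h
    exact T.card_R v Y
  · rw [filter_eq_empty_iff.2 fun v _ hv => h ⟨v, hv⟩]
    simp

theorem exists_GF {D g b : ℕ} (hD : 0 < D) (hg : 0 < g) (hb : K ≤ b * μ)
    (h : 2 * D * ((b + 1) * l + μ) ≤ K) : ∃ F : GF V I K D g, F.tr = T.tr ∧ F.R = T.R ∧
      F.par = X.np ∧ F.La = X.La ∧ X.A ⊆ F.Z := by
  classical
  obtain ⟨dep, hdep⟩ := X.exists_dep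
  obtain ⟨Z, hZ⟩ : ∃ Z : Finset V, Z = X.A ∪ X.Wn \ X.La ∪ T.R := ⟨_, rfl⟩
  have mZ : ∀ v, v ∈ Z ↔ (v ∈ X.A ∨ (v ∈ X.Wn ∧ v ∉ X.La)) ∨ v ∈ T.R := fun v => by
    rw [hZ, mem_union, mem_union, mem_sdiff]
  obtain ⟨W, hW⟩ : ∃ W : Finset V, ∀ v, v ∈ W ↔ v ∉ Z ∧ v ∉ X.La :=
    ⟨univ.filter fun v => v ∉ Z ∧ v ∉ X.La, fun v => by simp⟩
  have W1 : ∀ v ∈ W, v ∉ X.A ∧ v ∉ T.R := fun v hv =>
    ⟨fun k => ((hW v).1 hv).1 ((mZ v).2 (Or.inl (Or.inl k))),
      fun k => ((hW v).1 hv).1 ((mZ v).2 (Or.inr k))⟩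
  have W2 : ∀ v, v ∉ Z → v ∉ X.La → X.np v = T.par v := fun v h1 h2 =>
    X.np_else (Or.inl fun k => h1 ((mZ v).2 (Or.inl (Or.inr ⟨k, h2⟩))))
      fun k => h1 ((mZ v).2 (Or.inl (Or.inl k.1)))
  obtain ⟨top, idx, t1, t2, t3, t4⟩ := X.pieces W W1
  have disj : ∀ v ∈ Z, v ∉ X.La := fun v hv k => by
    rcases (mZ v).1 hv with (m | m) | m
    exacts [X.not_A (X.La_sub k) m, m.2 k, X.not_R (X.La_sub k) m]
  have small : ∀ v ∈ Z, v ∉ {v ∈ X.A | T.Cu X.f g v} ∪ T.R → ∀ u, u ∉ T.R → X.np u = v →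
      u ∈ T.ch v ∧ ¬T.Cu X.f g v := fun v hv he u hu e => by
    have k1 : v ∉ T.R := fun k => he (mem_union_right _ k)
    obtain ⟨k2, k3⟩ := X.ch_else hu (e ▸ k1) (e ▸ disj v hv)
    refine ⟨T.mem_ch.2 ⟨hu, k2.symm.trans e⟩, fun k => he (mem_union_left _ (mem_filter.2 ⟨?_, k⟩))⟩
    exact (((mZ v).1 hv).resolve_right k1).resolve_right fun m => k3 (e ▸ m.1)
  have c1 := X.cu_le X.hK
  refine ⟨{ tr := T.tr, R := T.R, par := X.np, dep := dep, rho := T.rho, Z := Z, La := X.La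
            E := {v ∈ X.A | T.Cu X.f g v} ∪ T.R, top := top, idx := idx, tr_par := X.tr_np
            dep_par := hdep, tr_rho := T.tr_rho
            rho_E := fun v => mem_union_right _ (T.rho_R v)
            R_sub := subset_union_right
            E_sub := fun v hv => (mZ v).2 ((mem_union.1 hv).imp_left
              fun k => Or.inl (mem_filter.1 k).1)
            disj := disj
            card_Z := fun i => ?_, card_La := fun i => ?_, card_E := fun i => ?_
            par_Z := fun v hv hr => ?_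
            par_La := fun v hv hp => X.La_par hv (X.La_sub (X.np_La hv ▸ hp))
            ch_La := fun v hv => ?_
            ch_small := fun v hv he => ?_, one_E := fun v hv he u hu u' hu' r r' e e' => ?_
            one_La := fun u hu u' hu' e hz => ?_
            top_self := fun v h1 h2 h3 => t1 v ((hW v).2 ⟨h1, h2⟩) fun k => by
              rw [W2 v h1 h2] at h3
              exact h3.elim ((hW _).1 k).1 ((hW _).1 k).2
            top_par := fun v h1 h2 h3 h4 => by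
              rw [W2 v h1 h2] at h3 h4 ⊢
              exact t2 v ((hW v).2 ⟨h1, h2⟩) ((hW _).2 ⟨h3, h4⟩)
            idx_lt := fun v h1 h2 => t3 v ((hW v).2 ⟨h1, h2⟩)
            idx_inj := fun u v h1 h2 h3 h4 => t4 u ((hW u).2 ⟨h1, h2⟩) v ((hW v).2 ⟨h3, h4⟩) },
    rfl, rfl, rfl, rfl, fun v hv => (mZ v).2 (Or.inl (Or.inl hv))⟩
  · have h1 := card_R' (T := T) i (X.A ∪ X.Wn \ X.La)
    have h2 : #{u ∈ X.A ∪ X.Wn \ X.La | T.tr u = i} ≤
        #{u ∈ X.A | T.tr u = i} + #{u ∈ X.Wn | T.tr u = i} := by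
      rw [filter_union]
      exact (card_union_le _ _).trans (Nat.add_le_add_left
        (card_le_card (filter_subset_filter _ sdiff_subset)) _)
    have h3 := X.card_A hb i
    have h4 := (X.card_Wn i).trans (Nat.mul_le_mul_left μ (X.card_Gd i))
    have h5 := c1 i
    have hl := X.hl
    rw [← hZ] at h1
    generalize #{u ∈ T.tree i | T.Cu X.f K u} = m at *
    generalize #{v | T.tr v = i} = n at *
    have h6 : #{u ∈ Z | T.tr u = i} ≤ m * ((b + 1) * l + μ) + 1 := by nlinarith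
    calc K * D * #{u ∈ Z | T.tr u = i} ≤ K * D * (m * ((b + 1) * l + μ) + 1) := by gcongr
      _ = K * m * (D * ((b + 1) * l + μ)) + K * D := by ring
      _ ≤ 2 * n * (D * ((b + 1) * l + μ)) + K * D := by gcongr
      _ = 2 * D * ((b + 1) * l + μ) * n + K * D := by ring
      _ ≤ (2 * D + K) * n + K * D := by gcongr; omega
  · exact (Nat.mul_le_mul_left K ((X.card_La i).trans (X.card_Gd i))).trans (c1 i)
  · have h1 := card_R' (T := T) i {v ∈ X.A | T.Cu X.f g v}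
    have h2 := X.cu_le hg i
    have h4 : #{u ∈ {v ∈ X.A | T.Cu X.f g v} | T.tr u = i} ≤ #{u ∈ T.tree i | T.Cu X.f g u} :=
      card_le_card fun u hu => by
        rw [mem_filter, mem_filter] at hu
        exact mem_filter.2 ⟨T.mem_tree.2 hu.2, hu.1.2⟩
    have h5 := Nat.mul_le_mul_left g (h1.trans (Nat.add_le_add_right h4 1))
    rw [mul_add, mul_one] at h5
    omega
  · rcases X.np_cases v with ⟨-, -, e⟩ | ⟨k, e⟩ | ⟨k1, k2, e⟩ <;> rw [e]
    · exact Or.inl ((mZ _).2 (Or.inr (T.rho_R v)))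
    · exact Or.inr (X.Gd_La k)
    · have ha : v ∈ X.A := (((mZ v).1 hv).resolve_right hr).resolve_right
        fun m => k1.elim (fun k => k m.1) m.2
      exact Or.inl ((mZ _).2 (Or.inl (Or.inl ((X.hA _).2
        (Or.inr ⟨v, T.mem_ch.2 ⟨hr, rfl⟩, ha, fun k => k2 ⟨ha, hr, k⟩⟩)))))
  · refine le_trans (card_le_one.2 fun u hu u' hu' => ?_) hD
    rw [mem_filter] at hu hu'
    have k1 := X.ch_La hu.2.1 (hu.2.2 ▸ hv)
    have k2 := X.ch_La hu'.2.1 (hu'.2.2 ▸ hv)
    exact (k1.uniq k2 le_rfl le_rfl (by rw [← X.np_Gd k1, ← X.np_Gd k2, hu.2.2, hu'.2.2])).2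
  · rcases eq_empty_or_nonempty {u | u ∉ T.R ∧ X.np u = v} with e | ⟨u, hu⟩
    · rw [e]
      exact Nat.zero_le _
    · rw [mem_filter] at hu
      refine le_trans (card_le_card fun w hw => ?_)
        (T.not_Cu X.hf hg (small v hv he u hu.2.1 hu.2.2).2).1
      rw [mem_filter] at hw
      exact (small v hv he w hw.2.1 hw.2.2).1
  · exact (T.not_Cu X.hf hg (small v hv he u r e).2).2 u (small v hv he u r e).1 u'
      (small v hv he u' r' e').1
      (mem_filter.1 ((mem_union.1 hu).resolve_right r)).2.1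
      (mem_filter.1 ((mem_union.1 hu').resolve_right r')).2.1
  · rw [X.np_La hu] at hz
    rw [X.np_La hu, X.np_La hu'] at e
    exact X.uniq_ch (X.nCu fun k => hz ((mZ _).2 (Or.inl (Or.inl k))))
      (T.mem_ch.2 ⟨X.not_R (X.La_sub hu), rfl⟩) (T.mem_ch.2 ⟨X.not_R (X.La_sub hu'), e.symm⟩)
      ((X.hL u).1 hu).1.heavy ((X.hL u').1 hu').1.heavy

end Ctx2

end Win

theorem exists_WF : WinSt := by
  intro V I _ _ _ T K D g l μ b hK hD hg hl hb h
  classical
  obtain ⟨X⟩ := Win.exists_Ctx2 T μ hK hl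
  obtain ⟨F, e1, e2, e3, e4, e5⟩ := X.exists_GF hD hg hb h
  have tp : ∀ v, v ∉ T.R → (T.dep (T.par v)).bodd = !(T.dep v).bodd := fun v hv => by
    rw [← T.dep_par v hv, Nat.bodd_succ, Bool.not_not]
  have hpos : ∀ v, 1 ≤ X.pos v → X.Pth v := fun v hv => by
    by_contra hn
    have := X.hp0 v hn
    omega
  refine ⟨{ F := F, τ := fun v => (T.dep v).bodd
            π := fun v => if v ∈ X.Wn then !(T.dep (T.rho v)).bodd else (T.dep v).bodd
            Wn := X.Wn, pos := X.pos, bot := X.bot, tr_eq := e1, R_eq := e2, τ_par := tp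
            π_eq := fun v hv => if_neg hv
            π_par := fun v hr h1 h2 => ?_
            La_sub := fun v hv => X.La_sub (e4 ▸ hv)
            La_ch := fun v hr hv => e5 (X.ch_La hr (by rwa [e3, e4] at hv)).1
            not_R := fun v hv => X.not_R hv
            par_eq := fun v hr h1 h2 => ?_
            top := fun v h1 h2 => ?_
            low := fun v hr h1 h2 => ?_
            mid := fun v _ h2 h3 => (X.up (hpos v h3) fun k => X.La_par k h2).2
            pos_le := fun v _ => ?_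
            bot_fact := fun v _ h2 => ?_
            card_Wn := fun i => ?_
            ch_Wn := fun v hv => (T.not_Cu X.hf hK (X.nCu (X.not_A hv))).1 }⟩
  · rw [e3, e4] at h2
    rw [e4] at h1
    rw [e3]
    rcases X.np_cases v with ⟨k, -, e⟩ | ⟨k, e⟩ | ⟨k1, k2, e⟩
    · rw [e, if_neg fun m => X.not_R m (T.rho_R v), if_pos k, Bool.not_not]
    · exact absurd (e ▸ X.Gd_La k) h2
    · rw [e, if_neg (X.par_notW hr k1 k2), if_neg (k1.resolve_right h1)]
      exact tp v hr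
  · rw [e3]
    exact X.np_else (Or.inl h1) fun k => h2 (X.pth_Wn ⟨v, 1, k, le_rfl, hl, rfl⟩)
  · have k1 : X.Pth v := ((X.hW v).1 h1).resolve_right fun k => h2 k.2.2
    have k2 : v ∈ X.La := by
      by_contra hn
      exact h2 (X.pth_Wn (X.up k1 hn).1)
    rw [e3, e4]
    exact ⟨k2, X.np_La k2, ((X.hL v).1 k2).2⟩
  · have k := X.key hr h1 h2
    rw [e3, e4, X.np_Gd k]
    exact ⟨X.Gd_La k, X.pos_bot k le_rfl hl⟩
  · by_cases hp : X.Pth v
    · exact (X.hp v hp).2.2.1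
    · rw [X.hp0 v hp]
      exact Nat.zero_le _
  · obtain ⟨k1, -, k2, k3⟩ := X.hp v (hpos v h2)
    refine ⟨fun m => X.not_A m k1.1, ?_⟩
    have := X.tau_iter k1 k2
    rwa [k3] at this
  · have h1 := (X.card_Wn i).trans (Nat.mul_le_mul_left μ (X.card_Gd i))
    have h2 := X.cu_le hK i
    calc K * #{v ∈ X.Wn | T.tr v = i} ≤ K * (μ * #{u ∈ T.tree i | T.Cu X.f K u}) := by gcongr
      _ = μ * (K * #{u ∈ T.tree i | T.Cu X.f K u}) := by ring
      _ ≤ μ * (2 * #{v | T.tr v = i}) := by gcongr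
      _ = _ := by ring

end Pool.Agent.Lib.MP_2b1ae8_co.GH
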