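import Pool.Agent.Lib.MP_2b1ae8_co.GH.Dense
import Pool.Agent.Lib.MP_2b1ae8_co.GH.Galvin
import Pool.Agent.Lib.MP_2b1ae8_co.GH.Rand
import Pool.Agent.Lib.MP_2b1ae8_co.GH.Nav
import Pool.Agent.Lib.MP_2b1ae8_co.GH.HostEx
import Pool.Agent.Lib.MP_2b1ae8_co.GH.Win
import Pool.Agent.Lib.MP_2b1ae8_co.GH.Late
import Pool.Agent.Lib.MP_2b1ae8_co.GH.Hub
import Pool.Agent.Lib.MP_2b1ae8_co.GH.SpCore
import Pool.Agent.Lib.MP_2b1ae8_co.GH.SpPocket
import Pool.Agent.Lib.MP_2b1ae8_co.GH.SpRes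
import Pool.Agent.Lib.MP_2b1ae8_co.GH.SpEmbed
import Pool.Agent.Lib.MP_2b1ae8_co.GH.Sparse
import Pool.Agent.Lib.MP_2b1ae8_co.Large

/-! Asymptotic tree packing in general hosts: the three ranges of the order of the host. -/

set_option autoImplicit false

namespace Pool.Agent.Lib.MP_2b1ae8_co.GH

open Finset

theorem pack_all (u : ℕ) (hu : 0 < u) : ∃ k0 : ℕ, ∀ k, k0 ≤ k →
    ∀ (T : (i : ℕ) → SimpleGraph (Fin i)), (∀ i, 2 ≤ i → i ≤ k → (T i).IsTree) →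
    ∀ (V : Type) [Fintype V] [DecidableEq V] [Nonempty V] (G : SimpleGraph V) [DecidableRel G.Adj],
      (∀ x, (u + 1) * k ≤ u * dg G x univ) →
      ∃ f : (i : ℕ) → Fin i → V,
        (∀ i, 2 ≤ i → i ≤ k → Function.Injective (f i) ∧
            ∀ a b : Fin i, (T i).Adj a b → G.Adj (f i a) (f i b)) ∧
        (∀ i j, 2 ≤ i → i ≤ k → 2 ≤ j → j ≤ k → i ≠ j →
            ∀ (a b : Fin i) (c d : Fin j), (T i).Adj a b → (T j).Adj c d →
              s(f i a, f i b) ≠ s(f j c, f j d)) := by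
  obtain ⟨C, k1, h1⟩ := sparse sp_core sp_pocket (sp_res exists_label) sp_embed u hu
  obtain ⟨k2, h2⟩ := dense galvin hub2 (exists_host exists_label nav) exists_WF late2 u C hu
  refine ⟨k1 + k2 + 6500000, fun k hk T hT V _ _ _ G _ hδ => ?_⟩
  by_cases a1 : 6500000 * k ^ 3 ≤ Fintype.card V
  · refine pack G k T hT fun i b1 b2 U hU => step_large G k a1 (fun v => ?_) i b1 b2 (T i)
      (hT i b1 b2) U hU
    have := hδ v
    rw [add_mul] at this
    exact (Nat.le_of_mul_le_mul_left ((Nat.le_add_right _ _).trans this) hu).trans (Nat.le_succ _)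
  by_cases a2 : C * k ≤ Fintype.card V
  · refine pack G k T hT fun i b1 b2 U hU => h1 k (by omega) V G a2 ?_ hδ i (by omega) b2 (T i)
      (hT i b1 b2) U ?_
    · have : 6500000 * k ^ 3 ≤ k * k ^ 3 := Nat.mul_le_mul_right _ (by omega)
      rw [pow_succ' k 3]
      omega
    · have : k * (k - 1) ≤ k * k := Nat.mul_le_mul_left _ (Nat.sub_le _ _)
      omega
  have hm : ∀ i : Finset.Icc 2 k, 2 ≤ i.1 ∧ i.1 ≤ k := fun i => Finset.mem_Icc.1 i.2
  obtain ⟨f, f1, f2⟩ := h2 k (by omega) V G (by omega) hδ (Finset.Icc 2 k) (fun i => i.1)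
    (fun i => k - i.1) (fun i j e => Subtype.ext (by
      have := hm i
      have := hm j
      simp only at e
      omega)) (fun i => by have := hm i; omega) (fun i => T i.1) (fun i => hT _ (hm i).1 (hm i).2)
  refine ⟨fun i a => if hi : i ∈ Finset.Icc 2 k then f ⟨i, hi⟩ a else Classical.arbitrary V,
    fun i h1 h2 => ?_, fun i j h1 h2 h3 h4 hij a b c d hab hcd => ?_⟩
  · simp only [dif_pos (Finset.mem_Icc.2 ⟨h1, h2⟩)]
    exact f1 ⟨i, _⟩
  · simp only [dif_pos (Finset.mem_Icc.2 ⟨h1, h2⟩), dif_pos (Finset.mem_Icc.2 ⟨h3, h4⟩)]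
    exact fun e => hij (congrArg Subtype.val (f2 ⟨i, _⟩ ⟨j, _⟩ a b c d hab hcd e))

end Pool.Agent.Lib.MP_2b1ae8_co.GH
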