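import Pool.Agent.Lib.MP_2b1ae8_co.GH.Colour

/-! From the block structure to a placement of all vertices but the late ones. -/

set_option autoImplicit false
set_option linter.unusedSectionVars false

namespace Pool.Agent.Lib.MP_2b1ae8_co.GH

open Finset AT

variable {V I Lb Bn BB CC Sb : Type} [Fintype V] [DecidableEq V] [Fintype I] [DecidableEq I]
  [Fintype Lb] [DecidableEq Lb] [Fintype Bn] [DecidableEq Bn] [Fintype BB] [DecidableEq BB]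
  [DecidableEq CC] [Fintype Sb] [DecidableEq Sb] {K D g : ℕ} [NeZero K] {F : GF V I K D g}
  {X : LD Lb K} {m q q' n0 Mk : ℕ}
  {H : Type} [Fintype H] [DecidableEq H] {G : SimpleGraph H} [DecidableRel G.Adj]
  {r Df tw l : ℕ}

theorem micro2 (hG : GalvinSt) (hH : HubSt) (P : LS F X)
    (M : MS I Lb Bn BB CC Sb X P.nn m q q' n0 Mk) [Nonempty Bn] [Nonempty BB] [NeZero r]
    (S : Host G (BB × Fin r) Df tw l) (π : V → Bool)
    (hπ : ∀ v, v ∉ F.R → v ∉ F.La → F.par v ∉ F.La → π (F.par v) = !π v)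
    (hLZ : ∀ v, v ∉ F.R → F.par v ∈ F.La → v ∈ F.Z)
    {ζ lam e η η' θ Mh qE cap capT capp b1 b2 x1 x2 U0 : ℕ}
    (hZ : ∀ i, #{v ∈ F.Z | F.tr v = i} ≤ ζ) (hLa : ∀ i, #{v ∈ F.La | F.tr v = i} ≤ lam)
    (hE : ∀ i, #{v ∈ F.E | F.tr v = i} ≤ e)
    (N : Num2 K D g m q q' ζ lam e η η' θ Mh n0 (Fintype.card BB) (Fintype.card Sb) r Df qE cap
      capT capp b1 b2 x1 x2 U0) :
    ∃ ψ : V → H, (∀ v, v ∉ F.La → ψ v ∈ S.X (π v) ∧ S.lb (ψ v) ≠ none) ∧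
      (∀ u v, u ∉ F.La → v ∉ F.La → F.tr u = F.tr v → ψ u = ψ v → u = v) ∧
      (∀ v, v ∉ F.R → v ∉ F.La → F.par v ∉ F.La → G.Adj (ψ v) (ψ (F.par v))) ∧
      (∀ u v, u ∉ F.R → v ∉ F.R → u ∉ F.La → F.par u ∉ F.La → v ∉ F.La → F.par v ∉ F.La →
        s(ψ u, ψ (F.par u)) = s(ψ v, ψ (F.par v)) → F.tr u = F.tr v) ∧
      ∀ y, #{u ∈ F.La | ψ (F.par u) = y} + #{u | u ∉ F.R ∧ F.par u ∈ F.La ∧ ψ u = y} ≤
        2 * ((D + 1) * lam) + e * η' + η + g + 1 + 2 * Mk := by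
  obtain ⟨φ, p0, pa, p2, p3, p4, p5⟩ := place2 P M hH S π hπ hZ hLa hE N
  obtain ⟨co, hco⟩ : ∃ co : H → BB, ∀ x b, S.lb x = some b → co x = b.1 :=
    ⟨fun x => (S.lb x).elim (Classical.arbitrary _) Prod.fst, fun x b h => by simp [h]⟩
  have p1 : ∀ z ∈ F.Z, ∃ j, co (φ z) = M.cb (M.cell (M.sc (F.tr z))) j := fun z hz => by
    obtain ⟨j, a, h⟩ := (p0 z hz).2
    exact ⟨j, hco _ _ h⟩
  obtain ⟨bn, sa, c1, c2, c3⟩ := colour2 P M r Df φ co _ p1 p4 N.hroot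
    (by have := N.hroot; omega)
  obtain ⟨δ, sh, d1, d1', d2, d3⟩ := shifts2 P M r Df N.hq0 N.hsh
  obtain ⟨β, hβ⟩ : ∃ β : V → BB × Fin r, ∀ v, β v =
      (M.bl (M.sc (F.tr v)) (P.lab v) (bn (F.top v)) (P.ix v),
        sa (F.top v) + sh (F.tr v) (P.lab v) (bn (F.top v)) (P.ix v)) := ⟨_, fun _ => rfl⟩
  obtain ⟨Pc, hPc⟩ : ∃ Pc : Finset V, ∀ v, v ∈ Pc ↔ v ∉ F.Z ∧ v ∉ F.La :=
    ⟨univ.filter fun v => v ∉ F.Z ∧ v ∉ F.La, fun v => by simp⟩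
  have hb : ∀ v, v ∉ F.Z → v ∉ F.La → bn (F.top v) ∈ M.bs (M.sc (F.tr v)) (P.lab v) := by
    intro v h1 h2
    obtain ⟨a1, a2, a3, -⟩ := P.top_mem v h1 h2
    simpa only [a2, a3] using c1 _ a1
  have hu : ∀ v, v ∉ F.Z → v ∉ F.La → X.us (P.lab v) (P.ix v) = true :=
    fun v h1 h2 => (P.top_mem v h1 h2).2.2.2
  have nL : ∀ v, v ∉ F.Z → F.par v ∉ F.La := fun v h h' => h (hLZ v (F.nR h) h')
  have blk : ∀ u v, u ∉ F.Z → u ∉ F.La → v ∉ F.Z → v ∉ F.La → F.tr u = F.tr v →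
      (β u).1 = (β v).1 →
      P.lab u = P.lab v ∧ bn (F.top u) = bn (F.top v) ∧ P.ix u = P.ix v := by
    intro u v a1 a2 b1 b2 ht h
    rw [hβ, hβ, ht] at h
    exact M.bl_inj _ _ _ _ _ _ _ (ht ▸ hb u a1 a2) (hu u a1 a2) (hb v b1 b2) (hu v b1 b2) h
  have rt : ∀ u, u ∉ F.Z → u ∉ F.La → F.par u ∈ F.Z → u ∈ P.Tp ∧ P.hub u = F.par u ∧
      P.ix u = 0 ∧ β u = (M.bl (M.sc (F.tr u)) (P.lab u) (bn u) 0, sa u) := by
    intro u a h2 b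
    have t := (P.mem_Tp u).2 ⟨a, h2, Or.inl b⟩
    obtain ⟨t1, t2⟩ := P.top_self u t
    exact ⟨t, (P.hub_Z u t).2.2.2.1 b, t2, by rw [hβ, t1, t2, d2, add_zero]⟩
  have inn : ∀ u, u ∉ F.Z → u ∉ F.La → F.par u ∉ F.Z → F.top (F.par u) = F.top u ∧
      P.ix (F.par u) < P.ix u ∧ (F.tr u, P.lab u, bn (F.top u), P.ix u) ∈ ME P M ∧
      ∃ x y, M.kd x.1 y.1 = 1 ∧ M.kd y.1 x.1 = 5 ∧
        mkey P M (F.tr u, P.lab u, bn (F.top u), P.ix u) = (x.1, y.1) ∧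
        δ (F.tr u, P.lab u, bn (F.top u), P.ix u) = y.2 - x.2 ∧
        ((X.od (P.lab u) (P.ix u) = true ∧ x = β (F.par u) ∧ y = β u) ∨
          (X.od (P.lab u) (P.ix u) = false ∧ x = β u ∧ y = β (F.par u))) := by
    intro u a h2 b
    have h3 := nL u a
    have t : u ∉ P.Tp := fun h => by have := ((P.mem_Tp u).1 h).2.2; tauto
    obtain ⟨i1, i2, i3, i4⟩ := P.inner u a h2 t
    have i5 : P.lab (F.par u) = P.lab u := by
      rw [← (P.top_mem _ b h3).2.2.1, i1, (P.top_mem u a h2).2.2.1]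
    have i6 := hu _ b h3
    rw [i5, ← i2] at i6
    have i3' := i3
    rw [← i2] at i3' i4
    obtain ⟨o1, o2, o3, o4⟩ := X.ev_oo _ _ (hu u a h2) i6 i4
    obtain ⟨k1, k2⟩ := M.kd_in _ _ _ _ _ (hb u a h2) o1 o2 o3 o4
    refine ⟨i1, i3, ?_, (M.bl (M.sc (F.tr u)) (P.lab u) (bn (F.top u)) (X.ev (P.lab u) (P.ix u)),
        sa (F.top u) + sh (F.tr u) (P.lab u) (bn (F.top u)) (X.ev (P.lab u) (P.ix u))),
      (M.bl (M.sc (F.tr u)) (P.lab u) (bn (F.top u)) (X.oo (P.lab u) (P.ix u)),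
        sa (F.top u) + sh (F.tr u) (P.lab u) (bn (F.top u)) (X.oo (P.lab u) (P.ix u))),
      k1, k2, rfl, ?_, ?_⟩
    · simp only [ME, mem_filter, mem_univ, true_and]
      exact ⟨hb u a h2, (lt_of_le_of_lt (Fin.zero_le _) i3).ne', hu u a h2, i6, i4⟩
    · rw [← d3 _ _ _ _ i3', add_sub_add_left_eq_sub]
    · rw [hβ, hβ, F.tr_par, i5, i1, ← i2]
      unfold LD.ev LD.oo
      cases X.od (P.lab u) (P.ix u) <;> simp
  obtain ⟨ψ, ψ1, ψ2, ψ3⟩ := layers hG S F.tr F.par π F.Z Pc (fun v => P.ix v) β φ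
    (fun z hz => (p0 z hz).1) (fun v hv => ((hPc v).1 hv).1)
    (fun v hv => hπ v (F.nR ((hPc v).1 hv).1) ((hPc v).1 hv).2 (nL v ((hPc v).1 hv).1))
    (fun v hv => by
      obtain ⟨a, b⟩ := (hPc v).1 hv
      by_cases h : F.par v ∈ F.Z
      · exact Or.inl h
      · exact Or.inr ⟨(hPc _).2 ⟨h, nL v a⟩, (inn v a b h).2.1⟩)
    (fun j i b => by
      rcases ({v ∈ Pc | (P.ix v : ℕ) = j ∧ F.tr v = i ∧ β v = b}).eq_empty_or_nonempty with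
        h | ⟨v0, h00⟩
      · rw [h]
        exact Nat.zero_le _
      obtain ⟨h0, -, rfl, rfl⟩ := mem_filter.1 h00
      obtain ⟨a0, b0⟩ := (hPc v0).1 h0
      refine le_trans (card_le_card_of_injOn F.top (fun v hv => ?_) fun u h v h' e => ?_)
        (c2 (F.tr v0) (P.lab v0) (bn (F.top v0)) (sa (F.top v0)))
      · obtain ⟨h1, -, h2, h3⟩ := mem_filter.1 (mem_coe.1 hv)
        obtain ⟨a, b⟩ := (hPc v).1 h1
        obtain ⟨e1, e2, e3⟩ := blk v v0 a b a0 b0 h2 (by rw [h3])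
        obtain ⟨a1, a2, a3, -⟩ := P.top_mem v a b
        have e4 := congrArg Prod.snd h3
        rw [hβ, hβ, h2, e1, e2, e3, add_left_inj] at e4
        exact mem_coe.2 (mem_filter.2 ⟨a1, a2.trans h2, a3.trans e1, e2, e4⟩)
      · obtain ⟨h1, h2, -⟩ := mem_filter.1 (mem_coe.1 h)
        obtain ⟨h3, h4, -⟩ := mem_filter.1 (mem_coe.1 h')
        exact P.ix_inj u v ((hPc u).1 h1).1 ((hPc u).1 h1).2 ((hPc v).1 h3).1 ((hPc v).1 h3).2 e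
          (Fin.ext (h2.trans h4.symm)))
    (fun χ j i1 i2 i3 x b => by
      rcases ({v ∈ Pc | (P.ix v : ℕ) = j ∧ χ (F.par v) = x ∧ β v = b}).eq_empty_or_nonempty with
        h | ⟨v0, h00⟩
      · rw [h]
        exact Nat.zero_le _
      obtain ⟨h0, j0, x0, rfl⟩ := mem_filter.1 h00
      obtain ⟨a0, b0⟩ := (hPc v0).1 h0
      by_cases z0 : F.par v0 ∈ F.Z
      · refine le_trans (card_le_card fun v hv => ?_) (c3 x (β v0).1 (β v0).2)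
        obtain ⟨h1, h2, h3, h4⟩ := mem_filter.1 hv
        obtain ⟨a, b⟩ := (hPc v).1 h1
        have z : F.par v ∈ F.Z := by
          by_contra z
          have := (inn v a b z).2.1
          rw [Fin.lt_def, h2, ← j0, (rt v0 a0 b0 z0).2.2.1] at this
          exact Nat.not_lt_zero _ this
        obtain ⟨t1, t2, -, t4⟩ := rt v a b z
        rw [← h4, t4]
        exact mem_filter.2 ⟨t1, by rw [t2, ← i1 _ z, h3], rfl, rfl⟩
      · obtain ⟨-, f1, f2, x', y', f3, f4, f5, f6, f7⟩ := inn v0 a0 b0 z0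
        have key : ∀ v ∈ Pc, (P.ix v : ℕ) = j → χ (F.par v) = x → F.par v ∉ F.Z ∧
            F.par v ∈ Pc ∧ (P.ix (F.par v) : ℕ) < j ∧ S.lb x = some (β (F.par v)) := by
          intro v h1 h2 h3
          obtain ⟨a, b⟩ := (hPc v).1 h1
          have z : F.par v ∉ F.Z := fun z => by
            rw [Fin.lt_def, j0, ← h2, (rt v a b z).2.2.1] at f1
            exact Nat.not_lt_zero _ f1
          have z1 := (hPc _).2 ⟨z, nL v a⟩
          have z2 : (P.ix (F.par v) : ℕ) < j := h2 ▸ (inn v a b z).2.1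
          exact ⟨z, z1, z2, h3 ▸ i2 _ z1 z2⟩
        refine le_trans (card_le_card_of_injOn
          (fun v => (F.tr v, P.lab v, bn (F.top v), P.ix v)) (fun v hv => ?_) fun u h v h' e => ?_)
          (d1' (x'.1, y'.1) (y'.2 - x'.2))
        · obtain ⟨h1, h2, h3, h4⟩ := mem_filter.1 (mem_coe.1 hv)
          obtain ⟨a, b⟩ := (hPc v).1 h1
          obtain ⟨z, -, -, z3⟩ := key v h1 h2 h3
          have z4 := Option.some.inj (z3.symm.trans (key v0 h0 j0 x0).2.2.2)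
          obtain ⟨-, -, g2, x'', y'', g3, g4, g5, g6, g7⟩ := inn v a b z
          rw [z4, h4] at g7
          refine mem_coe.2 (mem_filter.2 ⟨g2, ?_⟩)
          rw [g5, g6]
          rcases f7 with ⟨-, rfl, rfl⟩ | ⟨-, rfl, rfl⟩ <;>
            rcases g7 with ⟨-, rfl, rfl⟩ | ⟨-, rfl, rfl⟩ <;>
            first | exact ⟨rfl, rfl⟩ | omega
        · obtain ⟨h1, h2, h3, -⟩ := mem_filter.1 (mem_coe.1 h)
          obtain ⟨k1, k2, k3, -⟩ := mem_filter.1 (mem_coe.1 h')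
          obtain ⟨a, b⟩ := (hPc u).1 h1
          obtain ⟨a', b'⟩ := (hPc v).1 k1
          obtain ⟨z, z1, z2, z3⟩ := key u h1 h2 h3
          obtain ⟨w, w1, -, w3⟩ := key v k1 k2 k3
          have ht : F.tr (F.par u) = F.tr (F.par v) := by
            rw [F.tr_par, F.tr_par]
            exact (Prod.mk.inj e).1
          have e1 := i3 _ z1 _ w1 z2 (congrArg Fin.val (blk _ _ z (nL u a) w (nL v a') ht
            (by rw [Option.some.inj (z3.symm.trans w3)])).2.2) (h3.trans k3.symm) ht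
          exact P.ix_inj u v a b a' b' (by rw [← (inn u a b z).1, e1, (inn v a' b' w).1])
            (Fin.ext (h2.trans k2.symm)))
  have l2 : ∀ v, v ∉ F.Z → v ∉ F.La → co (ψ v) = (β v).1 := fun v a b =>
    hco _ _ (ψ2 v ((hPc v).2 ⟨a, b⟩)).2.1
  have l3 : ∀ u v, u ∉ F.Z → u ∉ F.La → v ∉ F.Z → v ∉ F.La → ψ u = ψ v → β u = β v :=
    fun u v a b a' b' h => Option.some.inj
      ((ψ2 u ((hPc u).2 ⟨a, b⟩)).2.1.symm.trans (h ▸ (ψ2 v ((hPc v).2 ⟨a', b'⟩)).2.1))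
  have hinj : ∀ u v, u ∉ F.La → v ∉ F.La → F.tr u = F.tr v → ψ u = ψ v → u = v := by
    have mixed : ∀ u v, u ∈ F.Z → v ∉ F.Z → v ∉ F.La → F.tr u = F.tr v → ψ u ≠ ψ v := by
      intro u v h1 h2 h3 ht h
      obtain ⟨j, hj⟩ := p1 u h1
      rw [← ψ1 u h1, h, l2 v h2 h3, hβ, ht] at hj
      exact M.bl_ne _ _ _ _ _ (hb v h2 h3) (hu v h2 h3) hj
    intro u v h1 h2 ht h
    by_cases a : u ∈ F.Z <;> by_cases b : v ∈ F.Z
    · exact p2 u a v b ht (by rwa [ψ1 u a, ψ1 v b] at h)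
    · exact absurd h (mixed u v a b h2 ht)
    · exact absurd h.symm (mixed v u b a h1 ht.symm)
    · exact ψ3 u ((hPc u).2 ⟨a, h1⟩) v ((hPc v).2 ⟨b, h2⟩) (congrArg Fin.val
        (blk u v a h1 b h2 ht (by rw [l3 u v a h1 b h2 h])).2.2) h (Or.inl ht)
  have cls : ∀ u, u ∉ F.R → u ∉ F.La → F.par u ∉ F.La →
      (u ∈ F.Z ∧ F.par u ∈ F.Z ∧ M.kd (co (ψ u)) (co (ψ (F.par u))) = 0 ∧
        M.kd (co (ψ (F.par u))) (co (ψ u)) = 0) ∨
      (u ∉ F.Z ∧ P.ix u = 0 ∧ M.kd (co (ψ u)) (co (ψ (F.par u))) = 4 ∧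
        (M.kd (co (ψ (F.par u))) (co (ψ u)) = 2 ∨ M.kd (co (ψ (F.par u))) (co (ψ u)) = 3)) ∨
      (u ∉ F.Z ∧ F.par u ∉ F.Z ∧ ((M.kd (co (ψ u)) (co (ψ (F.par u))) = 1 ∧
        M.kd (co (ψ (F.par u))) (co (ψ u)) = 5) ∨ (M.kd (co (ψ u)) (co (ψ (F.par u))) = 5 ∧
        M.kd (co (ψ (F.par u))) (co (ψ u)) = 1))) := by
    intro u h1 h2 h3
    by_cases a : u ∈ F.Z
    · have b := (F.par_Z u a h1).resolve_right h3
      obtain ⟨j, hj⟩ := p1 u a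
      obtain ⟨j', hj'⟩ := p1 _ b
      rw [F.tr_par] at hj'
      refine Or.inl ⟨a, b, ?_⟩
      rw [ψ1 u a, ψ1 _ b, hj, hj']
      exact ⟨M.kd_core _ _ _, M.kd_core _ _ _⟩
    by_cases b : F.par u ∈ F.Z
    · obtain ⟨t, -, t2, t3⟩ := rt u a h2 b
      obtain ⟨j, hj⟩ := p1 _ b
      obtain ⟨k1, k2⟩ := M.kd_root _ _ _ j (c1 u t) (P.us0 t)
      refine Or.inr (Or.inl ⟨a, t2, ?_⟩)
      rw [l2 u a h2, t3, ψ1 _ b, hj, F.tr_par, k1, k2]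
      split_ifs <;> simp
    · obtain ⟨-, -, -, x, y, f3, f4, -, -, f7⟩ := inn u a h2 b
      refine Or.inr (Or.inr ⟨a, b, ?_⟩)
      rw [l2 u a h2, l2 _ b h3]
      rcases f7 with ⟨-, rfl, rfl⟩ | ⟨-, rfl, rfl⟩
      · exact Or.inr ⟨f4, f3⟩
      · exact Or.inl ⟨f3, f4⟩
  have mark : ∀ (y : H) (s : Finset V) (f : V → V), Set.InjOn f s →
      (∀ u ∈ s, f u ∉ F.Z ∧ f u ∉ F.La ∧ (F.par (f u) ∈ F.La ∨ ∃ u' ∈ F.La, F.par u' = f u) ∧
        ψ (f u) = y) → #s ≤ Mk := by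
    intro y s f hf hs
    refine le_trans (card_le_card_of_injOn
      (fun u => (F.tr (f u), P.lab (f u), bn (F.top (f u)), P.ix (f u))) (fun u h => ?_)
      (fun u h v h' e => ?_)) (M.cnt_ma (co y))
    · obtain ⟨a, b, c, d⟩ := hs u h
      simp only [coe_filter, mem_univ, true_and, Set.mem_ofPred_eq]
      exact ⟨hb _ a b, hu _ a b, P.mark _ a b c, by rw [← d, l2 _ a b, hβ]⟩
    · exact hf h h' (hinj _ _ (hs u h).2.1 (hs v h').2.1 (Prod.mk.inj e).1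
        ((hs u h).2.2.2.trans (hs v h').2.2.2.symm))
  refine ⟨ψ, fun v hv => ?_, hinj, fun v h1 h2 h3 => ?_, fun u v h1 h2 h3 h4 h5 h6 h => ?_,
    fun y => ?_⟩
  · by_cases a : v ∈ F.Z
    · obtain ⟨b, j, c, d⟩ := p0 v a
      rw [ψ1 v a, d]
      exact ⟨b, by simp⟩
    · obtain ⟨b, c, -⟩ := ψ2 v ((hPc v).2 ⟨a, hv⟩)
      exact ⟨b, by simp [c]⟩
  · by_cases a : v ∈ F.Z
    · have b := (F.par_Z v a h1).resolve_right h3
      rw [ψ1 v a, ψ1 _ b]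
      exact pa v a h1 b
    · exact (ψ2 v ((hPc v).2 ⟨a, h2⟩)).2.2
  · have e3 := Sym2.eq_iff.1 h
    have e6 : (M.kd (co (ψ u)) (co (ψ (F.par u))) = M.kd (co (ψ v)) (co (ψ (F.par v))) ∧
        M.kd (co (ψ (F.par u))) (co (ψ u)) = M.kd (co (ψ (F.par v))) (co (ψ v))) ∨
        (M.kd (co (ψ u)) (co (ψ (F.par u))) = M.kd (co (ψ (F.par v))) (co (ψ v)) ∧
        M.kd (co (ψ (F.par u))) (co (ψ u)) = M.kd (co (ψ v)) (co (ψ (F.par v)))) :=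
      e3.imp (fun a => by rw [a.1, a.2]; exact ⟨rfl, rfl⟩) fun a => by
        rw [a.1, a.2]; exact ⟨rfl, rfl⟩
    rcases cls u h1 h3 h4 with ⟨a1, a2, a3, a4⟩ | ⟨a1, a2, a3, a4⟩ | ⟨a1, a2, a3⟩ <;>
      rcases cls v h2 h5 h6 with ⟨b1, b2, b3, b4⟩ | ⟨b1, b2, b3, b4⟩ | ⟨b1, b2, b3⟩
    · exact p3 u a1 v b1 h1 h2 a2 b2 (by rwa [ψ1 _ a1, ψ1 _ a2, ψ1 _ b1, ψ1 _ b2] at h)
    any_goals (exfalso; omega)
    · rcases e3 with ⟨e4, e5⟩ | ⟨e4, e5⟩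
      · rw [ψ3 u ((hPc u).2 ⟨a1, h3⟩) v ((hPc v).2 ⟨b1, h5⟩) (by rw [a2, b2]) e4 (Or.inr e5)]
      · rw [e4, e5] at a3
        omega
    · obtain ⟨-, -, f2, x, y, f3, f4, f5, f6, f7⟩ := inn u a1 h3 a2
      obtain ⟨-, -, g2, x', y', g3, g4, g5, g6, g7⟩ := inn v b1 h5 b2
      have same : x = x' → y = y' → P.ix u = P.ix v ∧
          X.od (P.lab u) (P.ix u) = X.od (P.lab v) (P.ix v) := by
        rintro rfl rfl
        exact d1 _ f2 _ g2 (f5.trans g5.symm) (f6.trans g6.symm)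
      rcases e3 with ⟨e4, e5⟩ | ⟨e4, e5⟩
      · rw [l3 _ _ a1 h3 b1 h5 e4, l3 _ _ a2 h4 b2 h6 e5] at f7
        rw [ψ3 u ((hPc u).2 ⟨a1, h3⟩) v ((hPc v).2 ⟨b1, h5⟩) (congrArg Fin.val ?_) e4 (Or.inr e5)]
        rcases f7 with ⟨-, rfl, rfl⟩ | ⟨-, rfl, rfl⟩ <;>
          rcases g7 with ⟨-, rfl, rfl⟩ | ⟨-, rfl, rfl⟩ <;>
          first | exact (same rfl rfl).1 | omega
      · exfalso
        rw [l3 _ _ a1 h3 b2 h6 e4, l3 _ _ a2 h4 b1 h5 e5] at f7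
        rcases f7 with ⟨o1, rfl, rfl⟩ | ⟨o1, rfl, rfl⟩ <;>
          rcases g7 with ⟨o2, rfl, rfl⟩ | ⟨o2, rfl, rfl⟩ <;>
          first | omega | simpa [o1, o2] using (same rfl rfl).2
  · have e1 := mark y {u ∈ F.La | F.par u ∉ F.Z ∧ ψ (F.par u) = y} F.par
      (fun u h v h' e => F.one_La u (mem_filter.1 h).1 v (mem_filter.1 h').1 e (mem_filter.1 h).2.1)
      (fun u h => ⟨(mem_filter.1 h).2.1, F.par_La u (mem_filter.1 h).1,
        Or.inr ⟨u, (mem_filter.1 h).1, rfl⟩, (mem_filter.1 h).2.2⟩)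
    have e2 := mark y {u | u ∉ F.Z ∧ F.par u ∈ F.La ∧ ψ u = y} id (Set.injOn_id _)
      (fun u h => ⟨(mem_filter.1 h).2.1, fun h' => F.par_La u h' (mem_filter.1 h).2.2.1,
        Or.inl (mem_filter.1 h).2.2.1, (mem_filter.1 h).2.2.2⟩)
    have e3 := p5 y
    have e4 : #{u ∈ F.La | ψ (F.par u) = y} ≤ #{u ∈ F.La | F.par u ∈ F.Z ∧ φ (F.par u) = y} +
        #{u ∈ F.La | F.par u ∉ F.Z ∧ ψ (F.par u) = y} := by
      refine le_trans (card_le_card fun u h => ?_) (card_union_le _ _)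
      by_cases a : F.par u ∈ F.Z
      · simpa [a, ψ1 _ a] using h
      · simpa [a] using h
    have e5 : #{u | u ∉ F.R ∧ F.par u ∈ F.La ∧ ψ u = y} ≤
        #{u ∈ F.Z | u ∉ F.R ∧ F.par u ∈ F.La ∧ φ u = y} +
        #{u | u ∉ F.Z ∧ F.par u ∈ F.La ∧ ψ u = y} := by
      refine le_trans (card_le_card fun u h => ?_) (card_union_le _ _)
      by_cases a : u ∈ F.Z
      · simpa [a, ψ1 _ a] using h
      · simpa [a, F.nR a] using h
    omega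

end Pool.Agent.Lib.MP_2b1ae8_co.GH
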