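import Pool.Agent.Lib.MP_2b1ae8_co.GH.Place
import Pool.Agent.Lib.MP_2b1ae8_co.AT.Params

/-! The parameters of the dense case. -/

set_option autoImplicit false

namespace Pool.Agent.Lib.MP_2b1ae8_co.GH

open AT

theorem par_size {u Q N q K Df r0 k : ℕ} (hQ : 200 * u + 1 ≤ Q) (h1 : Q * (N * q) ≤ (Q + 23) * k)
    (h2 : q = r0 * Df) (h3 : K * 2 * Q ≤ r0) :
    4 * u * (N * (r0 + K * 2) * Df) ≤ (4 * u + 1) * k := by
  have a1 : Q * (N * (r0 + K * 2) * Df) ≤ (Q + 1) * (N * q) := by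
    have : N * Df * (K * 2 * Q) ≤ N * Df * r0 := Nat.mul_le_mul_left _ h3
    rw [h2]
    nlinarith
  have a2 : 4 * u * ((Q + 1) * (Q + 23)) ≤ (4 * u + 1) * (Q * Q) := by
    have : 200 * u * Q ≤ Q * Q := Nat.mul_le_mul_right _ (by omega)
    have : u * 1 ≤ u * Q := Nat.mul_le_mul_left _ (by omega)
    nlinarith
  refine Nat.le_of_mul_le_mul_left (c := Q * Q) ?_ (Nat.mul_pos (by omega) (by omega))
  calc Q * Q * (4 * u * (N * (r0 + K * 2) * Df))
      = 4 * u * Q * (Q * (N * (r0 + K * 2) * Df)) := by ring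
    _ ≤ 4 * u * Q * ((Q + 1) * (N * q)) := Nat.mul_le_mul_left _ a1
    _ = 4 * u * (Q + 1) * (Q * (N * q)) := by ring
    _ ≤ 4 * u * (Q + 1) * ((Q + 23) * k) := Nat.mul_le_mul_left _ h1
    _ = 4 * u * ((Q + 1) * (Q + 23)) * k := by ring
    _ ≤ (4 * u + 1) * (Q * Q) * k := Nat.mul_le_mul_right _ a2
    _ = _ := by ring

theorem par_late {cw Q D K μ lam w k : ℕ} (hQ : 15 * cw + 1 ≤ Q) (hD : 3 * (Q * Q) ≤ D)
    (hK : K = 8 * (D + 1) * μ) (hlam : K * lam ≤ 2 * k + K) (hw : Q * w ≤ 5 * k)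
    (hk : K + 3 * (Q * (K + 2)) + 1 ≤ k) :
    3 * (k + 1) * (μ * lam) ≤ (k / Q + 1) * (k / Q + 1) ∧
      cw * (μ * lam + 2 * (w + (k / Q + 1) + K + 1) + (k / Q + 1)) < k := by
  obtain ⟨z, hz⟩ : ∃ z, z = k / Q + 1 := ⟨_, rfl⟩
  have z1 : k ≤ Q * z := hz ▸ (Nat.lt_mul_div_succ k (by omega)).le
  have z2 : Q * z ≤ k + Q := by
    have := Nat.mul_div_le k Q
    rw [hz, mul_add, mul_one]
    omega
  obtain ⟨o, ho⟩ : ∃ o, o = μ * lam := ⟨_, rfl⟩
  have o1 : 24 * (Q * Q * o) ≤ 3 * k := by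
    have a1 : K * lam = 8 * (D + 1) * o := by rw [hK, ho]; ring
    have a2 : 3 * (Q * Q) * o ≤ (D + 1) * o := Nat.mul_le_mul_right _ (by omega)
    nlinarith
  have o2 : 1 * (Q * o) ≤ Q * (Q * o) := Nat.mul_le_mul_right _ (by omega)
  rw [← hz, ← ho]
  constructor
  · refine Nat.le_of_mul_le_mul_left (c := Q * Q) ?_ (Nat.mul_pos (by omega) (by omega))
    calc Q * Q * (3 * (k + 1) * o) = 3 * (k + 1) * (Q * Q * o) := by ring
      _ ≤ 8 * k * (Q * Q * o) := Nat.mul_le_mul_right _ (by omega)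
      _ = k * (8 * (Q * Q * o)) := by ring
      _ ≤ k * k := Nat.mul_le_mul_left _ (by omega)
      _ ≤ Q * z * (Q * z) := Nat.mul_le_mul z1 z1
      _ = _ := by ring
  · refine Nat.lt_of_mul_lt_mul_left (a := Q) ?_
    have a1 : Q * (o + 2 * (w + z + K + 1) + z) ≤ 15 * k := by nlinarith
    calc Q * (cw * (o + 2 * (w + z + K + 1) + z)) = cw * (Q * (o + 2 * (w + z + K + 1) + z)) := by
          ring
      _ ≤ cw * (15 * k) := Nat.mul_le_mul_left _ a1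
      _ = 15 * cw * k := by ring
      _ < Q * k := Nat.mul_lt_mul_of_pos_right (by omega) (by omega)

theorem par_win {Q L D l : ℕ} (h : 3 * l ≤ Q) (hL : 1 ≤ L) :
    2 * D * ((8 * (D + 1) + 1) * l + Q * L * (D + 1)) ≤ 8 * Q * L * (D + 1) ^ 2 := by
  have a1 : Q * 1 ≤ Q * L := Nat.mul_le_mul_left _ hL
  have a2 : 3 * l * (D + 1) ^ 2 ≤ Q * L * (D + 1) ^ 2 := Nat.mul_le_mul_right _ (by omega)
  have a3 : 2 * D * (8 * (D + 1) + 1) * l ≤ 18 * (D + 1) ^ 2 * l :=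
    Nat.mul_le_mul_right _ (by nlinarith)
  have a4 : Q * L * (D + 1) * D ≤ Q * L * (D + 1) * (D + 1) := Nat.mul_le_mul_left _ (by omega)
  nlinarith

/-- The conditions of the fine structure. Here `v = a * r1 * f` and `x = m * r1 * f`. -/
theorem par_fine {K D g m Q s m0 lam e t Mh nb J r1 f a v x C θ : ℕ} (hQ : Q = s + 5)
    (ha : a = 8 * Q * (Q + 1)) (hv : v = a * r1 * f) (hx : x = m * r1 * f) (hm : m0 ≤ m)
    (hm' : 4 * (Q + 1) ≤ m) (ht : 0 < t) (hg : e * t = g + 1) (hy : e * t ≤ v)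
    (hC : (Mh + 1) ^ (e * (nb + 2)) ≤ C) (hr : r1 = Q * C + K + 1) (hJ : J ≤ f)
    (he : e * e + 2 * e < f) (he' : 4 * Q * e ≤ f) (hθ : θ = m * (20 * v))
    (hn : 0 < s * m0 * (20 * v) + J)
    (hM1 : Q * (20 * v) ≤ Mh * t) (hM2 : 2 * (2 * x) ≤ Mh * t) (hM3 : (D + 1) * lam ≤ Mh * t)
    (hθ' : (g + 1) * (s * m0 * (20 * v) + J) * (nb * (Q * (20 * v)) + 2 * (2 * x) + (D + 1) * lam)
      ≤ θ * (5 * v) ^ 2) :
    Num2 K D g m ((Q + 1) * (20 * v)) (Q * (20 * v)) (2 * x) lam e (5 * v) t θ Mh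
      (s * m0 * (20 * v) + J) nb J (a * r1 + K * 2) ((Q + 1) * (20 * f)) (Q * (20 * f)) (5 * f)
      (320 * Q * (Q + 1) * x * f) (5 * f) (2 * m * r1 + 2 * a * r1) (2 * Q * m * r1)
      (10 * (m * v) + a * r1) (4 * Q * m * (a * r1) * e) (8 * x + 7 * v) := by
  have Q1 : 5 ≤ Q := by omega
  have f1 : 1 ≤ f := by omega
  have r11 : 1 ≤ r1 := by omega
  have a1 : 2 * Q ≤ a := by rw [ha]; nlinarith
  have ar : 1 ≤ a * r1 := Nat.mul_pos (by omega) r11
  have fv : f ≤ v := hv ▸ Nat.le_mul_of_pos_left _ ar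
  have rv : a * r1 ≤ v := hv ▸ Nat.le_mul_of_pos_right _ f1
  have vm : v ≤ m * v := Nat.le_mul_of_pos_left _ (by omega)
  have ax : a * x = m * v := by rw [hv, hx]; ring
  have xm : x ≤ m * v := ax ▸ Nat.le_mul_of_pos_left _ (by omega)
  have x1 : 1 ≤ x := hx ▸ Nat.mul_pos (Nat.mul_pos (by omega) r11) f1
  have n1 : s * m0 * (20 * v) ≤ 20 * (s * (m * v)) := by
    have : s * m0 * (20 * v) ≤ s * m * (20 * v) :=
      Nat.mul_le_mul_right _ (Nat.mul_le_mul_left _ hm)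
    nlinarith
  have n2 : Q * (m * v) = s * (m * v) + 5 * (m * v) := by rw [hQ]; ring
  have n3 : s * m0 * (20 * v) + J ≤ 20 * (Q * (m * v)) := by omega
  have Kr : K * 2 ≤ a * r1 := by
    have : 2 * K ≤ a * r1 := Nat.mul_le_mul (by omega) (by omega)
    omega
  refine ⟨by omega, ht, hn, Nat.mul_pos (by omega) (by omega), hM1, hM2, hM3, hθ',
    Nat.mul_pos (by omega) (by omega), by omega, by positivity, by omega, ?_, by omega, ?_, ?_, ?_,
    ?_, ?_, ?_, ?_, ?_⟩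
  · have b1 : Q * (20 * f) * (Mh + 1) ^ (e * (nb + 2)) ≤ Q * (20 * f) * C :=
      Nat.mul_le_mul_left _ hC
    have b2 : 1 * (Q * C) * f ≤ a * r1 * f :=
      Nat.mul_le_mul_right _ (Nat.mul_le_mul (by omega) (by omega))
    have b3 : Q * (20 * f) * (m * (a * r1 + K * 2)) =
        20 * (Q * (m * v)) + Q * (20 * f) * (m * (K * 2)) := by rw [hv]; ring
    have b4 : Q * (20 * f) * C = 20 * (1 * (Q * C) * f) := by ring
    omega
  · have : (2 * m * r1 + 2 * a * r1) * (5 * f) = 10 * x + 10 * v := by rw [hv, hx]; ring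
    omega
  · calc _ ≤ 20 * (Q * (m * v)) * (2 * (2 * x)) := Nat.mul_le_mul_right _ n3
      _ = _ := by rw [hv, ha]; ring
  · have b1 : (10 * (m * v) + a * r1) * (5 * f) = 400 * (Q * (Q + 1) * x * f) + 5 * v := by
      rw [← ax, hv, ha]; ring
    have b2 : Q * 1 * x * f ≤ Q * (Q + 1) * x * f := by gcongr; omega
    have b3 : 320 * Q * (Q + 1) * x * f = 320 * (Q * (Q + 1) * x * f) := by ring
    have b4 : Q * (20 * f) * (2 * (2 * x)) = 80 * (Q * 1 * x * f) := by ring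
    omega
  · calc _ ≤ 20 * (Q * (m * v)) * e := Nat.mul_le_mul_right _ n3
      _ = _ := by rw [hv]; ring
  · have b1 : 4 * Q * m * (a * r1) * e ≤ m * v := by
      have : m * (a * r1) * (4 * Q * e) ≤ m * (a * r1) * f := Nat.mul_le_mul_left _ he'
      rw [hv]
      nlinarith
    have b2 : 4 * (Q + 1) * v ≤ m * v := Nat.mul_le_mul_right _ hm'
    have b3 : (Q + 1) * f ≤ (Q + 1) * v := Nat.mul_le_mul_left _ fv
    have b4 : (Q + 1) * x * 1 ≤ (Q + 1) * x * Q := Nat.mul_le_mul_left _ (by omega)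
    have b5 : m * v = 8 * ((Q + 1) * x * Q) := by rw [← ax, ha]; ring
    have b6 : (1 + (2 * m * r1 + 2 * a * r1) + 2 * Q * m * r1) * ((Q + 1) * (20 * f)) =
        20 * ((Q + 1) * f) + 40 * ((Q + 1) * x * 1) + 10 * (4 * (Q + 1) * v) +
          40 * ((Q + 1) * x * Q) := by rw [hv, hx]; ring
    have b7 : m * (a * r1 + K * 2) * ((Q + 1) * (20 * f)) =
        20 * (Q * (m * v)) + 20 * (m * v) + m * (K * 2) * ((Q + 1) * (20 * f)) := by rw [hv]; ring
    have b8 : θ = 20 * (m * v) := by rw [hθ]; ring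
    have b9 : 4 * ((Q + 1) * v) = 4 * (Q + 1) * v := by ring
    omega
  · have : (Q + 1) * (20 * f) = Q * (20 * f) + 20 * f := by ring
    omega
  · have b1 : J * (a * r1 + K * 2) ≤ f * (2 * (a * r1)) := Nat.mul_le_mul hJ (by omega)
    have b2 : f * (2 * (a * r1)) = 2 * v := by rw [hv]; ring
    have b3 : (Q + 1) * (20 * f) * (a * r1 + K * 2) =
        Q * (20 * v) + 20 * v + (Q + 1) * (20 * f) * (K * 2) := by rw [hv]; ring
    omega
  · exact le_of_eq (by rw [hv]; ring)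

end Pool.Agent.Lib.MP_2b1ae8_co.GH
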