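import Pool.Agent.Lib.MP_2b1ae8_co.GH.St
import Pool.Agent.Lib.MP_2b1ae8_co.AT.Micro2

/-! Placing the cores in a general host. -/

set_option autoImplicit false
set_option linter.unusedSectionVars false

namespace Pool.Agent.Lib.MP_2b1ae8_co.GH

open Finset AT

/-- The numerical conditions of the embedding into fine blocks. `nb` is the number of blocks,
`J` the number of subclasses, `r` the number of fine blocks in a block. -/
structure Num2 (K D g m q q' ζ lam e η η' θ Mh n0 nb J r Df qE cap capT capp b1 b2 x1 x2 U0 : ℕ) :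
    Prop where
  hη : 0 < η
  hη' : 0 < η'
  hn0 : 0 < n0
  hq0 : 0 < q
  hM1 : q' ≤ Mh * η'
  hM2 : 2 * ζ ≤ Mh * η'
  hM3 : (D + 1) * lam ≤ Mh * η'
  hθ : (g + 1) * n0 * (nb * q' + 2 * ζ + (D + 1) * lam) ≤ θ * η ^ 2
  hqE : 0 < qE
  hcap : 0 < cap
  hcapT : 0 < capT
  hcapp : 0 < capp
  hroom : n0 + qE * (Mh + 1) ^ (e * (nb + 2)) ≤ qE * (m * r)
  hU0 : 4 * ζ + e * η' + η + g + 1 ≤ U0
  hb1 : U0 ≤ b1 * cap
  hb2 : n0 * (2 * ζ) ≤ b2 * capT
  hx1 : capT + g + 1 + qE * (2 * ζ) ≤ x1 * cap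
  hx2 : n0 * e ≤ x2 * capp
  hfree : n0 + ζ + U0 + θ + x1 + x2 + (1 + b1 + b2) * Df ≤ m * r * Df
  hEf : qE + 2 * e + 2 * cap + capp + e * e < Df
  hroot : q' + e * η' + η + g + 1 + J * r ≤ Df * r
  hsh : q + Df * (K * 2) ≤ Df * r

variable {V I Lb Bn BB CC Sb : Type} [Fintype V] [DecidableEq V] [Fintype I] [DecidableEq I]
  [Fintype Lb] [DecidableEq Lb] [Fintype Bn] [DecidableEq Bn] [Fintype BB] [DecidableEq BB]
  [DecidableEq CC] [Fintype Sb] [DecidableEq Sb] {K D g : ℕ} [NeZero K] {F : GF V I K D g}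
  {X : LD Lb K} {m q q' n0 Mk : ℕ} (P : LS F X) (M : MS I Lb Bn BB CC Sb X P.nn m q q' n0 Mk)
  {H : Type} [Fintype H] [DecidableEq H] {G : SimpleGraph H} [DecidableRel G.Adj]
  {r Df tw l : ℕ}

theorem place2 (hH : HubSt) (S : Host G (BB × Fin r) Df tw l) (π : V → Bool)
    (hπ : ∀ v, v ∉ F.R → v ∉ F.La → F.par v ∉ F.La → π (F.par v) = !π v)
    {ζ lam e η η' θ Mh J qE cap capT capp b1 b2 x1 x2 U0 : ℕ}
    (hZ : ∀ i, #{v ∈ F.Z | F.tr v = i} ≤ ζ) (hLa : ∀ i, #{v ∈ F.La | F.tr v = i} ≤ lam)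
    (hE : ∀ i, #{v ∈ F.E | F.tr v = i} ≤ e)
    (N : Num2 K D g m q q' ζ lam e η η' θ Mh n0 (Fintype.card BB) J r Df qE cap capT capp b1 b2
      x1 x2 U0) :
    ∃ φ : V → H, (∀ z ∈ F.Z, φ z ∈ S.X (π z) ∧
        ∃ j a, S.lb (φ z) = some (M.cb (M.cell (M.sc (F.tr z))) j, a)) ∧
      (∀ v ∈ F.Z, v ∉ F.R → F.par v ∈ F.Z → G.Adj (φ v) (φ (F.par v))) ∧
      (∀ u ∈ F.Z, ∀ v ∈ F.Z, F.tr u = F.tr v → φ u = φ v → u = v) ∧
      (∀ u ∈ F.Z, ∀ v ∈ F.Z, u ∉ F.R → v ∉ F.R → F.par u ∈ F.Z → F.par v ∈ F.Z →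
        s(φ u, φ (F.par u)) = s(φ v, φ (F.par v)) → F.tr u = F.tr v) ∧
      (∀ x B κ, ∑ t ∈ P.Tp with φ (P.hub t) = x ∧ X.kp (P.lab t) = κ, rho P M B t ≤
        (q' + e * η' + η + g + 1 : ℕ)) ∧
      ∀ x, #{u ∈ F.La | F.par u ∈ F.Z ∧ φ (F.par u) = x} +
        #{u ∈ F.Z | u ∉ F.R ∧ F.par u ∈ F.La ∧ φ u = x} ≤
          2 * ((D + 1) * lam) + e * η' + η + g + 1 := by
  classical
  let Bd : BB ⊕ Bool → ℝ := fun c =>
    c.elim (fun _ => (q' : ℝ)) (fun b => if b then ((D + 1) * lam : ℕ) else (2 * ζ : ℕ))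
  have hBd : ∀ c, 0 ≤ Bd c := by
    rintro (B | _ | _) <;> simp only [Bd, Sum.elim_inl, Sum.elim_inr] <;> positivity
  have hB0 : Bd (Sum.inr false) = 2 * ζ := by simp [Bd]
  let cl : V → CC := fun v => M.cell (M.sc (F.tr v))
  have hcp : ∀ v, cl (F.par v) = cl v := fun v => by simp only [cl, F.tr_par]
  obtain ⟨bin, hbin⟩ : ∃ bin : CC → H → Option (Fin m × Fin r), ∀ a y γ,
      bin a y = some γ ↔ S.lb y = some (M.cb a γ.1, γ.2) := by
    refine ⟨fun a y => if h : ∃ γ : Fin m × Fin r, S.lb y = some (M.cb a γ.1, γ.2) then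
      some h.choose else none, fun a y γ => ⟨fun h => ?_, fun h => ?_⟩⟩
    · beta_reduce at h
      split_ifs at h with h1
      exact (Option.some.inj h) ▸ h1.choose_spec
    · have h1 : ∃ γ : Fin m × Fin r, S.lb y = some (M.cb a γ.1, γ.2) := ⟨γ, h⟩
      simp only [dif_pos h1]
      obtain ⟨h2, h3⟩ := Prod.mk.inj (Option.some.inj (h1.choose_spec.symm.trans h))
      exact congrArg some (Prod.ext (M.cb_inj _ _ _ _ h2).2 h3)
  have hη := N.hη
  have hη' := N.hη'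
  choose φ p0 pa p1 p2 p3 p4 using fun a : CC => hH G S.X (bin a) Df S.ne
    (fun p x hx γ => by simpa only [hbin] using S.deg p x hx (M.cb a γ.1, γ.2))
    F.tr F.par F.dep F.R
    {v ∈ F.Z | cl v = a} {v ∈ F.E | cl v = a} {i | M.cell (M.sc i) = a} π (wt P M) (Sum.inr false)
    e Mh n0 ζ (g + 1) η η' Bd (fun v hv => by simpa using (mem_filter.1 hv).2)
    (filter_subset_filter _ F.E_sub) F.tr_par (fun v hv => by have := F.dep_par v hv; omega)
    (fun v hv h1 h2 => hπ v h1 (F.disj v (mem_filter.1 hv).1) (F.disj _ (mem_filter.1 h2).1))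
    (wt_nonneg P M) hBd (by positivity) (by positivity) (by positivity)
    (fun v _ => by
      simp only [wt, add_le_add_iff_left, Nat.cast_le]
      exact card_le_card (filter_subset_filter _ (filter_subset _ _)))
    (fun i => (card_le_card (filter_subset_filter _ (filter_subset _ _))).trans (hE i))
    (fun i => (card_le_card (filter_subset_filter _ (filter_subset _ _))).trans (hZ i))
    (fun v hv h u hu u' hu' => F.one_E v (mem_filter.1 hv).1
      (fun h' => h (mem_filter.2 ⟨h', (mem_filter.1 hv).2⟩)) u (mem_filter.1 hu).1 u'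
      (mem_filter.1 hu').1)
    (fun v hv h => wt_small P M (mem_filter.1 hv).1
      (fun h' => h (mem_filter.2 ⟨h', (mem_filter.1 hv).2⟩)))
    (fun i c => (sum_le_sum_of_subset_of_nonneg (filter_subset_filter _ (filter_subset _ _))
      fun v _ _ => wt_nonneg P M v c).trans (wt_tree P M ζ lam hZ hLa i c))
    (by
      have := N.hM1
      have := N.hM2
      have := N.hM3
      rintro (B | _ | _) <;> simp only [Bd, Sum.elim_inl, Sum.elim_inr, Bool.false_eq_true,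
        if_true, if_false] <;> assumption_mod_cast)
    (M.cnt_cell a) N.hn0 qE cap capT capp b1 b2 x1 x2 U0 θ N.hqE N.hcap N.hcapT N.hcapp
    (by simpa using N.hroom)
    (by
      have : ((4 * ζ + e * η' + η + g + 1 : ℕ) : ℝ) ≤ U0 := by exact_mod_cast N.hU0
      push_cast at this
      rw [hB0]
      linarith)
    (by
      simp only [Bd, Fintype.sum_sum_type, Sum.elim_inl, Sum.elim_inr, Fintype.sum_bool,
        sum_const, card_univ, nsmul_eq_mul, Bool.false_eq_true, if_true, if_false]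
      rw [add_comm (((D + 1) * lam : ℕ) : ℝ), ← add_assoc]
      exact_mod_cast N.hθ)
    N.hb1 (by rw [hB0]; exact_mod_cast N.hb2)
    (by rw [hB0, ← add_assoc]; exact_mod_cast N.hx1) N.hx2 (by simpa using N.hfree) N.hEf
  let ψ : V → H := fun z => φ (cl z) z
  have hl : ∀ z ∈ F.Z, ∃ j a, S.lb (ψ z) = some (M.cb (cl z) j, a) := fun z hz => by
    obtain ⟨γ, h⟩ := Option.ne_none_iff_exists'.1 (p0 _ z (mem_filter.2 ⟨hz, rfl⟩)).2
    exact ⟨_, _, (hbin _ _ _).1 h⟩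
  have hψ : ∀ u ∈ F.Z, ∀ v ∈ F.Z, ψ u = ψ v → cl u = cl v ∧ φ (cl v) u = φ (cl v) v :=
    fun u hu v hv h => by
      obtain ⟨j, a, h1⟩ := hl u hu
      obtain ⟨j', a', h2⟩ := hl v hv
      rw [h, h2] at h1
      have h3 := (M.cb_inj _ _ _ _ (Prod.mk.inj (Option.some.inj h1)).1).1
      exact ⟨h3.symm, by simpa only [ψ, h3] using h⟩
  have load : ∀ (x : H) c (s : Finset V) (b : ℝ), s ⊆ F.Z → 0 ≤ b →
      (∀ a y, ∑ v ∈ {v ∈ s | cl v = a} with φ a v = y, wt P M v c ≤ b) →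
      ∑ v ∈ s with ψ v = x, wt P M v c ≤ b := by
    intro x c s b hs hb h
    rcases (s.filter (ψ · = x)).eq_empty_or_nonempty with h0 | ⟨z, hz⟩
    · rw [h0, sum_empty]
      exact hb
    · refine (sum_le_sum_of_subset_of_nonneg (fun v hv => ?_) fun v _ _ => wt_nonneg P M v c).trans
        (h (cl z) (φ (cl z) z))
      obtain ⟨h1, h2⟩ := hψ v (hs (mem_filter.1 hv).1) z (hs (mem_filter.1 hz).1)
        ((mem_filter.1 hv).2.trans (mem_filter.1 hz).2.symm)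
      exact mem_filter.2 ⟨mem_filter.2 ⟨(mem_filter.1 hv).1, h1⟩, h2⟩
  have l1 : ∀ x c, ∑ v ∈ F.E with ψ v = x, wt P M v c ≤ Bd c + e * η' := fun x c =>
    load x c _ _ F.E_sub (by have := hBd c; positivity) fun a y => p3 a y c
  have l2 : ∀ x c, ∑ v ∈ F.Z \ F.E with ψ v = x, wt P M v c ≤ Bd c + η + (g + 1) := fun x c =>
    load x c _ _ sdiff_subset (by have := hBd c; positivity) fun a y => by
      convert p4 a y c using 3
      ext v
      simp only [mem_filter, mem_sdiff]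
      tauto
  refine ⟨ψ, fun z hz => ⟨(p0 _ z (mem_filter.2 ⟨hz, rfl⟩)).1, hl z hz⟩, fun v hv h1 h2 => ?_,
    fun u hu v hv ht h => ?_, fun u hu v hv hu' hv' pu pv h => ?_, fun x B κ => ?_, fun x => ?_⟩
  · simp only [ψ, hcp]
    exact pa _ v (mem_filter.2 ⟨hv, rfl⟩) h1 (mem_filter.2 ⟨h2, hcp v⟩)
  · obtain ⟨h1, h2⟩ := hψ u hu v hv h
    exact p1 _ u (mem_filter.2 ⟨hu, h1⟩) v (mem_filter.2 ⟨hv, rfl⟩) ht h2
  · have h1 : cl u = cl v := by
      rcases Sym2.eq_iff.1 h with ⟨a, -⟩ | ⟨a, -⟩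
      · exact (hψ _ hu _ hv a).1
      · exact (hψ _ hu _ pv a).1.trans (hcp v)
    refine p2 _ u (mem_filter.2 ⟨hu, h1⟩) v (mem_filter.2 ⟨hv, rfl⟩) hu' hv'
      (mem_filter.2 ⟨pu, (hcp u).trans h1⟩) (mem_filter.2 ⟨pv, hcp v⟩) ?_
    simpa only [ψ, hcp, h1] using h
  · have e1 := l1 x (Sum.inl B)
    have e2 := l2 x (Sum.inl B)
    simp only [Bd, Sum.elim_inl, wt] at e1 e2
    push_cast
    cases κ
    · refine (le_sum_fib _ _ _ _ _ (rho_nonneg P M B) fun r hr => ?_).trans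
        (e2.trans (by have : (0 : ℝ) ≤ e * η' := by positivity
                      linarith))
      obtain ⟨hr, h1, h2⟩ := mem_filter.1 hr
      have := P.hub_Z r hr
      exact ⟨hr, mem_filter.2 ⟨mem_sdiff.2 ⟨this.1, fun h => by simp [this.2.2.1.2 h] at h2⟩, h1⟩⟩
    · refine (le_sum_fib _ _ _ _ _ (rho_nonneg P M B) fun r hr => ?_).trans
        (e1.trans (by have : (0 : ℝ) ≤ η + g := by positivity
                      linarith))
      obtain ⟨hr, h1, h2⟩ := mem_filter.1 hr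
      exact ⟨hr, mem_filter.2 ⟨(P.hub_Z r hr).2.2.1.1 h2, h1⟩⟩
  · have e1 := l1 x (Sum.inr true)
    have e2 := l2 x (Sum.inr true)
    have e3 : ∑ v ∈ F.Z with ψ v = x, wt P M v (Sum.inr true) =
        ∑ v ∈ F.Z \ F.E with ψ v = x, wt P M v (Sum.inr true) +
        ∑ v ∈ F.E with ψ v = x, wt P M v (Sum.inr true) := by
      simp only [sum_filter, sum_sdiff F.E_sub]
    have e4 := le_sum_fib F.La {u ∈ F.La | F.par u ∈ F.Z ∧ ψ (F.par u) = x}
      {v ∈ F.Z | ψ v = x} F.par (fun _ => 1) (fun _ => zero_le_one) fun u hu =>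
        ⟨(mem_filter.1 hu).1, mem_filter.2 (mem_filter.1 hu).2⟩
    have e5 : #{u ∈ F.Z | u ∉ F.R ∧ F.par u ∈ F.La ∧ ψ u = x} =
        #{u ∈ {v ∈ F.Z | ψ v = x} | u ∉ F.R ∧ F.par u ∈ F.La} := by
      congr 1
      ext u
      simp only [mem_filter]
      tauto
    rw [e5, ← Nat.cast_le (α := ℝ)]
    simp only [Bd, Sum.elim_inr, if_true] at e1 e2
    rw [← add_le_add_iff_left, ← e3] at e1
    simp only [wt, sum_add_distrib, sum_boole, sum_const, nsmul_eq_mul, mul_one] at e1 e2 e4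
    push_cast at e1 e2 ⊢
    linarith

end Pool.Agent.Lib.MP_2b1ae8_co.GH
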