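import Pool.Agent.Lib.MP_2b1ae8_co.GH.St

/-! A reservoir that is fair on all tests: sampling net and union bound. -/

set_option autoImplicit false

namespace Pool.Agent.Lib.MP_2b1ae8_co.GH

open Finset

namespace SpRes

lemma log_small {ε : ℝ} (hε : 0 < ε) :
    ∃ m0 : ℕ, ∀ m : ℕ, m0 ≤ m → Real.log (m + 1) ≤ ε * m := by
  obtain ⟨m0, h⟩ := exists_nat_ge (2 * |Real.log (ε / 4)| / ε)
  refine ⟨m0 + 1, fun m hm => ?_⟩
  have h1 : (m0 : ℝ) + 1 ≤ m := by exact_mod_cast hm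
  have h0 : (0 : ℝ) ≤ m0 := Nat.cast_nonneg _
  have h2 := Real.log_le_sub_one_of_pos (x := (m + 1) * (ε / 4)) (by positivity)
  rw [Real.log_mul (by positivity) (by positivity)] at h2
  rw [div_le_iff₀ hε] at h
  nlinarith [neg_abs_le (Real.log (ε / 4))]

lemma small {N m a : ℕ} {ε s : ℝ} (hl : Real.log (m + 1) ≤ ε * m) (h : N < (m + 1) ^ a)
    (h2 : a * (ε * m) ≤ s) : N * Real.exp (-s) < 1 := by
  rw [Real.exp_neg, ← div_eq_mul_inv, div_lt_one (Real.exp_pos _)]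
  have h3 : (N : ℝ) < (m + 1) ^ a := by exact_mod_cast h
  refine h3.trans_le ?_
  rw [← Real.exp_log (x := ((m : ℝ) + 1) ^ a) (by positivity), Real.log_pow]
  exact Real.exp_le_exp.2 ((mul_le_mul_of_nonneg_left hl (Nat.cast_nonneg _)).trans h2)

variable {V : Type} [Fintype V] [DecidableEq V] (G : SimpleGraph V) [DecidableRel G.Adj]

/-- A sample that estimates all degrees into `Z`. -/
lemma net (h : LabelSt) {m : ℕ} (hm : 0 < m) {c : ℝ} (hc : 0 < c)
    (hJ : ((2 * Fintype.card V : ℕ) : ℝ) * Real.exp (-(m / (32 * c ^ 2))) < 1) (x : V)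
    (Z : Finset V) :
    ∃ f : Fin m → V, ∀ w, |(#Z : ℝ) / m * #{i | G.Adj w (f i)} - dg G w Z| ≤ #Z / (4 * c) := by
  rcases Z.eq_empty_or_nonempty with rfl | hZ
  · exact ⟨fun _ => x, fun w => by simp [dg]⟩
  have : Nonempty Z := hZ.to_subtype
  have hm' : (0 : ℝ) < m := by exact_mod_cast hm
  have hz : (0 : ℝ) < #Z := by exact_mod_cast hZ.card_pos
  obtain ⟨ω, hω⟩ := h (P := Fin m) (F := Z) (univ : Finset (V × Bool)) (fun _ => univ)
    (fun i => {y | G.Adj i.1 y ↔ i.2 = true}) (fun _ => m / (4 * c)) (m / (32 * c ^ 2))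
    (fun _ _ => by positivity) (by positivity)
    (fun _ _ => le_of_eq (by rw [card_univ, Fintype.card_fin]; field_simp; norm_num))
    (by rwa [card_univ, Fintype.card_prod, Fintype.card_bool, mul_comm (Fintype.card V)])
  refine ⟨fun i => ω i, fun w => ?_⟩
  have h1 := hω (w, true) (mem_univ _)
  have h2 := hω (w, false) (mem_univ _)
  simp only [card_univ, Fintype.card_fin, Fintype.card_coe, mem_filter, mem_univ, true_and,
    iff_true, Bool.false_eq_true, iff_false] at h1 h2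
  have e1 : #{y : Z | G.Adj w y} = dg G w Z := by
    rw [dg]
    exact card_bij (fun y _ => y.1) (fun y hy => mem_filter.2 ⟨y.2, (mem_filter.1 hy).2⟩)
      (fun _ _ _ _ e => Subtype.ext e) fun y hy =>
        ⟨⟨y, (mem_filter.1 hy).1⟩, mem_filter.2 ⟨mem_univ _, (mem_filter.1 hy).2⟩, rfl⟩
  have e2 : (#{y : Z | G.Adj w y} : ℝ) + #{y : Z | ¬ G.Adj w y} = #Z := by
    rw [← Nat.cast_add, card_filter_add_card_filter_not, card_univ, Fintype.card_coe]
  have e3 : (#{i | G.Adj w (ω i)} : ℝ) + #{i | ¬ G.Adj w (ω i)} = m := by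
    rw [← Nat.cast_add, card_filter_add_card_filter_not, card_univ, Fintype.card_fin]
  rw [e1] at h1 e2
  rw [div_le_iff₀ hz] at h1 h2
  have e4 : (#Z : ℝ) / m * #{i | G.Adj w (ω i)} - dg G w Z =
      (#Z * #{i | G.Adj w (ω i)} - m * dg G w Z) / m := by field_simp
  have e5 : (#Z : ℝ) / (4 * c) * m = m / (4 * c) * #Z := by ring
  rw [e4, abs_div, abs_of_pos hm', div_le_iff₀ hm', e5, abs_le]
  rw [eq_sub_of_add_eq' e2, eq_sub_of_add_eq' e3] at h2
  constructor <;> linarith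

/-- The test sets. -/
noncomputable def Test (A : Finset V) (R t : ℕ) {m : ℕ} (x : V) (z : ℕ) (f : Fin m → V) :
    Finset V :=
  {w ∈ A | G.Adj x w ∧ 3 / 4 * (R * t : ℝ) + 2 * dg G w A ≤
    R * (dg G w A - (z : ℝ) / m * #{i | G.Adj w (f i)})}

omit [Fintype V] in
lemma dg_sdiff (w : V) {A Z : Finset V} (h : Z ⊆ A) :
    (dg G w (A \ Z) : ℝ) = dg G w A - dg G w Z := by
  rw [eq_sub_iff_add_eq, ← Nat.cast_add, dg, dg, dg, ← card_union_of_disjoint
    (disjoint_filter_filter sdiff_disjoint), ← filter_union, sdiff_union_of_subset h]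

/-- A labelling that is fair on the neighbourhoods and on the test sets. -/
lemma label (h : LabelSt) (A : Finset V) {R t z m : ℕ} (hR : 0 < R) {s : ℝ} (hs : 0 < s)
    (h1 : ∀ x ∈ A, 2 * s * R ^ 2 ≤ dg G x A) (h2 : 32 * s * R ^ 2 ≤ t)
    (hJ : ((Fintype.card V + Fintype.card V * ((z + 1) * Fintype.card V ^ m) : ℕ) : ℝ) *
      Real.exp (-s) < 1) :
    ∃ W : Finset V, (∀ x ∈ A, R * dg G x (A ∩ W) ≤ 2 * dg G x A) ∧
      ∀ x, ∀ z' ≤ z, ∀ f : Fin m → V, t ≤ 4 * #(Test G A R t x z' f) →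
        t ≤ 8 * R * #(Test G A R t x z' f ∩ W) := by
  have : NeZero R := ⟨hR.ne'⟩
  have hR' : (0 : ℝ) < R := by exact_mod_cast hR
  let J : Finset (V × ℕ × (Fin m → V)) :=
    {i ∈ univ ×ˢ range (z + 1) ×ˢ univ | t ≤ 4 * #(Test G A R t i.1 i.2.1 i.2.2)}
  have p1 : ∀ x ∈ A, (0 : ℝ) < dg G x A := fun x hx => lt_of_lt_of_le (by positivity) (h1 x hx)
  have p2 : ∀ i ∈ J, 8 * s * R ^ 2 ≤ #(Test G A R t i.1 i.2.1 i.2.2) := fun i hi => by
    have : (t : ℝ) ≤ 4 * #(Test G A R t i.1 i.2.1 i.2.2) := by exact_mod_cast (mem_filter.1 hi).2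
    linarith
  obtain ⟨ω, hω⟩ := h (P := V) (F := Fin R) (A.disjSum J)
    (Sum.elim (fun x => {y ∈ A | G.Adj x y}) fun i => Test G A R t i.1 i.2.1 i.2.2)
    (Sum.elim (fun _ => univ.erase 0) fun _ => {0})
    (Sum.elim (fun x => dg G x A / R) fun i => #(Test G A R t i.1 i.2.1 i.2.2) / (2 * R)) s
    (by
      rintro (x | i) hi
      · exact div_pos (p1 x (inl_mem_disjSum.1 hi)) hR'
      · exact div_pos (lt_of_lt_of_le (by positivity) (p2 i (inr_mem_disjSum.1 hi)))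
          (by positivity)) hs
    (by
      rintro (x | i) hi
      · have k := mul_le_mul_of_nonneg_right (h1 x (inl_mem_disjSum.1 hi))
          (Nat.cast_nonneg (α := ℝ) (dg G x A))
        change 2 * s * (dg G x A : ℝ) ≤ (dg G x A / R : ℝ) ^ 2
        rw [div_pow, le_div_iff₀ (by positivity)]
        linarith
      · have k := mul_le_mul_of_nonneg_right (p2 i (inr_mem_disjSum.1 hi))
          (Nat.cast_nonneg (α := ℝ) #(Test G A R t i.1 i.2.1 i.2.2))
        change 2 * s * (#(Test G A R t i.1 i.2.1 i.2.2) : ℝ) ≤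
          (#(Test G A R t i.1 i.2.1 i.2.2) / (2 * R) : ℝ) ^ 2
        rw [div_pow, le_div_iff₀ (by positivity)]
        linarith)
    (lt_of_le_of_lt (mul_le_mul_of_nonneg_right (Nat.cast_le.2 (by
      rw [card_disjSum]
      refine Nat.add_le_add (card_le_univ _) ((card_filter_le _ _).trans (le_of_eq ?_))
      simp)) (Real.exp_pos _).le) hJ)
  refine ⟨univ.filter fun y => ω y = 0, fun x hx => ?_, fun x z' hz f ht => ?_⟩
  · have k := hω (.inl x) (inl_mem_disjSum.2 hx)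
    have e1 : (#{y ∈ {y ∈ A | G.Adj x y} | ω y ∈ univ.erase 0} : ℝ) +
        dg G x (A ∩ univ.filter fun y => ω y = 0) = dg G x A := by
      rw [← Nat.cast_add, dg, dg, ← card_filter_add_card_filter_not
        (s := {y ∈ A | G.Adj x y}) (fun y => ω y ∈ univ.erase 0)]
      congr 3
      ext y
      simp only [mem_filter, mem_inter, mem_univ, true_and, mem_erase, and_true, not_not]
      tauto
    have e2 : (#(univ.erase (0 : Fin R)) : ℝ) = R - 1 := by
      rw [card_erase_of_mem (mem_univ _), card_univ, Fintype.card_fin, Nat.cast_pred hR]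
    change (dg G x A * #(univ.erase (0 : Fin R)) : ℝ) / Fintype.card (Fin R) ≤
      #{y ∈ {y ∈ A | G.Adj x y} | ω y ∈ univ.erase 0} + (dg G x A / R : ℝ) at k
    rw [e2, Fintype.card_fin, eq_sub_of_add_eq e1, div_le_iff₀ hR', add_mul,
      div_mul_cancel₀ _ hR'.ne'] at k
    have : (R * dg G x (A ∩ univ.filter fun y => ω y = 0) : ℝ) ≤ 2 * dg G x A := by linarith
    exact_mod_cast this
  · have k := hω (.inr (x, z', f)) (inr_mem_disjSum.2 (mem_filter.2
      ⟨by simp [hz], ht⟩))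
    have e1 : {y ∈ Test G A R t x z' f | ω y ∈ ({0} : Finset (Fin R))} =
        Test G A R t x z' f ∩ univ.filter fun y => ω y = 0 := by
      ext y
      simp
    change (#(Test G A R t x z' f) * #({0} : Finset (Fin R)) : ℝ) / Fintype.card (Fin R) ≤
      #{y ∈ Test G A R t x z' f | ω y ∈ ({0} : Finset (Fin R))} +
        (#(Test G A R t x z' f) / (2 * R) : ℝ) at k
    have e2 : (#(Test G A R t x z' f) / (2 * R) : ℝ) * R = #(Test G A R t x z' f) / 2 := by
      field_simp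
    rw [e1, card_singleton, Fintype.card_fin, div_le_iff₀ hR', add_mul, e2] at k
    have h3 : (t : ℝ) ≤ 4 * #(Test G A R t x z' f) := by exact_mod_cast ht
    have : (t : ℝ) ≤ 8 * R * #(Test G A R t x z' f ∩ univ.filter fun y => ω y = 0) := by
      push_cast at k
      linarith
    exact_mod_cast this

lemma count {n z m : ℕ} (hm : 12 ≤ m) (hn : n ≤ (m + 1) ^ 8) (hz : z + 1 ≤ (m + 1) ^ 3) :
    n + n * ((z + 1) * n ^ m) < (m + 1) ^ (9 * m) := by
  have h1 : n * ((z + 1) * n ^ m) ≤ (m + 1) ^ (8 * m + 11) :=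
    calc _ ≤ (m + 1) ^ 8 * ((m + 1) ^ 3 * ((m + 1) ^ 8) ^ m) := by gcongr
      _ = _ := by
        rw [← pow_mul, ← pow_add, ← pow_add]
        congr 1
        omega
  have h2 : n ≤ (m + 1) ^ (8 * m + 11) := hn.trans (Nat.pow_le_pow_right (by omega) (by omega))
  have h3 : (m + 1) ^ (8 * m + 11) * (m + 1) ≤ (m + 1) ^ (9 * m) := by
    rw [← pow_succ]
    exact Nat.pow_le_pow_right (by omega) (by omega)
  have h4 : 0 < (m + 1) ^ (8 * m + 11) := by positivity
  nlinarith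

end SpRes

open SpRes in
theorem sp_res (h : LabelSt) : SpResSt := by
  intro R c0 c1 hR
  obtain ⟨D, hD⟩ : ∃ D : ℝ, D = ((c0 * c1 + 1 : ℕ) : ℝ) ^ 2 + c1 * R ^ 2 := ⟨_, rfl⟩
  have hc : (0 : ℝ) < ((c0 * c1 + 1 : ℕ) : ℝ) := by positivity
  have hD0 : 0 < D := by rw [hD]; positivity
  obtain ⟨m0, hm0⟩ := log_small (ε := 1 / (288 * D)) (by positivity)
  refine ⟨(m0 + c0 + 12) ^ 2, fun k hk V _ _ G _ A t z hV ht hz hA => ?_⟩
  obtain ⟨m, hm⟩ : ∃ m, m = Nat.sqrt k := ⟨_, rfl⟩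
  have m1 : m0 + c0 + 12 ≤ m := hm ▸ Nat.le_sqrt'.2 hk
  have m2 : m ^ 2 ≤ k := hm ▸ Nat.sqrt_le' k
  have m3 : k < (m + 1) ^ 2 := hm ▸ Nat.lt_succ_sqrt' k
  have hl := hm0 m (by omega)
  have k0 : 0 < k := lt_of_lt_of_le (by positivity) hk
  have c1p : 0 < c1 := Nat.pos_of_mul_pos_right (k0.trans_le ht)
  have hn : Fintype.card V ≤ (m + 1) ^ 8 :=
    hV.trans ((Nat.pow_le_pow_left m3.le 4).trans (le_of_eq (by ring)))
  have hz' : z + 1 ≤ (m + 1) ^ 3 := by
    have : c0 * k ≤ m * (m + 1) ^ 2 := Nat.mul_le_mul (by omega) m3.le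
    nlinarith
  have mr : (0 : ℝ) < m := by exact_mod_cast (by omega : 0 < m)
  have kr : (0 : ℝ) < k := by exact_mod_cast k0
  have cr : (1 : ℝ) ≤ c1 := by exact_mod_cast c1p
  have Rr : (0 : ℝ) < R := by exact_mod_cast hR
  have tr : (k : ℝ) ≤ c1 * t := by exact_mod_cast ht
  have e0 : (k : ℝ) / (32 * c1 * R ^ 2) * R ^ 2 = k / c1 / 32 := by field_simp
  have e1 : (k : ℝ) / c1 ≤ t := by rw [div_le_iff₀ (by linarith)]; linarith
  obtain ⟨W, hW, hW'⟩ := label G h A (t := t) (z := z) (m := m) hR (s := k / (32 * c1 * R ^ 2))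
    (by positivity)
    (fun x hx => by
      have : (k : ℝ) ≤ 3 * dg G x A := by exact_mod_cast hA x hx
      have := div_le_self kr.le cr
      rw [mul_assoc, e0]
      linarith)
    (by rw [mul_assoc, e0]; linarith)
    (small hl (count (by omega) hn hz') (by
      have h1 : (m : ℝ) ^ 2 ≤ k := by exact_mod_cast m2
      have h2 : ((9 * m : ℕ) : ℝ) * (1 / (288 * D) * m) = m ^ 2 / (32 * D) := by
        push_cast
        field_simp
        norm_num
      rw [h2, mul_assoc]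
      gcongr
      rw [hD]
      exact le_add_of_nonneg_left (by positivity)))
  refine ⟨W, hW, fun Z hZ hZz x hx hb => ?_⟩
  obtain ⟨f, hf⟩ := net G h (m := m) (by omega) hc
    (small (a := 9) hl (by
      have : 0 < (m + 1) ^ 8 := by positivity
      rw [pow_succ]
      nlinarith) (by
      have h2 : ((9 : ℕ) : ℝ) * (1 / (288 * D) * m) = m / (32 * D) := by
        push_cast
        field_simp
        norm_num
      rw [h2]
      gcongr
      rw [hD]
      exact le_add_of_nonneg_right (by positivity))) x Z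
  have e2 : (#Z : ℝ) / (4 * ((c0 * c1 + 1 : ℕ) : ℝ)) ≤ t / 4 := by
    have h1 : #Z ≤ t * (c0 * c1 + 1) := by
      have := Nat.mul_le_mul_left c0 ht
      nlinarith
    have h2 : (#Z : ℝ) ≤ t * ((c0 * c1 + 1 : ℕ) : ℝ) := by exact_mod_cast h1
    rw [div_le_iff₀ (by positivity)]
    linarith
  have e3 : ∀ w, R * ((#Z : ℝ) / m * #{i | G.Adj w (f i)} - dg G w Z) ≤ R * (t / 4) ∧
      R * (-(t / 4 : ℝ)) ≤ R * ((#Z : ℝ) / m * #{i | G.Adj w (f i)} - dg G w Z) := fun w =>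
    ⟨mul_le_mul_of_nonneg_left (abs_le.1 ((hf w).trans e2)).2 Rr.le,
      mul_le_mul_of_nonneg_left (abs_le.1 ((hf w).trans e2)).1 Rr.le⟩
  have h5 := hW' x _ hZz f (hb.trans (Nat.mul_le_mul_left _ (card_le_card fun w hw => by
    obtain ⟨w1, w2, w3⟩ := mem_filter.1 hw
    have w4 : (R * t + 2 * dg G w A : ℝ) ≤ R * dg G w (A \ Z) := by exact_mod_cast w3
    rw [dg_sdiff G w hZ] at w4
    exact mem_filter.2 ⟨w1, w2, by linarith [(e3 w).1]⟩)))
  refine h5.trans (Nat.mul_le_mul (by omega) (card_le_card fun w hw => ?_))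
  obtain ⟨w0, w5⟩ := mem_inter.1 hw
  obtain ⟨w1, w2, w3⟩ := mem_filter.1 w0
  refine mem_filter.2 ⟨mem_inter.2 ⟨w1, w5⟩, w2, ?_⟩
  have : (R * t + 4 * dg G w A : ℝ) ≤ 2 * R * dg G w (A \ Z) := by
    rw [dg_sdiff G w hZ]
    linarith [(e3 w).2]
  exact_mod_cast this

end Pool.Agent.Lib.MP_2b1ae8_co.GH
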