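import Pool.Agent.Lib.MP_2b1ae8_co.GH.Defs

/-! Asymptotic tree packing in general hosts: the statements of the parts. -/

set_option autoImplicit false
set_option linter.unusedVariables false

namespace Pool.Agent.Lib.MP_2b1ae8_co.GH

open Finset AT

/-- Galvin's theorem: list edge colouring of bipartite multigraphs. -/
def GalvinSt : Prop :=
  ∀ {E A B Γ : Type} [DecidableEq E] [DecidableEq A] [DecidableEq B] [DecidableEq Γ]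
    [Nonempty Γ] (s : Finset E) (l : E → A) (r : E → B) (d : ℕ)
    (hl : ∀ a, #{e ∈ s | l e = a} ≤ d) (hr : ∀ b, #{e ∈ s | r e = b} ≤ d)
    (L : E → Finset Γ) (hL : ∀ e ∈ s, d ≤ #(L e)),
    ∃ c : E → Γ, (∀ e ∈ s, c e ∈ L e) ∧
      ∀ e ∈ s, ∀ e' ∈ s, c e = c e' → (l e = l e' ∨ r e = r e') → e = e'

/-- A labelling that is fair on a given family of sets. -/
def LabelSt : Prop :=
  ∀ {P F ι : Type} [Fintype P] [DecidableEq P] [Fintype F] [DecidableEq F]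
    [Nonempty F] (J : Finset ι) (S : ι → Finset P) (B : ι → Finset F) (dv : ι → ℝ) (s : ℝ)
    (hdv : ∀ i ∈ J, 0 < dv i) (hs : 0 < s) (h : ∀ i ∈ J, 2 * s * #(S i) ≤ dv i ^ 2)
    (hJ : #J * Real.exp (-s) < 1),
    ∃ ω : P → F, ∀ i ∈ J,
      (#(S i) * #(B i) : ℝ) / Fintype.card F ≤ #{x ∈ S i | ω x ∈ B i} + dv i

/-- Two sides of large minimum degree with navigation sets. -/
def NavSt : Prop :=
  ∀ {H : Type} [Fintype H] [DecidableEq H] [Nonempty H] (G : SimpleGraph H)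
    [DecidableRel G.Adj] (d0 c t l γ : ℕ) (hc : 0 < c) (ht : 0 < t)
    (hδ : ∀ x, c * d0 + 2 * Fintype.card H ≤ c * dg G x univ)
    (h1 : (γ + t) * (2 * Fintype.card H) + t * d0 ≤ d0 * d0)
    (h2 : c * (t * l + 2 * Fintype.card H) ≤ γ * l),
    ∃ (X : Bool → Finset H) (E : H → Bool → ℕ → Finset H), (∀ p, (X p).Nonempty) ∧
      (∀ p, ∀ x ∈ X p, d0 ≤ dg G x (X (!p))) ∧ ∀ p, ∀ y ∈ X p,
        (∀ x ∈ E y p 1, G.Adj x y) ∧ (∀ i, E y p i ⊆ X (not^[i] p)) ∧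
        (∀ i, 1 ≤ i → ∀ x ∈ E y p (i + 1), t ≤ dg G x (E y p i)) ∧
        X (not^[l + 2] p) ⊆ E y p (l + 2)

/-- A dense graph carries a host structure. -/
def HostSt : Prop :=
  ∀ (u C : ℕ) (hu : 0 < u), ∃ cw l : ℕ, 0 < l ∧ ∀ Mf : ℕ, ∃ k0 : ℕ, ∀ k, k0 ≤ k →
    ∀ (H : Type) [Fintype H] [DecidableEq H] [Nonempty H] (G : SimpleGraph H) [DecidableRel G.Adj],
      Fintype.card H ≤ C * k → (∀ x, (u + 1) * k ≤ u * dg G x univ) →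
      ∀ (BF : Type) [Fintype BF] [DecidableEq BF] [Nonempty BF] (Df : ℕ), Fintype.card BF = Mf →
        4 * u * (Mf * Df) ≤ (4 * u + 1) * k →
        ∃ tw, k ≤ cw * tw ∧ Nonempty (Host G BF Df tw l)

/-- Every forest has windows. -/
def WinSt : Prop :=
  ∀ {V I : Type} [Fintype V] [DecidableEq V] [DecidableEq I] (T : Fo V I)
    (K D g l μ b : ℕ) (hK : 0 < K) (hD : 0 < D) (hg : 0 < g) (hl : 0 < l) (hb : K ≤ b * μ)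
    (h : 2 * D * ((b + 1) * l + μ) ≤ K), Nonempty (WF T K D g l μ)

/-- The windows are embedded last, in the reservoir. -/
def LateSt : Prop :=
  ∀ {V I H BF : Type} [Fintype V] [DecidableEq V] [Fintype I] [DecidableEq I]
    [Fintype H] [DecidableEq H] [DecidableEq BF] {T : Fo V I} {K D g l μ Df tw : ℕ}
    (W : WF T K D g l μ) (G : SimpleGraph H) [DecidableRel G.Adj] (S : Host G BF Df tw l)
    (hl : 0 < l) (ψ : V → H) (om U U' cW x3 : ℕ)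
    (hX : ∀ v, v ∉ W.F.La → ψ v ∈ S.X (W.π v) ∧ S.lb (ψ v) ≠ none)
    (hinj : ∀ u v, u ∉ W.F.La → v ∉ W.F.La → T.tr u = T.tr v → ψ u = ψ v → u = v)
    (hadj : ∀ v, v ∉ T.R → v ∉ W.F.La → W.F.par v ∉ W.F.La → G.Adj (ψ v) (ψ (W.F.par v)))
    (hedge : ∀ u v, u ∉ T.R → v ∉ T.R → u ∉ W.F.La → W.F.par u ∉ W.F.La → v ∉ W.F.La →
      W.F.par v ∉ W.F.La → s(ψ u, ψ (W.F.par u)) = s(ψ v, ψ (W.F.par v)) → T.tr u = T.tr v)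
    (huse : ∀ y, #{u ∈ W.F.La | ψ (W.F.par u) = y} +
      #{u | u ∉ T.R ∧ W.F.par u ∈ W.F.La ∧ ψ u = y} ≤ U)
    (hom : ∀ i, #{v ∈ W.Wn | T.tr v = i} ≤ om) (hU : U ≤ U') (hU' : cW + K + 1 ≤ U')
    (hcW : 0 < cW) (hx3 : 3 * Fintype.card I * om ≤ x3 * cW) (htw : om + 2 * U' + x3 < tw),
    ∃ f : V → H, (∀ u v, T.tr u = T.tr v → f u = f v → u = v) ∧
      (∀ v, v ∉ T.R → G.Adj (f v) (f (T.par v))) ∧
      ∀ u v, u ∉ T.R → v ∉ T.R → s(f u, f (T.par u)) = s(f v, f (T.par v)) →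
        T.tr u = T.tr v

/-- Placement of the cores in a general host. -/
def HubSt : Prop :=
  ∀ {V I C H Γ : Type} [Fintype V] [DecidableEq V] [DecidableEq I] [Fintype C]
    [Fintype H] [DecidableEq H] [Fintype Γ] [DecidableEq Γ]
    (G : SimpleGraph H) [DecidableRel G.Adj] (X : Bool → Finset H) (bin : H → Option Γ) (Df : ℕ)
    (hX : ∀ p, (X p).Nonempty)
    (hdeg : ∀ p, ∀ x ∈ X p, ∀ γ, Df ≤ #{y ∈ X (!p) | G.Adj x y ∧ bin y = some γ})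
    (tr : V → I) (par : V → V) (dep : V → ℕ) (R A E : Finset V) (TT : Finset I) (π : V → Bool)
    (w : V → C → ℝ) (c0 : C) (e M n0 ζ : ℕ) (g η η' : ℝ) (Bd : C → ℝ)
    (hA : ∀ v ∈ A, tr v ∈ TT) (hE : E ⊆ A) (htr : ∀ v, tr (par v) = tr v)
    (hdep : ∀ v, v ∉ R → dep (par v) < dep v)
    (hπ : ∀ v ∈ A, v ∉ R → par v ∈ A → π (par v) = !π v)
    (hw : ∀ v c, 0 ≤ w v c) (hBd : ∀ c, 0 ≤ Bd c) (hg : 0 ≤ g) (hη : 0 < η) (hη' : 0 < η')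
    (hc0 : ∀ v ∈ A, (1 : ℝ) + #{u ∈ A | u ∉ R ∧ par u = v} ≤ w v c0)
    (hcE : ∀ i, #{v ∈ E | tr v = i} ≤ e) (hcA : ∀ i, #{v ∈ A | tr v = i} ≤ ζ)
    (hone : ∀ v ∈ A, v ∉ E → ∀ u ∈ E, ∀ u' ∈ E, u ∉ R → u' ∉ R → par u = v → par u' = v → u = u')
    (hsmall : ∀ v ∈ A, v ∉ E → ∀ c, w v c ≤ g)
    (htot : ∀ i c, ∑ v ∈ A with tr v = i, w v c ≤ Bd c)
    (hM : ∀ c, Bd c ≤ M * η') (hn0 : #TT ≤ n0) (hn0' : 0 < n0)
    (qE cap capT capp b1 b2 x1 x2 U0 θ : ℕ) (hqE : 0 < qE) (hcap : 0 < cap) (hcapT : 0 < capT)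
    (hcapp : 0 < capp)
    (hroom : n0 + qE * (M + 1) ^ (e * Fintype.card C) ≤ qE * Fintype.card Γ)
    (hU0 : 2 * Bd c0 + e * η' + η + g ≤ U0) (hθ : g * n0 * ∑ c, Bd c ≤ θ * η ^ 2)
    (hb1 : U0 ≤ b1 * cap) (hb2 : n0 * Bd c0 ≤ b2 * capT)
    (hx1 : capT + g + qE * Bd c0 ≤ x1 * cap) (hx2 : n0 * e ≤ x2 * capp)
    (hfree : n0 + ζ + U0 + θ + x1 + x2 + (1 + b1 + b2) * Df ≤ Fintype.card Γ * Df)
    (hEf : qE + 2 * e + 2 * cap + capp + e * e < Df),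
    ∃ φ : V → H, (∀ v ∈ A, φ v ∈ X (π v) ∧ bin (φ v) ≠ none) ∧
      (∀ v ∈ A, v ∉ R → par v ∈ A → G.Adj (φ v) (φ (par v))) ∧
      (∀ u ∈ A, ∀ v ∈ A, tr u = tr v → φ u = φ v → u = v) ∧
      (∀ u ∈ A, ∀ v ∈ A, u ∉ R → v ∉ R → par u ∈ A → par v ∈ A →
        s(φ u, φ (par u)) = s(φ v, φ (par v)) → tr u = tr v) ∧
      (∀ x c, ∑ v ∈ E with φ v = x, w v c ≤ Bd c + e * η') ∧
      (∀ x c, ∑ v ∈ A \ E with φ v = x, w v c ≤ Bd c + η + g)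

/-- Levels of dangerous vertices and a minimiser of the boundary. -/
def SpCoreSt : Prop :=
  ∀ {V : Type} [Fintype V] [DecidableEq V] (G : SimpleGraph V) [DecidableRel G.Adj]
    (k a c j lam Ψ : ℕ) (B0 : Finset V) (hk : 0 < k) (hc : k ≤ c * a) (ha : a ≤ k)
    (h1 : ∀ x, x ∉ B0 → k + a ≤ dg G x univ) (h2 : ∀ x ∈ B0, dg G x univ ≤ k + a)
    (h3 : #B0 ≤ c * k) (hlam : lam ≤ k) (hΨ : 5 * c * (c + 2) ^ j * k ^ 2 ≤ Ψ)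
    (hn : Ψ < lam * Fintype.card V),
    ∃ (B : ℕ → Finset V) (A : Finset V), B0 ⊆ B 0 ∧ (∀ i, B i ⊆ B (i + 1)) ∧
      (∀ i x, x ∉ B (i + 1) → k ≤ dg G x (B i)ᶜ) ∧ A.Nonempty ∧ (∀ x ∈ A, x ∉ B j) ∧
      ∑ x ∈ A, dg G x Aᶜ ≤ Ψ ∧
      ∀ Q ⊆ A, ∑ x ∈ Q, dg G x Aᶜ ≤ ∑ x ∈ Q, dg G x (A \ Q) + lam * #Q

/-- No pockets: bounded cost of an escape. -/
def SpPocketSt : Prop :=
  ∀ {V : Type} [Fintype V] [DecidableEq V] (G : SimpleGraph V) [DecidableRel G.Adj]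
    (A : Finset V) (k a lam Ψ R t l s z : ℕ) (hdeg : ∀ x ∈ A, k + a ≤ dg G x univ)
    (hΨ : ∑ x ∈ A, dg G x Aᶜ ≤ Ψ)
    (hmin : ∀ Q ⊆ A, ∑ x ∈ Q, dg G x Aᶜ ≤ ∑ x ∈ Q, dg G x (A \ Q) + lam * #Q)
    (ht : 0 < t) (hts : t ≤ s) (hlam : lam ≤ s) (hR : k ≤ R * s) (hR' : 16 ≤ R) (hl : k ≤ l * s)
    (hs : 1000 * k * s ≤ a * a) (ha : a ≤ k) (hk : 0 < k) (hz : k * a + 2 * Ψ ≤ z * a)
    (U : Finset V) (hU : U ⊆ A) (hUk : #U ≤ k),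
    ∃ F : ℕ → Finset V, F 0 = ∅ ∧ (∀ c, F c ⊆ A) ∧ A ⊆ F l ∧
      (∀ c, ∀ x ∈ F (c + 1), R * t + 2 * dg G x A ≤ R * dg G x (F (c + 1) \ U) ∨
        R * t + 2 * dg G x A ≤ R * dg G x (F c)) ∧
      ∀ c, #((A \ F (c + 1)) ∪ U) ≤ z

/-- A reservoir that is fair on all tests. -/
def SpResSt : Prop :=
  ∀ (R c0 c1 : ℕ) (hR : 0 < R), ∃ k0 : ℕ, ∀ k, k0 ≤ k →
    ∀ (V : Type) [Fintype V] [DecidableEq V] (G : SimpleGraph V) [DecidableRel G.Adj]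
      (A : Finset V) (t z : ℕ), Fintype.card V ≤ k ^ 4 → k ≤ c1 * t → z ≤ c0 * k →
      (∀ x ∈ A, k ≤ 3 * dg G x A) →
      ∃ W : Finset V, (∀ x ∈ A, R * dg G x (A ∩ W) ≤ 2 * dg G x A) ∧
        ∀ Z ⊆ A, #Z ≤ z → ∀ x ∈ A,
          t ≤ 4 * #{w ∈ A | G.Adj x w ∧ R * t + 2 * dg G w A ≤ R * dg G w (A \ Z)} →
          t ≤ 16 * R * #{w ∈ A ∩ W | G.Adj x w ∧
            R * t + 4 * dg G w A ≤ 2 * R * dg G w (A \ Z)}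

/-- Embedding one tree, given the levels, the escape sets and the reservoir. -/
def SpEmbedSt : Prop :=
  ∀ {V : Type} [Fintype V] [DecidableEq V] (G : SimpleGraph V) [DecidableRel G.Adj]
    (k j l R t z : ℕ) (B : ℕ → Finset V) (A W : Finset V) (hB : ∀ i, B i ⊆ B (i + 1))
    (hB' : ∀ i x, x ∉ B (i + 1) → k ≤ dg G x (B i)ᶜ) (hA : A.Nonempty) (hAB : ∀ x ∈ A, x ∉ B j)
    (hF : ∀ U ⊆ A, #U ≤ k → ∃ F : ℕ → Finset V, F 0 = ∅ ∧ (∀ c, F c ⊆ A) ∧ A ⊆ F l ∧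
      (∀ c, ∀ x ∈ F (c + 1), R * t + 2 * dg G x A ≤ R * dg G x (F (c + 1) \ U) ∨
        R * t + 2 * dg G x A ≤ R * dg G x (F c)) ∧
      ∀ c, #((A \ F (c + 1)) ∪ U) ≤ z)
    (hW : ∀ x ∈ A, R * dg G x (A ∩ W) ≤ 2 * dg G x A)
    (hW' : ∀ Z ⊆ A, #Z ≤ z → ∀ x ∈ A,
      t ≤ 4 * #{w ∈ A | G.Adj x w ∧ R * t + 2 * dg G w A ≤ R * dg G w (A \ Z)} →
      t ≤ 16 * R * #{w ∈ A ∩ W | G.Adj x w ∧ R * t + 4 * dg G w A ≤ 2 * R * dg G w (A \ Z)})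
    (hR : 0 < R) (hj : 0 < j) (hjt : 2 * j < t) (hcost : 16 * R * l * (k + j) < t * j)
    {α : Type} [Fintype α] [DecidableEq α] (hα : Fintype.card α ≤ k) (ρ : α) (par : α → α)
    (d : α → ℕ) (hd : ∀ w, w ≠ ρ → d (par w) < d w),
    ∃ f : α → V, Function.Injective f ∧ ∀ w, w ≠ ρ → G.Adj (f w) (f (par w))

/-- One more tree fits in a large host. -/
def SparseSt : Prop :=
  ∀ (u : ℕ) (hu : 0 < u), ∃ C k0 : ℕ, ∀ k, k0 ≤ k →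
    ∀ (V : Type) [Fintype V] [DecidableEq V] (G : SimpleGraph V) [DecidableRel G.Adj],
      C * k ≤ Fintype.card V → Fintype.card V ≤ k ^ 4 → (∀ x, (u + 1) * k ≤ u * dg G x univ) →
      ∀ i, 1 ≤ i → i ≤ k → ∀ T : SimpleGraph (Fin i), T.IsTree → ∀ U : Finset (Sym2 V),
        2 * #U ≤ k * k → ∃ g : Fin i → V, Function.Injective g ∧
          ∀ a b, T.Adj a b → G.Adj (g a) (g b) ∧ s(g a, g b) ∉ U

end Pool.Agent.Lib.MP_2b1ae8_co.GH
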