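import Pool.Agent.Lib.MP_2b1ae8_co.GH.St
import Pool.Agent.Lib.MP_2b1ae8_co.AT.Tree

/-! Forests with windows: the core, the good vertices and the windows above them. -/

set_option autoImplicit false

namespace Pool.Agent.Lib.MP_2b1ae8_co.GH

open Finset AT

namespace Win

variable {V I : Type} [Fintype V] [DecidableEq V]

/-- The path of `l` vertices above `c` can be a window. -/
def good (T : Fo V I) (f : V → ℕ) (K l μ : ℕ) (c : V) : Prop :=
  (∀ j, 1 ≤ j → j ≤ l → T.par^[j] c ∉ T.R ∧ ¬T.Cu f K (T.par^[j] c)) ∧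
    f (T.par^[l] c) ≤ f c + μ

/-- Sizes of subtrees and the core. -/
structure Ctx (T : Fo V I) (K l μ : ℕ) where
  f : V → ℕ
  A : Finset V
  hK : 0 < K
  hl : 0 < l
  hf : ∀ v, f v = 1 + ∑ c ∈ T.ch v, f c
  hA : ∀ v, v ∈ A ↔ T.Cu f K v ∨ ∃ c ∈ T.ch v, c ∈ A ∧ ¬good T f K l μ c

theorem exists_Ctx (T : Fo V I) {K l : ℕ} (μ : ℕ) (hK : 0 < K) (hl : 0 < l) :
    Nonempty (Ctx T K l μ) := by
  classical
  obtain ⟨f, hf⟩ := T.exists_sum fun _ => 1
  obtain ⟨A0, hA0⟩ := tr_rec T.wf_ch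
    (fun v (s : V → Prop) => T.Cu f K v ∨ ∃ c ∈ T.ch v, s c ∧ ¬good T f K l μ c)
    fun v s s' h => by
      have : (∃ c ∈ T.ch v, s c ∧ ¬good T f K l μ c) ↔ ∃ c ∈ T.ch v, s' c ∧ ¬good T f K l μ c :=
        exists_congr fun c => and_congr_right fun hc => by rw [h c hc]
      rw [this]
  exact ⟨⟨f, univ.filter A0, hK, hl, hf, fun v => by simpa using (hA0 v).to_iff⟩⟩

omit [Fintype V] [DecidableEq V] in
theorem tr_iter (T : Fo V I) (j : ℕ) (c : V) : T.tr (T.par^[j] c) = T.tr c := by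
  induction j with
  | zero => rfl
  | succ j ih => rw [Function.iterate_succ_apply', T.tr_par, ih]

omit [Fintype V] [DecidableEq V] in
theorem dep_rho (T : Fo V I) (v : V) : T.dep (T.rho v) ≤ T.dep v := by
  induction v using T.wf_par.induction with
  | h v ih =>
  by_cases hv : v ∈ T.R
  · rw [T.uniq v hv v rfl]
  · have h1 := ih _ ⟨hv, rfl⟩
    have h2 := T.dep_par v hv
    rw [T.uniq _ (T.rho_R (T.par v)) v ((T.tr_rho _).trans (T.tr_par v)).symm]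
    omega

omit [Fintype V] [DecidableEq V] in
theorem dep_rho_lt (T : Fo V I) {v : V} (hv : v ∉ T.R) : T.dep (T.rho v) < T.dep v := by
  have h1 := dep_rho T (T.par v)
  have h2 := T.dep_par v hv
  rw [T.uniq _ (T.rho_R (T.par v)) v ((T.tr_rho _).trans (T.tr_par v)).symm]
  omega

namespace Ctx

variable {T : Fo V I} {K l μ : ℕ} (X : Ctx T K l μ)

/-- Good vertices of the core. -/
def Gd (c : V) : Prop := c ∈ X.A ∧ c ∉ T.R ∧ good T X.f K l μ c

/-- The paths of the windows. -/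
def Pth (v : V) : Prop := ∃ c j, X.Gd c ∧ 1 ≤ j ∧ j ≤ l ∧ T.par^[j] c = v

theorem heavyA (v : V) : v ∈ X.A → K ≤ X.f v := by
  induction v using T.ind with
  | h v ih =>
  intro hv
  rcases (X.hA v).1 hv with h | ⟨c, hc, h, -⟩
  · exact h.1
  · exact (ih c hc h).trans (T.f_lt X.hf hc).le

theorem nCu {v : V} (hv : v ∉ X.A) : ¬T.Cu X.f K v := fun h => hv ((X.hA v).2 (Or.inl h))

theorem uniq_ch {v c c' : V} (hv : ¬T.Cu X.f K v) (hc : c ∈ T.ch v) (hc' : c' ∈ T.ch v)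
    (h : K ≤ X.f c) (h' : K ≤ X.f c') : c = c' :=
  (T.not_Cu X.hf X.hK hv).2 c hc c' hc' h h'

variable {X}

theorem Gd.notR {c : V} (h : X.Gd c) {j : ℕ} (hj : j ≤ l) : T.par^[j] c ∉ T.R := by
  rcases Nat.eq_zero_or_pos j with rfl | h0
  · exact h.2.1
  · exact (h.2.2.1 j h0 hj).1

theorem Gd.mem_ch {c : V} (h : X.Gd c) {j : ℕ} (hj : j ≤ l) :
    T.par^[j] c ∈ T.ch (T.par^[j + 1] c) :=
  T.mem_ch.2 ⟨h.notR hj, (Function.iterate_succ_apply' _ _ _).symm⟩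

theorem Gd.le_f {c : V} (h : X.Gd c) {j : ℕ} (hj : j ≤ l) : X.f c ≤ X.f (T.par^[j] c) := by
  induction j with
  | zero => exact le_rfl
  | succ j ih => exact (ih (by omega)).trans (T.f_lt X.hf (h.mem_ch (by omega))).le

theorem Gd.heavy {c : V} (h : X.Gd c) {j : ℕ} (hj : j ≤ l) : K ≤ X.f (T.par^[j] c) :=
  (X.heavyA c h.1).trans (h.le_f hj)

theorem Gd.nCu {c : V} (h : X.Gd c) {j : ℕ} (hj : j + 1 ≤ l) : ¬T.Cu X.f K (T.par^[j + 1] c) :=
  (h.2.2.1 (j + 1) (by omega) hj).2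

theorem Gd.dep {c : V} (h : X.Gd c) {j : ℕ} (hj : j ≤ l) :
    T.dep (T.par^[j] c) + j = T.dep c := by
  induction j with
  | zero => rfl
  | succ j ih =>
    have h1 := T.dep_par _ (h.notR (j := j) (by omega))
    have h2 := ih (by omega)
    rw [Function.iterate_succ_apply']
    omega

/-- the only heavy child of a vertex of a window path -/
theorem Gd.child {c u : V} (h : X.Gd c) {j : ℕ} (hj : j + 1 ≤ l)
    (hu : u ∈ T.ch (T.par^[j + 1] c)) (hk : K ≤ X.f u) : u = T.par^[j] c :=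
  X.uniq_ch (h.nCu hj) hu (h.mem_ch (by omega)) hk (h.heavy (by omega))

theorem Gd.notA {c : V} (h : X.Gd c) {j : ℕ} (hj : j + 1 ≤ l) : T.par^[j + 1] c ∉ X.A := by
  induction j with
  | zero =>
    intro ha
    obtain ⟨u, hu, h1, h2⟩ := ((X.hA _).1 ha).resolve_left (h.nCu hj)
    rw [h.child hj hu (X.heavyA u h1)] at h2
    exact h2 h.2.2
  | succ j ih =>
    intro ha
    obtain ⟨u, hu, h1, -⟩ := ((X.hA _).1 ha).resolve_left (h.nCu hj)
    rw [h.child hj hu (X.heavyA u h1)] at h1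
    exact ih (by omega) h1

theorem Gd.uniq {c c' : V} (h : X.Gd c) (h' : X.Gd c') {j j' : ℕ} (hj : j ≤ l) (hj' : j' ≤ l)
    (e : T.par^[j] c = T.par^[j'] c') : j = j' ∧ c = c' := by
  induction j generalizing j' with
  | zero =>
    cases j' with
    | zero => exact ⟨rfl, e⟩
    | succ j' => exact absurd (e ▸ h.1) (h'.notA hj')
  | succ j ih =>
    cases j' with
    | zero => exact absurd (e.symm ▸ h'.1) (h.notA hj)
    | succ j' =>
      have h1 := h'.child hj' (e ▸ h.mem_ch (by omega)) (h.heavy (by omega))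
      obtain ⟨h2, h3⟩ := ih (by omega) (by omega) h1
      exact ⟨by rw [h2], h3⟩

theorem Pth.heavy {v : V} (h : X.Pth v) : K ≤ X.f v := by
  obtain ⟨c, j, hc, -, hj, rfl⟩ := h
  exact hc.heavy hj

theorem Pth.notR {v : V} (h : X.Pth v) : v ∉ T.R := by
  obtain ⟨c, j, hc, -, hj, rfl⟩ := h
  exact hc.notR hj

theorem Pth.notA {v : V} (h : X.Pth v) : v ∉ X.A := by
  obtain ⟨c, j, hc, h1, hj, rfl⟩ := h
  obtain ⟨j, rfl⟩ : ∃ i, j = i + 1 := ⟨j - 1, by omega⟩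
  exact hc.notA hj

variable (X)

/-- every vertex of the core lies a bounded distance above a cut vertex -/
theorem chain (v : V) : v ∈ X.A → ∃ c j, T.Cu X.f K c ∧ T.par^[j] c = v ∧
    (∀ i < j, T.par^[i] c ∉ T.R ∧ ¬good T X.f K l μ (T.par^[i] c)) ∧
    (∀ i < j, ¬T.Cu X.f K (T.par^[i + 1] c)) ∧ ∀ i ≤ j, X.f (T.par^[i] c) / K = X.f c / K := by
  induction v using T.ind with
  | h v ih =>
  intro hv
  by_cases hc : T.Cu X.f K v
  · refine ⟨v, 0, hc, rfl, by simp, by simp, fun i hi => ?_⟩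
    rw [Nat.le_zero.1 hi]
    rfl
  obtain ⟨u, hu, h1, h2⟩ := ((X.hA v).1 hv).resolve_left hc
  obtain ⟨c, j, k1, rfl, k2, k3, k4⟩ := ih u hu h1
  have e : T.par^[j + 1] c = v := by
    rw [Function.iterate_succ_apply']
    exact (T.mem_ch.1 hu).2
  refine ⟨c, j + 1, k1, e, fun i hi => ?_, fun i hi => ?_, fun i hi => ?_⟩
  · rcases Nat.lt_succ_iff_lt_or_eq.1 hi with h | rfl
    · exact k2 i h
    · exact ⟨(T.mem_ch.1 hu).1, h2⟩
  · rcases Nat.lt_succ_iff_lt_or_eq.1 hi with h | rfl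
    · exact k3 i h
    · rwa [e]
  · rcases Nat.le_succ_iff.1 hi with h | rfl
    · exact k4 i h
    · have : ∃ w ∈ T.ch v, X.f w / K = X.f v / K := by
        by_contra hn
        exact hc ⟨X.heavyA v hv, fun w hw e => hn ⟨w, hw, e⟩⟩
      obtain ⟨w, hw, ew⟩ := this
      have h4 : 1 ≤ X.f v / K := (Nat.le_div_iff_mul_le X.hK).2 (by simpa using X.heavyA v hv)
      have h5 : K ≤ X.f w := by
        have := (Nat.le_div_iff_mul_le X.hK).1 (h4.trans_eq ew.symm)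
        omega
      rw [Nat.succ_eq_add_one, e, ← ew, X.uniq_ch hc hw hu h5 (X.heavyA _ h1)]
      exact k4 j le_rfl

theorem chain_le {b : ℕ} (hb : K ≤ b * μ) {c : V} {j : ℕ}
    (h1 : ∀ i < j, T.par^[i] c ∉ T.R ∧ ¬good T X.f K l μ (T.par^[i] c))
    (h2 : ∀ i < j, ¬T.Cu X.f K (T.par^[i + 1] c))
    (h3 : ∀ i ≤ j, X.f (T.par^[i] c) / K = X.f c / K) : j ≤ b * l := by
  have key : ∀ t, t * l < j → X.f c + t * μ ≤ X.f (T.par^[t * l] c) := by
    intro t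
    induction t with
    | zero => simp
    | succ t ih =>
      intro ht
      rw [Nat.succ_mul] at ht
      have k1 := ih (by omega)
      have k2 : ¬X.f (T.par^[l] (T.par^[t * l] c)) ≤ X.f (T.par^[t * l] c) + μ := fun h =>
        (h1 (t * l) (by omega)).2 ⟨fun i i1 i2 => by
          rw [← Function.iterate_add_apply]
          obtain ⟨i, rfl⟩ : ∃ s, i = s + 1 := ⟨i - 1, by omega⟩
          refine ⟨(h1 _ (by omega)).1, ?_⟩
          rw [show i + 1 + t * l = i + t * l + 1 by omega]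
          exact h2 _ (by omega), h⟩
      rw [← Function.iterate_add_apply, add_comm l] at k2
      rw [Nat.succ_mul, Nat.succ_mul]
      omega
  by_contra hn
  have k1 := key b (by omega)
  have k2 := h3 (b * l) (by omega)
  have a1 := Nat.div_add_mod (X.f (T.par^[b * l] c)) K
  have a2 := Nat.div_add_mod (X.f c) K
  have a3 := Nat.mod_lt (X.f (T.par^[b * l] c)) X.hK
  rw [k2] at a1
  omega

variable [DecidableEq I]

open Classical in
theorem card_A {b : ℕ} (hb : K ≤ b * μ) (i : I) :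
    #{v ∈ X.A | T.tr v = i} ≤ #{u ∈ T.tree i | T.Cu X.f K u} * (b * l + 1) := by
  rw [← card_range (b * l + 1), ← card_product]
  refine le_trans (card_le_card fun v hv => ?_)
    (card_image_le (f := fun p : V × ℕ => T.par^[p.2] p.1))
  rw [mem_filter] at hv
  obtain ⟨c, j, k1, rfl, k2, k3, k4⟩ := X.chain v hv.1
  exact mem_image.2 ⟨(c, j), mem_product.2 ⟨mem_filter.2
    ⟨T.mem_tree.2 ((tr_iter T j c).symm.trans hv.2), k1⟩,
    mem_range.2 (Nat.lt_succ_of_le (X.chain_le hb k2 k3 k4))⟩, rfl⟩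

open Classical in
theorem card_Gd (i : I) :
    #{v | X.Gd v ∧ T.tr v = i} ≤ #{u ∈ T.tree i | T.Cu X.f K u} := by
  have h : ∀ v, ∃ c j, X.Gd v → T.Cu X.f K c ∧ T.par^[j] c = v ∧
      ∀ i < j, ¬good T X.f K l μ (T.par^[i] c) := fun v => by
    by_cases hv : X.Gd v
    · obtain ⟨c, j, k1, k2, k3, -⟩ := X.chain v hv.1
      exact ⟨c, j, fun _ => ⟨k1, k2, fun i hi => (k3 i hi).2⟩⟩
    · exact ⟨v, 0, fun h => absurd h hv⟩
  choose c j h using h
  refine card_le_card_of_injOn c (fun v hv => ?_) fun v hv w hw e => ?_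
  · rw [mem_coe, mem_filter] at hv ⊢
    obtain ⟨k1, k2, -⟩ := h v hv.2.1
    exact ⟨T.mem_tree.2 (by rw [← tr_iter T (j v), k2, hv.2.2]), k1⟩
  · rw [mem_coe, mem_filter] at hv hw
    obtain ⟨-, k2, k3⟩ := h v hv.2.1
    obtain ⟨-, m2, m3⟩ := h w hw.2.1
    rcases lt_trichotomy (j v) (j w) with t | t | t
    · exact absurd (by rw [← e, k2]; exact hv.2.1.2.2) (m3 _ t)
    · rw [← k2, ← m2, e, t]
    · exact absurd (by rw [e, m2]; exact hw.2.1.2.2) (k3 _ t)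

end Ctx

/-- The windows. -/
structure Ctx2 (T : Fo V I) (K l μ : ℕ) extends Ctx T K l μ where
  pos : V → ℕ
  bot : V → V
  Wn : Finset V
  La : Finset V
  hp : ∀ v, toCtx.Pth v → toCtx.Gd (bot v) ∧ 1 ≤ pos v ∧ pos v ≤ l ∧ T.par^[pos v] (bot v) = v
  hp0 : ∀ v, ¬toCtx.Pth v → pos v = 0
  hW : ∀ v, v ∈ Wn ↔ toCtx.Pth v ∨ (v ∉ T.R ∧ f v < K ∧ T.par v ∈ Wn)
  hL : ∀ v, v ∈ La ↔ toCtx.Pth v ∧ pos v = l

theorem exists_Ctx2 (T : Fo V I) {K l : ℕ} (μ : ℕ) (hK : 0 < K) (hl : 0 < l) :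
    Nonempty (Ctx2 T K l μ) := by
  classical
  obtain ⟨X⟩ := exists_Ctx T μ hK hl
  have h : ∀ v, ∃ j c, (X.Pth v → X.Gd c ∧ 1 ≤ j ∧ j ≤ l ∧ T.par^[j] c = v) ∧
      (¬X.Pth v → j = 0) := fun v => by
    by_cases hv : X.Pth v
    · obtain ⟨c, j, h⟩ := id hv
      exact ⟨j, c, fun _ => h, fun h => absurd hv h⟩
    · exact ⟨0, v, fun h => absurd h hv, fun _ => rfl⟩
  choose pos bot h1 h2 using h
  obtain ⟨W0, hW0⟩ := tr_rec T.wf_par
    (fun v (s : V → Prop) => X.Pth v ∨ (v ∉ T.R ∧ X.f v < K ∧ s (T.par v))) fun v s s' h => by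
      by_cases hv : v ∈ T.R
      · simp [hv]
      · rw [h _ ⟨hv, rfl⟩]
  exact ⟨{ X with
    pos := pos, bot := bot, Wn := univ.filter W0
    La := univ.filter fun v => X.Pth v ∧ pos v = l
    hp := h1, hp0 := h2, hW := fun v => by simpa using (hW0 v).to_iff
    hL := fun v => by simp }⟩

namespace Ctx2

variable {T : Fo V I} {K l μ : ℕ} (X : Ctx2 T K l μ)

theorem pos_bot {c : V} (h : X.Gd c) {j : ℕ} (h1 : 1 ≤ j) (hj : j ≤ l) :
    X.pos (T.par^[j] c) = j ∧ X.bot (T.par^[j] c) = c := by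
  obtain ⟨k1, -, k2, k3⟩ := X.hp _ ⟨c, j, h, h1, hj, rfl⟩
  exact k1.uniq h k2 hj k3

theorem pth_Wn {v : V} (h : X.Pth v) : v ∈ X.Wn := (X.hW v).2 (Or.inl h)

theorem not_R {v : V} (h : v ∈ X.Wn) : v ∉ T.R :=
  ((X.hW v).1 h).elim Ctx.Pth.notR fun h => h.1

theorem not_A {v : V} (h : v ∈ X.Wn) : v ∉ X.A :=
  ((X.hW v).1 h).elim Ctx.Pth.notA fun h ha => absurd (X.heavyA v ha) (not_le.2 h.2.1)

theorem pth_of_heavy {v : V} (h : v ∈ X.Wn) (hk : K ≤ X.f v) : X.Pth v :=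
  ((X.hW v).1 h).resolve_right fun h => absurd hk (not_le.2 h.2.1)

theorem La_sub {v : V} (h : v ∈ X.La) : v ∈ X.Wn := X.pth_Wn ((X.hL v).1 h).1

theorem Gd_La {c : V} (h : X.Gd c) : T.par^[l] c ∈ X.La :=
  (X.hL _).2 ⟨⟨c, l, h, X.hl, le_rfl, rfl⟩, (X.pos_bot h X.hl le_rfl).1⟩

theorem La_eq {v : V} (h : v ∈ X.La) : X.Gd (X.bot v) ∧ T.par^[l] (X.bot v) = v := by
  obtain ⟨h1, h2⟩ := (X.hL v).1 h
  obtain ⟨k1, -, -, k2⟩ := X.hp v h1
  rw [h2] at k2
  exact ⟨k1, k2⟩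

/-- a heavy vertex below a window vertex -/
theorem heavy_child {v : V} (hr : v ∉ T.R) (hk : K ≤ X.f v) (hp : T.par v ∈ X.Wn) :
    ∃ c j, X.Gd c ∧ j + 1 ≤ l ∧ T.par^[j] c = v := by
  have hc : v ∈ T.ch (T.par v) := T.mem_ch.2 ⟨hr, rfl⟩
  obtain ⟨c, j, k1, k2, k3, k4⟩ := X.pth_of_heavy hp (hk.trans (T.f_lt X.hf hc).le)
  obtain ⟨j, rfl⟩ : ∃ i, j = i + 1 := ⟨j - 1, by omega⟩
  exact ⟨c, j, k1, k3, (k1.child k3 (k4 ▸ hc) hk).symm⟩

theorem key {v : V} (hr : v ∉ T.R) (hw : v ∉ X.Wn) (hp : T.par v ∈ X.Wn) : X.Gd v := by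
  have hk : K ≤ X.f v := not_lt.1 fun h => hw ((X.hW v).2 (Or.inr ⟨hr, h, hp⟩))
  obtain ⟨c, j, k1, k2, rfl⟩ := X.heavy_child hr hk hp
  rcases Nat.eq_zero_or_pos j with rfl | h0
  · exact k1
  · exact absurd (X.pth_Wn ⟨c, j, k1, h0, by omega, rfl⟩) hw

theorem La_par {v : V} (h : v ∈ X.La) : T.par v ∉ X.Wn := fun hp => by
  obtain ⟨k1, k2⟩ := X.La_eq h
  obtain ⟨c, j, m1, m2, m3⟩ := X.heavy_child (X.not_R (X.La_sub h)) ((X.hL v).1 h).1.heavy hp
  have := (m1.uniq k1 (by omega) le_rfl (m3.trans k2.symm)).1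
  omega

theorem up {v : V} (h : X.Pth v) (hl : v ∉ X.La) :
    X.Pth (T.par v) ∧ X.pos (T.par v) = X.pos v + 1 ∧ X.bot (T.par v) = X.bot v := by
  obtain ⟨k1, k2, k3, k4⟩ := X.hp v h
  have k5 : X.pos v + 1 ≤ l := lt_of_le_of_ne k3 fun e => hl ((X.hL v).2 ⟨h, e⟩)
  have e : T.par^[X.pos v + 1] (X.bot v) = T.par v := by rw [Function.iterate_succ_apply', k4]
  have := X.pos_bot k1 (j := X.pos v + 1) (by omega) k5
  rw [e] at this
  exact ⟨⟨_, _, k1, by omega, k5, e⟩, this⟩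

variable [DecidableEq I]

open Classical in
theorem card_La (i : I) : #{v ∈ X.La | T.tr v = i} ≤ #{v | X.Gd v ∧ T.tr v = i} := by
  refine card_le_card_of_injOn X.bot (fun v hv => ?_) fun v hv w hw e => ?_
  · rw [mem_coe, mem_filter] at hv ⊢
    obtain ⟨k1, k2⟩ := X.La_eq hv.1
    exact ⟨mem_univ _, k1, by rw [← tr_iter T l, k2, hv.2]⟩
  · rw [mem_coe, mem_filter] at hv hw
    rw [← (X.La_eq hv.1).2, ← (X.La_eq hw.1).2, e]

open Classical in
theorem card_Wn (i : I) : #{v ∈ X.Wn | T.tr v = i} ≤ μ * #{v | X.Gd v ∧ T.tr v = i} := by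
  rcases isEmpty_or_nonempty V with hV | hV
  · simp
  have : Inhabited V := Classical.inhabited_of_nonempty hV
  obtain ⟨wid, hw⟩ := tr_rec T.wf_par
    (fun v (s : V → V) => if ¬X.Pth v ∧ v ∉ T.R then s (T.par v) else X.bot v) fun v s s' h => by
      split_ifs with hv
      · exact h _ ⟨hv.2, rfl⟩
      · rfl
  have w1 : ∀ v, X.Pth v → wid v = X.bot v := fun v hv => by
    rw [hw v, if_neg fun h => h.1 hv]
  have w2 : ∀ v ∈ X.Wn, ¬X.Pth v → T.par v ∈ X.Wn ∧ wid v = wid (T.par v) := fun v hv hp =>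
    ⟨(((X.hW v).1 hv).resolve_left hp).2.2, by rw [hw v, if_pos ⟨hp, X.not_R hv⟩]⟩
  have w3 : ∀ v, v ∈ X.Wn → X.Gd (wid v) ∧ T.tr (wid v) = T.tr v := by
    intro v
    induction v using T.wf_par.induction with
    | h v ih =>
    intro hv
    by_cases hp : X.Pth v
    · obtain ⟨k1, -, -, k2⟩ := X.hp v hp
      rw [w1 v hp]
      exact ⟨k1, by rw [← tr_iter T (X.pos v), k2]⟩
    · obtain ⟨k1, k2⟩ := w2 v hv hp
      rw [k2, ← T.tr_par v]
      exact ih _ ⟨X.not_R hv, rfl⟩ k1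
  refine card_le_mul_card_image_of_maps_to (f := wid) (fun v hv => ?_) μ fun c hc => ?_
  · rw [mem_filter] at hv ⊢
    exact ⟨mem_univ _, (w3 v hv.1).1, (w3 v hv.1).2.trans hv.2⟩
  have hg := (mem_filter.1 hc).2.1
  have h1 := T.tele {v ∈ X.Wn | wid v = c} (T.par^[l] c) (fun _ => 1)
    (fun v => X.f v - if K ≤ X.f v then X.f c else 0) (fun u hu => ?_) fun u hu hne => ?_
  · rw [← card_eq_sum_ones, if_pos (hg.heavy le_rfl)] at h1
    have h2 := hg.2.2.2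
    refine le_trans (card_le_card fun v hv => ?_) (h1.trans (by omega))
    rw [mem_filter, mem_filter] at hv
    exact mem_filter.2 ⟨hv.1.1, hv.2⟩
  · rw [mem_filter] at hu
    by_cases hk : K ≤ X.f u
    · have hp := X.pth_of_heavy hu.1 hk
      obtain ⟨-, k2, k3, k4⟩ := X.hp u hp
      rw [← w1 u hp, hu.2] at k4
      obtain ⟨j, hj⟩ : ∃ j, X.pos u = j + 1 := ⟨X.pos u - 1, by omega⟩
      rw [hj] at k3 k4
      have m1 : T.par^[j] c ∈ T.ch u := k4 ▸ hg.mem_ch (by omega)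
      have m2 := T.f_split X.hf m1
      have m3 := hg.le_f (j := j) (by omega)
      have m4 : ∑ w ∈ (T.ch u).erase (T.par^[j] c), (X.f w - if K ≤ X.f w then X.f c else 0) ≤
          ∑ w ∈ (T.ch u).erase (T.par^[j] c), X.f w := sum_le_sum fun w _ => Nat.sub_le _ _
      rw [← add_sum_erase _ _ m1, if_pos hk, if_pos (hg.heavy (by omega))]
      omega
    · rw [if_neg hk, Nat.sub_zero, X.hf u]
      exact Nat.add_le_add_left (sum_le_sum fun w _ => Nat.sub_le _ _) _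
  · rw [mem_filter] at hu
    refine ⟨X.not_R hu.1, mem_filter.2 ?_⟩
    by_cases hp : X.Pth u
    · obtain ⟨k1, -, k2⟩ := X.up hp fun h => hne (by
        rw [← hu.2, w1 u hp]
        exact (X.La_eq h).2.symm)
      exact ⟨X.pth_Wn k1, by rw [w1 _ k1, k2, ← w1 u hp, hu.2]⟩
    · obtain ⟨k1, k2⟩ := w2 u hu.1 hp
      exact ⟨k1, k2.symm.trans hu.2⟩

end Ctx2

end Win

end Pool.Agent.Lib.MP_2b1ae8_co.GH
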